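import Pool.Agent.H70.LC2.Defs
import Pool.Agent.H91.PK.LSa

/-!
# LC2 KU: an upper bound for the number of points near `0` modulo `1` (dimension 2)

`ker_up`.  Let `K t = ‖∑_{j<H} ee (j t)‖²`.  If `|t - z| ≤ 1/(6H)` for an integer `z`, then `Re (ee (j t)) = cos (2 π j (t - z)) ≥ cos (π/3) = 1/2` for `0 ≤ j < H`, so `K t ≥ H²/4`.  So
`(H²/4)² · card ≤ ∑_d K (α d) K (β d) = ∑_{j₁,j₂,j₃,j₄ < H} ∑_d ee ((j₁ - j₂) α d + (j₃ - j₄) β d)`.  The `H²` quadruples with `j₁ = j₂`, `j₃ = j₄` give `H² #D`; each of the others at most `E` (`|j₁ - j₂| < H`), together `≤ H⁴ E`.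
-/

set_option autoImplicit false

open Finset
open Pool.Agent.H91.PK (ee)

namespace Pool.Agent.H70.LC2

private noncomputable def KS (H : ℕ) (t : ℝ) : ℂ := ∑ j ∈ range H, ee ((j : ℝ) * t)

private theorem ee_int (n : ℤ) : ee (n : ℝ) = 1 := by
  unfold Pool.Agent.H91.PK.ee
  rw [Complex.exp_eq_one_iff]
  exact ⟨n, by push_cast; ring⟩

private theorem ee_re (t : ℝ) : (ee t).re = Real.cos (2 * Real.pi * t) := by
  unfold Pool.Agent.H91.PK.ee
  have h : (2 * Real.pi * t * Complex.I : ℂ) = ((2 * Real.pi * t : ℝ) : ℂ) * Complex.I := by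
    push_cast; ring
  rw [h, Complex.exp_ofReal_mul_I_re]

private theorem KS_ge {H : ℕ} (hH : 1 ≤ H) {t : ℝ} {z : ℤ} (h : |t - z| ≤ 1 / (6 * H)) :
    (H : ℝ) / 2 ≤ ‖KS H t‖ := by
  have hH0 : (0 : ℝ) < H := by exact_mod_cast hH
  have h1 : (H : ℝ) / 2 ≤ (KS H t).re := by
    unfold KS
    rw [Complex.re_sum]
    have h2 : ∀ j ∈ range H, (1 : ℝ) / 2 ≤ (ee ((j : ℝ) * t)).re := by
      intro j hj
      have hj' : (j : ℝ) ≤ H := by exact_mod_cast (Finset.mem_range.1 hj).le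
      have e : ee ((j : ℝ) * t) = ee ((j : ℝ) * (t - z)) := by
        have e1 : (j : ℝ) * t = (j : ℝ) * (t - z) + (((j : ℤ) * z : ℤ) : ℝ) := by
          push_cast
          ring
        rw [e1, Pool.Agent.H91.PK.LSa_ee_add, ee_int, mul_one]
      rw [e, ee_re, ← Real.cos_abs, ← Real.cos_pi_div_three]
      apply Real.cos_le_cos_of_nonneg_of_le_pi (abs_nonneg _)
      · linarith [Real.pi_pos]
      · have e2 : |2 * Real.pi * ((j : ℝ) * (t - z))| = 2 * Real.pi * ((j : ℝ) * |t - z|) := by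
          rw [abs_mul, abs_of_pos (by positivity : (0 : ℝ) < 2 * Real.pi), abs_mul,
            abs_of_nonneg (Nat.cast_nonneg j)]
        rw [e2]
        have h3 : (j : ℝ) * |t - z| ≤ H * (1 / (6 * H)) :=
          mul_le_mul hj' h (abs_nonneg _) hH0.le
        have h4 : (H : ℝ) * (1 / (6 * H)) = 1 / 6 := by
          field_simp
        rw [h4] at h3
        calc 2 * Real.pi * ((j : ℝ) * |t - z|) ≤ 2 * Real.pi * (1 / 6) :=
              mul_le_mul_of_nonneg_left h3 (by positivity)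
          _ = Real.pi / 3 := by ring
    have h3 := Finset.sum_le_sum h2
    rw [Finset.sum_const, Finset.card_range, nsmul_eq_mul] at h3
    linarith
  exact h1.trans (Complex.re_le_norm _)

private theorem KS_sq (H : ℕ) (t : ℝ) : ((‖KS H t‖ ^ 2 : ℝ) : ℂ) =
    ∑ p ∈ range H ×ˢ range H, ee (((p.1 : ℝ) - p.2) * t) := by
  have h1 : ((‖KS H t‖ ^ 2 : ℝ) : ℂ) = KS H t * (starRingEnd ℂ) (KS H t) := by
    rw [Complex.mul_conj, Complex.normSq_eq_norm_sq]
  rw [h1]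
  unfold KS
  rw [map_sum, Finset.sum_mul_sum, Finset.sum_product]
  apply Finset.sum_congr rfl
  intro i _
  apply Finset.sum_congr rfl
  intro j _
  rw [Pool.Agent.H91.PK.LSa_conj_ee, ← Pool.Agent.H91.PK.LSa_ee_add]
  congr 1
  ring

private theorem diag_sum (H : ℕ) :
    ∑ p ∈ range H ×ˢ range H, (if p.1 = p.2 then (1 : ℝ) else 0) = H := by
  rw [Finset.sum_product]
  have h : ∀ i ∈ range H, ∑ j ∈ range H, (if (i, j).1 = (i, j).2 then (1 : ℝ) else 0) = 1 := by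
    intro i hi
    simp only [Finset.sum_ite_eq, hi, if_true]
  rw [Finset.sum_congr rfl h, Finset.sum_const, Finset.card_range, nsmul_eq_mul, mul_one]

open Classical in
theorem ker_up (D : Finset ℕ) (α β : ℕ → ℝ) {H : ℕ} (hH : 1 ≤ H) {E : ℝ} (hE0 : 0 ≤ E)
    (hE : ∀ a b : ℤ, |a| < H → |b| < H → (a ≠ 0 ∨ b ≠ 0) → ‖∑ d ∈ D, ee (a * α d + b * β d)‖ ≤ E) :
    ((D.filter (fun d => (∃ z : ℤ, |α d - z| ≤ 1 / (6 * H)) ∧ ∃ z : ℤ, |β d - z| ≤ 1 / (6 * H))).card : ℝ) ≤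
      16 * (D.card / (H : ℝ) ^ 2 + E) := by
  have hH0 : (0 : ℝ) < H := by exact_mod_cast hH
  set A := D.filter (fun d => (∃ z : ℤ, |α d - z| ≤ 1 / (6 * H)) ∧
    ∃ z : ℤ, |β d - z| ≤ 1 / (6 * H)) with hA
  set R := range H ×ˢ range H with hR
  -- lower bound
  have hlow : (A.card : ℝ) * (((H : ℝ) / 2) ^ 2 * ((H : ℝ) / 2) ^ 2) ≤
      ∑ d ∈ D, ‖KS H (α d)‖ ^ 2 * ‖KS H (β d)‖ ^ 2 := by
    calc (A.card : ℝ) * (((H : ℝ) / 2) ^ 2 * ((H : ℝ) / 2) ^ 2)
        = ∑ d ∈ A, ((H : ℝ) / 2) ^ 2 * ((H : ℝ) / 2) ^ 2 := by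
          rw [Finset.sum_const, nsmul_eq_mul]
      _ ≤ ∑ d ∈ A, ‖KS H (α d)‖ ^ 2 * ‖KS H (β d)‖ ^ 2 := by
          apply Finset.sum_le_sum
          intro d hd
          rw [hA, Finset.mem_filter] at hd
          obtain ⟨-, ⟨z, hz⟩, z', hz'⟩ := hd
          have h1 := KS_ge hH hz
          have h2 := KS_ge hH hz'
          exact mul_le_mul (pow_le_pow_left₀ (by positivity) h1 2)
            (pow_le_pow_left₀ (by positivity) h2 2) (by positivity) (by positivity)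
      _ ≤ ∑ d ∈ D, ‖KS H (α d)‖ ^ 2 * ‖KS H (β d)‖ ^ 2 :=
          Finset.sum_le_sum_of_subset_of_nonneg (Finset.filter_subset _ _)
            fun _ _ _ => by positivity
  -- upper bound
  have hup : ∑ d ∈ D, ‖KS H (α d)‖ ^ 2 * ‖KS H (β d)‖ ^ 2 ≤
      (H : ℝ) ^ 2 * D.card + (H : ℝ) ^ 4 * E := by
    have h1 : ((∑ d ∈ D, ‖KS H (α d)‖ ^ 2 * ‖KS H (β d)‖ ^ 2 : ℝ) : ℂ) =
        ∑ p ∈ R, ∑ q ∈ R, ∑ d ∈ D, ee ((((p.1 : ℤ) - p.2 : ℤ) : ℝ) * α d +
          (((q.1 : ℤ) - q.2 : ℤ) : ℝ) * β d) := by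
      rw [Complex.ofReal_sum]
      have h2 : ∀ d ∈ D, ((‖KS H (α d)‖ ^ 2 * ‖KS H (β d)‖ ^ 2 : ℝ) : ℂ) =
          ∑ p ∈ R, ∑ q ∈ R, ee ((((p.1 : ℤ) - p.2 : ℤ) : ℝ) * α d +
            (((q.1 : ℤ) - q.2 : ℤ) : ℝ) * β d) := by
        intro d _
        rw [Complex.ofReal_mul, KS_sq, KS_sq, Finset.sum_mul_sum]
        apply Finset.sum_congr rfl
        intro p _
        apply Finset.sum_congr rfl
        intro q _
        rw [← Pool.Agent.H91.PK.LSa_ee_add]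
        push_cast
        rfl
      rw [Finset.sum_congr rfl h2, Finset.sum_comm]
      apply Finset.sum_congr rfl
      intro p _
      rw [Finset.sum_comm]
    have h3 : ∑ d ∈ D, ‖KS H (α d)‖ ^ 2 * ‖KS H (β d)‖ ^ 2 =
        ‖((∑ d ∈ D, ‖KS H (α d)‖ ^ 2 * ‖KS H (β d)‖ ^ 2 : ℝ) : ℂ)‖ := by
      rw [Complex.norm_real, Real.norm_of_nonneg]
      exact Finset.sum_nonneg fun _ _ => by positivity
    rw [h3, h1]
    have h4 : ∀ p ∈ R, ∀ q ∈ R, ‖∑ d ∈ D, ee ((((p.1 : ℤ) - p.2 : ℤ) : ℝ) * α d +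
        (((q.1 : ℤ) - q.2 : ℤ) : ℝ) * β d)‖ ≤
        E + (if p.1 = p.2 then (1 : ℝ) else 0) * ((if q.1 = q.2 then (1 : ℝ) else 0) * D.card) := by
      intro p hp q hq
      rw [hR, Finset.mem_product, Finset.mem_range, Finset.mem_range] at hp hq
      by_cases hpq : p.1 = p.2 ∧ q.1 = q.2
      · obtain ⟨hp1, hq1⟩ := hpq
        rw [if_pos hp1, if_pos hq1, hp1, hq1, one_mul, one_mul]
        have h5 : ‖∑ d ∈ D, ee ((((p.2 : ℤ) - p.2 : ℤ) : ℝ) * α d +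
            (((q.2 : ℤ) - q.2 : ℤ) : ℝ) * β d)‖ ≤ ∑ d ∈ D, (1 : ℝ) := by
          refine (norm_sum_le _ _).trans (Finset.sum_le_sum fun d _ => ?_)
          rw [Pool.Agent.H91.PK.LSa_norm_ee]
        rw [Finset.sum_const, nsmul_eq_mul, mul_one] at h5
        linarith
      · have h5 := hE ((p.1 : ℤ) - p.2) ((q.1 : ℤ) - q.2) (by rw [abs_lt]; omega)
          (by rw [abs_lt]; omega) (by
            rw [not_and_or] at hpq
            rcases hpq with h | h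
            · left; omega
            · right; omega)
        have h6 : (0 : ℝ) ≤ (if p.1 = p.2 then (1 : ℝ) else 0) *
            ((if q.1 = q.2 then (1 : ℝ) else 0) * D.card) := by
          have : (0 : ℝ) ≤ D.card := Nat.cast_nonneg _
          split_ifs <;> simp
        linarith
    calc ‖∑ p ∈ R, ∑ q ∈ R, ∑ d ∈ D, ee ((((p.1 : ℤ) - p.2 : ℤ) : ℝ) * α d +
          (((q.1 : ℤ) - q.2 : ℤ) : ℝ) * β d)‖
        ≤ ∑ p ∈ R, ∑ q ∈ R, (E + (if p.1 = p.2 then (1 : ℝ) else 0) *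
            ((if q.1 = q.2 then (1 : ℝ) else 0) * D.card)) := by
          refine (norm_sum_le _ _).trans (Finset.sum_le_sum fun p hp => ?_)
          exact (norm_sum_le _ _).trans (Finset.sum_le_sum fun q hq => h4 p hp q hq)
      _ = (H : ℝ) ^ 2 * D.card + (H : ℝ) ^ 4 * E := by
          have hcard : (R.card : ℝ) = (H : ℝ) ^ 2 := by
            rw [hR, Finset.card_product, Finset.card_range]
            push_cast
            ring
          simp only [Finset.sum_add_distrib, Finset.sum_const, nsmul_eq_mul]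
          rw [← Finset.sum_mul_sum, ← Finset.sum_mul, diag_sum, hcard]
          ring
  have hH2 : (0 : ℝ) < (H : ℝ) ^ 2 := by positivity
  have hH4 : (0 : ℝ) < (H : ℝ) ^ 4 := by positivity
  have hfin := hlow.trans hup
  have e1 : (A.card : ℝ) * (((H : ℝ) / 2) ^ 2 * ((H : ℝ) / 2) ^ 2) =
      (A.card : ℝ) * ((H : ℝ) ^ 4 / 16) := by ring
  rw [e1] at hfin
  have e2 : 16 * ((D.card : ℝ) / (H : ℝ) ^ 2 + E) * ((H : ℝ) ^ 4 / 16) =
      (H : ℝ) ^ 2 * D.card + (H : ℝ) ^ 4 * E := by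
    field_simp
  rw [← e2] at hfin
  exact le_of_mul_le_mul_right hfin (by positivity)

end Pool.Agent.H70.LC2
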