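import Pool.Agent.H70.LC2.EE
import Pool.Agent.H70.LC2.KU

/-!
# LC2 UB: integers `d ∈ (P, 2P]` with multiples in both blocks

`exists_pair` (arithmetic): `a', b'` integers, not both `0`, `|a'|, |b'| < H`, `|a' n + b' m| < Q ≤ n ≤ m`.  `b' = 0` is impossible (`|a'| n ≥ n ≥ Q`), also `a' = 0`, and the same sign (`≥ n`).  So up to the common sign `a' = -a g`, `b' = b g`, with
`g = gcd > 0`, `a, b ≥ 1` coprime, `a < H`; `|b m - a n| < Q / g ≤ Q`.  If `b ≥ a + 1` then `b m - a n ≥ (a + 1) m - a n ≥ m ≥ Q`: contradiction.  So `b ≤ a`.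
`ub_main`.  `L = log n`, `Q = P L^6 = 6 k H L^6 ≤ n` for large `n` (`k ≤ n^(3/5)`, `H ≤ L² + 1`).  If there is no such pair then `|a' n + b' m| ≥ P L^6` for all `(a', b') ≠ 0` with `|a'|, |b'| < H`, and `|a' n + b' m| ≤ H (n + m) ≤ n^(|C|+2)`.  `he_main ε 5 (|C|+2)`
(`M = P ≥ k`, `x = P`, `y = 2P`): `‖∑_{d ∈ Ioc P (2P)} ee ((a' n + b' m) / d)‖ ≤ L^(-5) P`.  If `d ∣ x ∈ (n, n+k]`, `x = d z`: `|n/d - z| ≤ k/d ≤ k/P = 1/(6H)`.  `ker_up` with `α d = n/d`, `β d = m/d`, `D = Ioc P (2P)`: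
`card ≤ 16 (P/H² + L^(-5) P) = 96 k (1/H + H L^(-5)) ≤ 96 k (L^(-2) + 2 L^(-3)) ≤ 200 k L^(-2)` (`L² ≤ H ≤ 2 L²`).
-/

set_option autoImplicit false

open Finset
open Pool.Agent.H91.PK (ee)

namespace Pool.Agent.H70.LC2

private theorem pair_aux {n m H : ℕ} {Q : ℝ} (hQ : Q ≤ n) (hnm : n ≤ m) {A B : ℕ} (hA0 : 0 < A) (hB0 : 0 < B) (hA : A < H)
    (h : |(B : ℝ) * m - A * n| < Q) :
    ∃ a b : ℕ, 1 ≤ b ∧ b ≤ a ∧ a < H ∧ Nat.Coprime a b ∧ |(b : ℝ) * m - a * n| < Q := by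
  have hg : 0 < Nat.gcd A B := Nat.gcd_pos_of_pos_left B hA0
  set g := Nat.gcd A B with hgdef
  obtain ⟨a, ha⟩ : g ∣ A := Nat.gcd_dvd_left A B
  obtain ⟨b, hb⟩ : g ∣ B := Nat.gcd_dvd_right A B
  have hcop : Nat.Coprime a b := by
    have h1 := Nat.coprime_div_gcd_div_gcd (m := A) (n := B) hg
    rw [← hgdef] at h1
    have h2 : A / g = a := by rw [ha]; exact Nat.mul_div_cancel_left a hg
    have h3 : B / g = b := by rw [hb]; exact Nat.mul_div_cancel_left b hg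
    rwa [h2, h3] at h1
  have hb1 : 1 ≤ b := by
    rcases Nat.eq_zero_or_pos b with h0 | h0
    · rw [h0, mul_zero] at hb
      omega
    · exact h0
  have hmn : (n : ℝ) ≤ m := by exact_mod_cast hnm
  have hgr : (1 : ℝ) ≤ g := by exact_mod_cast hg
  have hlt : |(b : ℝ) * m - a * n| < Q := by
    have h1 : (B : ℝ) * m - A * n = g * ((b : ℝ) * m - a * n) := by
      rw [ha, hb]
      push_cast
      ring
    rw [h1, abs_mul, abs_of_pos (by linarith : (0 : ℝ) < g)] at h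
    have h2 : |(b : ℝ) * m - a * n| ≤ g * |(b : ℝ) * m - a * n| :=
      le_mul_of_one_le_left (abs_nonneg _) hgr
    linarith
  refine ⟨a, b, hb1, ?_, ?_, hcop, hlt⟩
  · by_contra hcon
    push Not at hcon
    have h1 : ((a : ℝ) + 1) ≤ b := by exact_mod_cast hcon
    have h2 := (abs_lt.1 hlt).2
    have h3 : ((a : ℝ) + 1) * m ≤ b * m := mul_le_mul_of_nonneg_right h1 (Nat.cast_nonneg m)
    have h4 : (a : ℝ) * n ≤ a * m := mul_le_mul_of_nonneg_left hmn (Nat.cast_nonneg a)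
    nlinarith
  · calc a ≤ g * a := Nat.le_mul_of_pos_left a hg
      _ = A := ha.symm
      _ < H := hA

theorem exists_pair {n m H : ℕ} {Q : ℝ} (hQ : Q ≤ n) (hnm : n ≤ m) {a' b' : ℤ} (h0 : a' ≠ 0 ∨ b' ≠ 0) (ha : |a'| < H) (hb : |b'| < H)
    (h : |(a' : ℝ) * n + b' * m| < Q) :
    ∃ a b : ℕ, 1 ≤ b ∧ b ≤ a ∧ a < H ∧ Nat.Coprime a b ∧ |(b : ℝ) * m - a * n| < Q := by
  have hmn : (n : ℝ) ≤ m := by exact_mod_cast hnm
  have hn0 : (0 : ℝ) ≤ n := Nat.cast_nonneg n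
  have hm0 : (0 : ℝ) ≤ m := Nat.cast_nonneg m
  have hlt := abs_lt.1 h
  rcases lt_trichotomy a' 0 with ha0 | ha0 | ha0
  · have ha1 : (a' : ℝ) ≤ -1 := by exact_mod_cast (by omega : a' ≤ -1)
    rcases lt_trichotomy b' 0 with hb0 | hb0 | hb0
    · exfalso
      have hb1 : (b' : ℝ) ≤ 0 := by exact_mod_cast hb0.le
      nlinarith [mul_le_mul_of_nonneg_right ha1 hn0, mul_nonpos_of_nonpos_of_nonneg hb1 hm0]
    · exfalso
      rw [hb0] at hlt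
      push_cast at hlt
      nlinarith [mul_le_mul_of_nonneg_right ha1 hn0]
    · obtain ⟨A, hA⟩ := Int.eq_ofNat_of_zero_le (by omega : 0 ≤ -a')
      obtain ⟨B, hB⟩ := Int.eq_ofNat_of_zero_le hb0.le
      have hA' : (a' : ℝ) = -(A : ℝ) := by
        have : a' = -(A : ℤ) := by omega
        rw [this]; push_cast; ring
      have hB' : (b' : ℝ) = (B : ℝ) := by
        have : b' = (B : ℤ) := by omega
        rw [this]; push_cast; ring
      refine pair_aux hQ hnm (A := A) (B := B) (by omega) (by omega) ?_ ?_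
      · have := abs_lt.1 ha
        omega
      · rw [hA', hB'] at h
        rwa [show (B : ℝ) * m - A * n = -(A : ℝ) * n + B * m by ring]
  · have hb1 : b' ≠ 0 := by
      rcases h0 with h0 | h0
      · exact absurd ha0 h0
      · exact h0
    exfalso
    rw [ha0] at hlt
    push_cast at hlt
    rcases lt_or_gt_of_ne hb1 with hb0 | hb0
    · have hb2 : (b' : ℝ) ≤ -1 := by exact_mod_cast (by omega : b' ≤ -1)
      nlinarith [mul_le_mul_of_nonneg_right hb2 hm0]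
    · have hb2 : (1 : ℝ) ≤ b' := by exact_mod_cast (by omega : 1 ≤ b')
      nlinarith [mul_le_mul_of_nonneg_right hb2 hm0]
  · have ha1 : (1 : ℝ) ≤ a' := by exact_mod_cast (by omega : 1 ≤ a')
    rcases lt_trichotomy b' 0 with hb0 | hb0 | hb0
    · obtain ⟨A, hA⟩ := Int.eq_ofNat_of_zero_le ha0.le
      obtain ⟨B, hB⟩ := Int.eq_ofNat_of_zero_le (by omega : 0 ≤ -b')
      have hA' : (a' : ℝ) = (A : ℝ) := by
        have : a' = (A : ℤ) := by omega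
        rw [this]; push_cast; ring
      have hB' : (b' : ℝ) = -(B : ℝ) := by
        have : b' = -(B : ℤ) := by omega
        rw [this]; push_cast; ring
      refine pair_aux hQ hnm (A := A) (B := B) (by omega) (by omega) ?_ ?_
      · have := abs_lt.1 ha
        omega
      · rw [hA', hB'] at h
        rw [show (B : ℝ) * m - A * n = -((A : ℝ) * n + -(B : ℝ) * m) by ring, abs_neg]
        exact h
    · exfalso
      rw [hb0] at hlt
      push_cast at hlt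
      nlinarith [mul_le_mul_of_nonneg_right ha1 hn0]
    · exfalso
      have hb1 : (0 : ℝ) ≤ b' := by exact_mod_cast hb0.le
      nlinarith [mul_le_mul_of_nonneg_right ha1 hn0, mul_nonneg hb1 hm0]

open Classical in
private theorem ub_fin (C L n₁ : ℝ) (n m k H P : ℕ) (hL : L = Real.log n) (hn1 : n₁ ≤ (n : ℝ)) (hn2 : (1 : ℝ) ≤ n) (hL2 : 2 ≤ L)
    (hbig : 12 * L ^ 8 ≤ (n : ℝ) ^ (2 / 5 : ℝ)) (T : ℝ) (hH : H = ⌈L ^ 2⌉₊) (hP : P = 6 * k * H) (hT1 : 1 ≤ T)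
    (hT : T ≤ k) (hk : (k : ℝ) ≤ (n : ℝ) ^ (3 / 5 : ℝ)) (hm : n + k ≤ m) (hmC : (m : ℝ) ≤ (n : ℝ) ^ C)
    (hHE : HE ((n : ℝ) ^ (|C| + 2)) (L ^ (-5 : ℝ)) (L ^ ((5 : ℝ) + 1)) T) :
    (∃ a b : ℕ, 1 ≤ b ∧ b ≤ a ∧ a < H ∧ Nat.Coprime a b ∧ |(b : ℝ) * m - a * n| < P * L ^ 6) ∨
    (((Ioc P (2 * P)).filter (fun d => (∃ x ∈ Ioc n (n + k), d ∣ x) ∧ ∃ y ∈ Ioc m (m + k), d ∣ y)).card : ℝ) ≤ 200 * k / L ^ 2 := by
  by_cases hex : ∃ a b : ℕ, 1 ≤ b ∧ b ≤ a ∧ a < H ∧ Nat.Coprime a b ∧ |(b : ℝ) * m - a * n| < P * L ^ 6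
  · exact Or.inl hex
  right
  have hL0 : 0 < L := by linarith
  have hH1 : L ^ 2 ≤ H := by rw [hH]; exact Nat.le_ceil _
  have hH2 : (H : ℝ) ≤ 2 * L ^ 2 := by
    have h1 : (H : ℝ) < L ^ 2 + 1 := by rw [hH]; exact Nat.ceil_lt_add_one (by positivity)
    nlinarith
  have hHpos : (0 : ℝ) < H := by
    have : 0 < L ^ 2 := by positivity
    linarith
  have hHn : 1 ≤ H := by
    have : 0 < H := by exact_mod_cast hHpos
    exact this
  have hk1 : (1 : ℝ) ≤ k := hT1.trans hT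
  have hPr : (P : ℝ) = 6 * k * H := by rw [hP]; push_cast; ring
  have hPpos : (0 : ℝ) < P := by rw [hPr]; positivity
  have hH1' : (1 : ℝ) ≤ H := by exact_mod_cast hHn
  have hkP : (k : ℝ) ≤ P := by
    rw [hPr]
    nlinarith [mul_nonneg (by linarith : (0 : ℝ) ≤ k) (by linarith : (0 : ℝ) ≤ (H : ℝ) - 1)]
  have hnm : n ≤ m := by omega
  have hnm' : (n : ℝ) ≤ m := by exact_mod_cast hnm
  have hn0 : (0 : ℝ) < n := by linarith
  have hsplit : (n : ℝ) ^ (3 / 5 : ℝ) * (n : ℝ) ^ (2 / 5 : ℝ) = n := by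
    rw [← Real.rpow_add hn0]
    norm_num
  have hQ : (P : ℝ) * L ^ 6 ≤ n := by
    have h1 : (P : ℝ) * L ^ 6 ≤ (n : ℝ) ^ (3 / 5 : ℝ) * (12 * L ^ 8) := by
      rw [hPr]
      have h2 : 6 * (k : ℝ) * H * L ^ 6 ≤ 6 * (n : ℝ) ^ (3 / 5 : ℝ) * (2 * L ^ 2) * L ^ 6 := by
        have h3 : (0 : ℝ) ≤ (n : ℝ) ^ (3 / 5 : ℝ) := by positivity
        gcongr
      calc _ ≤ _ := h2
        _ = (n : ℝ) ^ (3 / 5 : ℝ) * (12 * L ^ 8) := by ring
    calc _ ≤ _ := h1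
      _ ≤ (n : ℝ) ^ (3 / 5 : ℝ) * (n : ℝ) ^ (2 / 5 : ℝ) := by gcongr
      _ = n := hsplit
  have hmC' : (m : ℝ) ≤ (n : ℝ) ^ |C| := hmC.trans (Real.rpow_le_rpow_of_exponent_le hn2 (le_abs_self C))
  have hn2' : (4 : ℝ) * L ^ 2 ≤ (n : ℝ) ^ (2 : ℝ) := by
    have h1 : (4 : ℝ) * L ^ 2 ≤ 12 * L ^ 8 := by
      have h2 : (1 : ℝ) ≤ L ^ 6 := one_le_pow₀ (by linarith)
      have h3 : L ^ 2 * 1 ≤ L ^ 2 * L ^ 6 := mul_le_mul_of_nonneg_left h2 (by positivity)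
      have h4 : L ^ 2 * L ^ 6 = L ^ 8 := by ring
      have h5 : 0 ≤ L ^ 2 := by positivity
      linarith
    have h2 : (n : ℝ) ^ (2 / 5 : ℝ) ≤ (n : ℝ) ^ (2 : ℝ) := Real.rpow_le_rpow_of_exponent_le hn2 (by norm_num)
    linarith
  have key : ∀ a' b' : ℤ, |a'| < H → |b'| < H → (a' ≠ 0 ∨ b' ≠ 0) →
      ‖∑ d ∈ Ioc P (2 * P), ee (a' * ((n : ℝ) / d) + b' * ((m : ℝ) / d))‖ ≤ L ^ (-5 : ℝ) * P := by
    intro a' b' ha hb h0
    set F : ℝ := (a' : ℝ) * n + b' * m with hF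
    have hF1 : (P : ℝ) * L ^ 6 ≤ |F| := by
      by_contra hcon
      push Not at hcon
      exact hex (exists_pair hQ hnm h0 ha hb hcon)
    have hF2 : |F| ≤ (n : ℝ) ^ (|C| + 2) := by
      have ha' : |(a' : ℝ)| ≤ H := by
        rw [← Int.cast_abs]
        exact_mod_cast ha.le
      have hb' : |(b' : ℝ)| ≤ H := by
        rw [← Int.cast_abs]
        exact_mod_cast hb.le
      have h1 : |F| ≤ H * n + H * m := by
        rw [hF]
        refine (abs_add_le _ _).trans ?_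
        rw [abs_mul, abs_mul, Nat.abs_cast, Nat.abs_cast]
        gcongr
      have h2 : (H : ℝ) * n + H * m ≤ 4 * L ^ 2 * m := by
        have h3 : (H : ℝ) * n ≤ H * m := by gcongr
        have h4 : (H : ℝ) * m ≤ 2 * L ^ 2 * m := by gcongr
        linarith
      calc |F| ≤ _ := h1
        _ ≤ _ := h2
        _ ≤ (n : ℝ) ^ (2 : ℝ) * (n : ℝ) ^ |C| := by gcongr
        _ = (n : ℝ) ^ (|C| + 2) := by rw [← Real.rpow_add hn0, add_comm]
    have hF3 : (P : ℝ) * L ^ ((5 : ℝ) + 1) ≤ |F| := by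
      have h1 : L ^ ((5 : ℝ) + 1) = L ^ 6 := by
        rw [show ((5 : ℝ) + 1) = ((6 : ℕ) : ℝ) by norm_num, Real.rpow_natCast]
      rwa [h1]
    have h1 := hHE P F (hT.trans hkP) hF3 hF2 P (2 * P) le_rfl (by linarith) le_rfl
    have h2 : ⌊(P : ℝ)⌋₊ = P := Nat.floor_natCast P
    have h3 : ⌊(2 * P : ℝ)⌋₊ = 2 * P := by
      have : (2 * P : ℝ) = ((2 * P : ℕ) : ℝ) := by push_cast; ring
      rw [this, Nat.floor_natCast]
    rw [h2, h3] at h1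
    refine le_trans (le_of_eq ?_) h1
    congr 1
    refine Finset.sum_congr rfl fun d _ => ?_
    congr 1
    rw [hF]
    ring
  have hE0 : 0 ≤ L ^ (-5 : ℝ) * P := by positivity
  have h1 := ker_up (Ioc P (2 * P)) (fun d => (n : ℝ) / d) (fun d => (m : ℝ) / d) hHn hE0 key
  have hnear : ∀ (s : ℕ) (d : ℕ), d ∈ Ioc P (2 * P) → (∃ x ∈ Ioc s (s + k), d ∣ x) →
      ∃ z : ℤ, |(s : ℝ) / d - z| ≤ 1 / (6 * H) := by
    rintro s d hd ⟨x, hx, z, rfl⟩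
    rw [mem_Ioc] at hd hx
    have hdpos : (0 : ℝ) < d := by
      have : 0 < d := by omega
      exact_mod_cast this
    refine ⟨(z : ℤ), ?_⟩
    have h2 : (s : ℝ) / d - ((z : ℤ) : ℝ) = (s - d * z) / d := by
      push_cast
      field_simp
    rw [h2, abs_div, abs_of_pos hdpos, div_le_div_iff₀ hdpos (by positivity)]
    have h3 : |(s : ℝ) - d * z| ≤ k := by
      have h4 : (s : ℝ) < d * z := by exact_mod_cast hx.1
      have h5 : (d : ℝ) * z ≤ s + k := by exact_mod_cast hx.2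
      rw [abs_le]
      constructor <;> linarith
    have h6 : (P : ℝ) ≤ d := by
      have : P ≤ d := by omega
      exact_mod_cast this
    calc |(s : ℝ) - d * z| * (6 * H) ≤ k * (6 * H) := by gcongr
      _ = P := by rw [hPr]; ring
      _ ≤ 1 * d := by linarith
  have hsub : (Ioc P (2 * P)).filter (fun d => (∃ x ∈ Ioc n (n + k), d ∣ x) ∧ ∃ y ∈ Ioc m (m + k), d ∣ y) ⊆
      (Ioc P (2 * P)).filter (fun d : ℕ => (∃ z : ℤ, |(n : ℝ) / d - z| ≤ 1 / (6 * H)) ∧ ∃ z : ℤ, |(m : ℝ) / d - z| ≤ 1 / (6 * H)) := by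
    intro d hd
    rw [mem_filter] at hd ⊢
    exact ⟨hd.1, hnear n d hd.1 hd.2.1, hnear m d hd.1 hd.2.2⟩
  have h2 : (((Ioc P (2 * P)).filter (fun d => (∃ x ∈ Ioc n (n + k), d ∣ x) ∧ ∃ y ∈ Ioc m (m + k), d ∣ y)).card : ℝ) ≤
      16 * (((Ioc P (2 * P)).card : ℝ) / (H : ℝ) ^ 2 + L ^ (-5 : ℝ) * P) := by
    refine le_trans ?_ h1
    exact_mod_cast Finset.card_le_card hsub
  refine h2.trans ?_
  have hcard : ((Ioc P (2 * P)).card : ℝ) = P := by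
    rw [Nat.card_Ioc]
    have : 2 * P - P = P := by omega
    rw [this]
  have hL5 : L ^ (-5 : ℝ) = 1 / L ^ 5 := by
    rw [Real.rpow_neg hL0.le, show (5 : ℝ) = ((5 : ℕ) : ℝ) by norm_num, Real.rpow_natCast, one_div]
  rw [hcard, hL5, hPr]
  have e1 : 16 * (6 * (k : ℝ) * H / (H : ℝ) ^ 2 + 1 / L ^ 5 * (6 * k * H)) = 96 * k * (1 / H + H / L ^ 5) := by
    field_simp
    ring
  rw [e1]
  have e2 : 1 / (H : ℝ) ≤ 1 / L ^ 2 := one_div_le_one_div_of_le (by positivity) hH1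
  have e3 : (H : ℝ) / L ^ 5 ≤ 1 / L ^ 2 := by
    rw [div_le_div_iff₀ (by positivity) (by positivity)]
    have h3 : (H : ℝ) * L ^ 2 ≤ 2 * L ^ 2 * L ^ 2 := by gcongr
    have h4 : 2 * L ^ 2 * L ^ 2 ≤ L * (L ^ 2 * L ^ 2) := by
      have : 0 ≤ L ^ 2 * L ^ 2 := by positivity
      nlinarith
    calc (H : ℝ) * L ^ 2 ≤ _ := h3
      _ ≤ _ := h4
      _ = 1 * L ^ 5 := by ring
  have e4 : 1 / (H : ℝ) + H / L ^ 5 ≤ 2 / L ^ 2 := by
    have : (2 : ℝ) / L ^ 2 = 1 / L ^ 2 + 1 / L ^ 2 := by ring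
    rw [this]
    exact add_le_add e2 e3
  calc 96 * (k : ℝ) * (1 / H + H / L ^ 5) ≤ 96 * k * (2 / L ^ 2) := by gcongr
    _ = 192 * k / L ^ 2 := by ring
    _ ≤ 200 * k / L ^ 2 := by gcongr; norm_num

open Classical in
theorem ub_main (ε C : ℝ) (hε : 0 < ε) : ∃ n₀ : ℕ, ∀ n m k H P : ℕ, n₀ ≤ n → H = ⌈Real.log n ^ 2⌉₊ → P = 6 * k * H →
    Real.exp (Real.log n ^ (2 / 3 + ε)) ≤ k → (k : ℝ) ≤ (n : ℝ) ^ (3 / 5 : ℝ) → n + k ≤ m → (m : ℝ) ≤ (n : ℝ) ^ C →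
    (∃ a b : ℕ, 1 ≤ b ∧ b ≤ a ∧ a < H ∧ Nat.Coprime a b ∧ |(b : ℝ) * m - a * n| < P * Real.log n ^ 6) ∨
    (((Ioc P (2 * P)).filter (fun d => (∃ x ∈ Ioc n (n + k), d ∣ x) ∧ ∃ y ∈ Ioc m (m + k), d ∣ y)).card : ℝ) ≤ 200 * k / Real.log n ^ 2 := by
  obtain ⟨n₁, hn₁⟩ := he_main ε 5 (|C| + 2) hε (by norm_num)
  have h1 : ∀ᶠ x : ℝ in Filter.atTop, n₁ ≤ x := Filter.eventually_ge_atTop n₁
  have h2 : ∀ᶠ x : ℝ in Filter.atTop, (1 : ℝ) ≤ x := Filter.eventually_ge_atTop 1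
  have h3 : ∀ᶠ x : ℝ in Filter.atTop, 2 ≤ Real.log x := Real.tendsto_log_atTop.eventually_ge_atTop 2
  have h4 : ∀ᶠ x : ℝ in Filter.atTop, 12 * Real.log x ^ 8 ≤ x ^ (2 / 5 : ℝ) := by
    have h5 := (isLittleO_log_rpow_rpow_atTop (8 : ℝ) (by norm_num : (0 : ℝ) < 2 / 5)).bound
      (by norm_num : (0 : ℝ) < 1 / 12)
    filter_upwards [h5, h2, h3] with x hx hx1 hx2
    have h6 : Real.log x ^ (8 : ℝ) = Real.log x ^ 8 := by
      rw [show (8 : ℝ) = ((8 : ℕ) : ℝ) by norm_num, Real.rpow_natCast]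
    rw [h6, Real.norm_of_nonneg (by positivity), Real.norm_of_nonneg (by positivity)] at hx
    linarith
  obtain ⟨N₀, hN₀⟩ := Filter.eventually_atTop.1 (h1.and (h2.and (h3.and h4)))
  refine ⟨⌈N₀⌉₊, fun n m k H P hn hH hP hk hk' hm hmC => ?_⟩
  have hnr : N₀ ≤ (n : ℝ) := (Nat.le_ceil _).trans (by exact_mod_cast hn)
  obtain ⟨g1, g2, g3, g4⟩ := hN₀ n hnr
  refine ub_fin C (Real.log n) n₁ n m k H P rfl g1 g2 g3 g4 (Real.exp (Real.log n ^ (2 / 3 + ε))) hH hP ?_ hk hk' hm hmC ?_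
  · exact Real.one_le_exp (by positivity)
  · exact hn₁ n g1

end Pool.Agent.H70.LC2
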