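import Pool.Agent.H91.PK.Defs

/-!
# PROJECT LC2 (MP_765627_nt, equal lcm of two disjoint blocks): definitions

Final theorem: for every `ε > 0` there is `n₀` such that for all `n ≥ n₀`, all `k ≥ exp ((log n)^(2/3+ε))` and all `m ≥ n + k`
`lcm (m+1, ..., m+k) ≠ lcm (n+1, ..., n+k)`.  Overview of the proof: `Fin.lean`.
`ee t = exp (2 π i t)` (lemmas `Pool.Agent.H91.PK.LSa_ee_add`, `LSa_norm_ee`, `LSa_conj_ee` in `Pool/Agent/H91/PK/LSa.lean`).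
-/

set_option autoImplicit false

open Finset
open Pool.Agent.H91.PK (ee)

namespace Pool.Agent.H70.LC2

/-- every sum of `e(F/d)` over a subinterval of `(M, 2M]` is at most `δ M` -/
def EB (M F δ : ℝ) : Prop :=
  ∀ x y : ℝ, M ≤ x → x ≤ y → y ≤ 2 * M → ‖∑ d ∈ Ioc ⌊x⌋₊ ⌊y⌋₊, ee (F / d)‖ ≤ δ * M

/-- the bound `δ M` for the sums of `e(F/d)` over subintervals of `(M, 2M]`, for all lengths `M ≥ M₀` and all `M T ≤ |F| ≤ X` -/
def HE (X δ T M₀ : ℝ) : Prop := ∀ M F : ℝ, M₀ ≤ M → M * T ≤ |F| → |F| ≤ X → EB M F δ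

/-- `e(F/n)` for `P < n ≤ 2P`, and `0` otherwise -/
noncomputable def GP (P : ℕ) (F : ℝ) (n : ℕ) : ℂ := if P < n ∧ n ≤ 2 * P then ee (F / n) else 0

/-- the sum of `log p * e(F/p)` over the primes `P < p ≤ 2P` -/
noncomputable def SP (P : ℕ) (F : ℝ) : ℂ :=
  ∑ p ∈ (Ioc P (2 * P)).filter Nat.Prime, ((Real.log p : ℝ) : ℂ) * ee (F / p)

theorem EB.mono {M F δ δ' : ℝ} (h : EB M F δ) (hM : 0 ≤ M) (hδ : δ ≤ δ') : EB M F δ' :=
  fun x y hx hxy hy => (h x y hx hxy hy).trans (mul_le_mul_of_nonneg_right hδ hM)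

theorem HE.mono {X δ T M₀ M₁ : ℝ} (h : HE X δ T M₀) (hM : M₀ ≤ M₁) : HE X δ T M₁ :=
  fun M F h1 h2 h3 => h M F (hM.trans h1) h2 h3

end Pool.Agent.H70.LC2
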