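import Pool.Agent.H70.LC2.Defs
import Pool.Agent.H87T.VdcK
import Pool.Agent.H87T.IterDiff
import Pool.Agent.H91.PK.LSa

/-!
# LC2 ED: frequencies up to `M^14` (K-th derivative test)

`ed`.  Conjugation reduces to `F > 0`.  It is enough to prove for each `K ∈ {2, ..., 15}` (constants depending on `K`, take the maximum of the `C` and the minimum
of the `c`) the bound for `M^(K + 1 - 3/2) ≤ F ≤ M^(K + 1 - 1/10)`: for `F ≤ M^(29/10)` use `K = 2` (`F ≥ M^(3/2)`), and otherwise the least `K` with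
`F ≤ M^(K + 1 - 1/10)`: then `F > M^(K - 1/10) ≥ M^(K + 1 - 3/2)`.
For fixed `K`: `vdc_K K _ (19/10) (1/20) (2^(K+1)·...)` for the phase `φ n = ± 2 π F / (a + n)`, `a = ⌊x⌋₊ + 1` (`ee (F/d) = ei (2 π F / d)`), `I' = ⌊y⌋₊ - ⌊x⌋₊ ≤ M + 1`,
`I = ⌊M⌋₊ + 1` (so `M ≤ I ≤ 2M` and `I' ≤ I`).  The function `x ↦ 2 π F / x` has the `j`-th derivative `(-1)^j 2 π F j! / x^(j+1)`; by `iter_diff` (`G j x = (-1)^j 2 π F j! / x^(j+1)`,
step `m = 1`) `dif K φ n` is `(-1)^K 2 π F K! / ξ^(K+1)`-like: with the sign `(-1)^K` (replace `φ` by `-φ` for odd `K`: conjugate the sum; `dif` is linear) it is between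
`lam = 2 π F K! / (2M)^(K+1)` and `2^(K+1) lam` (the points `a + n, ..., a + n + K` are in `[M, 2M]` for `n + K < I'`).  `lam ≍ F M^(-K-1)` is between `c₀ M^(-3/2)` and
`C₀ M^(-1/10)`; for `M ≥ M₁` this is between `I^(-19/10)` and `I^(-1/20)`.  `vdc_K` gives `C I^(1-c) ≤ 2 C M^(1-c)`.  For `M < M₁` use the trivial bound `M + 1 ≤ 2M` and a large constant.
See `Pool/Agent/H87T/Block.lean` for a similar application of `vdc_K` and `iter_diff`.
-/

set_option autoImplicit false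

open Finset
open Pool.Agent.H91.PK (ee)

namespace Pool.Agent.H70.LC2

private theorem ED_dif (s : ℝ) (K : ℕ) : ∀ (φ : ℕ → ℝ) (n : ℕ),
    H87T.dif K (fun i => s * φ i) n = s * H87T.dif K φ n := by
  induction K with
  | zero => intro φ n; rfl
  | succ K ih =>
    intro φ n
    show H87T.dif K (fun n => s * φ (n + 1) - s * φ n) n =
      s * H87T.dif K (fun n => φ (n + 1) - φ n) n
    rw [← ih]
    congr 1
    funext i
    ring

private theorem ED_ei_neg (θ : ℝ) : H87T.ei (-θ) = (starRingEnd ℂ) (H87T.ei θ) := by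
  unfold H87T.ei
  rw [← Complex.exp_conj]
  congr 1
  simp

private theorem ED_norm_ei (θ : ℝ) : ‖H87T.ei θ‖ = 1 := by
  unfold H87T.ei
  exact Complex.norm_exp_ofReal_mul_I θ

private theorem ED_sgn {σ : ℝ} (hσ : σ = 1 ∨ σ = -1) (s : Finset ℕ) (φ : ℕ → ℝ) :
    ‖∑ i ∈ s, H87T.ei (σ * φ i)‖ = ‖∑ i ∈ s, H87T.ei (φ i)‖ := by
  rcases hσ with rfl | rfl
  · simp
  · have h : ∑ i ∈ s, H87T.ei (-1 * φ i) = (starRingEnd ℂ) (∑ i ∈ s, H87T.ei (φ i)) := by
      rw [map_sum]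
      refine sum_congr rfl fun i _ => ?_
      rw [neg_one_mul, ED_ei_neg]
    rw [h, RCLike.norm_conj]

private theorem ED_ee (t : ℝ) : ee t = H87T.ei (2 * Real.pi * t) := by
  unfold ee H87T.ei
  congr 1
  push_cast
  ring

/-- the derivatives of `s / x` -/
private noncomputable def ED_G (s : ℝ) (k : ℕ) (x : ℝ) : ℝ :=
  s * ((-1) ^ k * (k.factorial : ℝ) / x ^ (k + 1))

private theorem ED_deriv (s : ℝ) (k : ℕ) (x : ℝ) (hx : 0 < x) :
    HasDerivAt (ED_G s k) (ED_G s (k + 1) x) x := by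
  have h1 : HasDerivAt (fun y : ℝ => y ^ (k + 1)) (((k + 1 : ℕ) : ℝ) * x ^ k) x := by
    have := hasDerivAt_pow (k + 1) x
    simpa using this
  have h2 := (h1.fun_inv (pow_pos hx _).ne').const_mul (s * ((-1) ^ k * (k.factorial : ℝ)))
  have e1 : s * ((-1) ^ k * (k.factorial : ℝ)) *
      (-(((k + 1 : ℕ) : ℝ) * x ^ k) / (x ^ (k + 1)) ^ 2) = ED_G s (k + 1) x := by
    unfold ED_G
    rw [Nat.factorial_succ]
    have hne := hx.ne'
    push_cast
    rw [pow_succ (-1 : ℝ) k, pow_succ x (k + 1), pow_succ x k]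
    have hk : x ^ k ≠ 0 := pow_ne_zero _ hne
    generalize x ^ k = X at *
    field_simp
  rw [e1] at h2
  refine h2.congr_of_eventuallyEq (Filter.Eventually.of_forall fun y => ?_)
  show ED_G s k y = s * ((-1) ^ k * (k.factorial : ℝ)) * (y ^ (k + 1))⁻¹
  unfold ED_G
  rw [div_eq_mul_inv]
  ring

/-- the sum as a sum over `range` -/
private theorem ED_sum (F : ℝ) (p q : ℕ) :
    ∑ d ∈ Ioc p q, ee (F / d) =
      ∑ i ∈ range (q - p), H87T.ei (2 * Real.pi * F / (((p + 1 : ℕ) : ℝ) + 1 * i)) := by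
  have e : Ioc p q = Ico (p + 1) (q + 1) := by
    ext d
    simp only [mem_Ioc, mem_Ico]
    omega
  rw [e, sum_Ico_eq_sum_range]
  have e2 : q + 1 - (p + 1) = q - p := by omega
  rw [e2]
  refine sum_congr rfl fun i _ => ?_
  rw [ED_ee]
  congr 1
  push_cast
  ring

private theorem ED_triv (F : ℝ) (p q : ℕ) : ‖∑ d ∈ Ioc p q, ee (F / d)‖ ≤ ((q - p : ℕ) : ℝ) := by
  rw [ED_sum]
  refine (norm_sum_le _ _).trans ?_
  rw [sum_congr rfl fun n _ => ED_norm_ei _]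
  simp

private theorem ED_len {M x y : ℝ} (hM : 1 ≤ M) (h1 : M ≤ x) (h2 : x ≤ y) (h3 : y ≤ 2 * M) :
    ⌊y⌋₊ - ⌊x⌋₊ ≤ ⌊M⌋₊ + 1 := by
  have hx0 : 0 ≤ x := by linarith
  have hy0 : 0 ≤ y := by linarith
  have a1 := Nat.floor_le hy0
  have a2 := Nat.lt_floor_add_one x
  have a3 := Nat.lt_floor_add_one M
  have h : (⌊y⌋₊ : ℝ) < ((⌊x⌋₊ + ⌊M⌋₊ + 2 : ℕ) : ℝ) := by
    push_cast
    linarith
  have h' : ⌊y⌋₊ < ⌊x⌋₊ + ⌊M⌋₊ + 2 := by exact_mod_cast h
  omega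

/-- the bound for one order `K` of differences -/
private theorem ED_step (K : ℕ) (hK : 2 ≤ K) :
    ∃ C c M₀ : ℝ, 0 < C ∧ 0 < c ∧ c ≤ 1 ∧ 1 ≤ M₀ ∧ ∀ M F : ℝ, M₀ ≤ M →
      M ^ ((K : ℝ) - 1 / 2) ≤ F → F ≤ M ^ ((K : ℝ) + 9 / 10) → EB M F (C * M ^ (-c)) := by
  obtain ⟨C, c, hC, hc, hv⟩ := H87T.vdc_K K hK (19 / 10) (1 / 20) (2 ^ (K + 1)) (by norm_num)
    (by norm_num) (one_le_pow₀ (by norm_num))
  have hpi := Real.pi_pos
  have hf : (0 : ℝ) < (K.factorial : ℝ) := by exact_mod_cast Nat.factorial_pos K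
  obtain ⟨c₀, hc₀⟩ : ∃ c₀ : ℝ, c₀ = 2 * Real.pi * K.factorial / 2 ^ (K + 1) := ⟨_, rfl⟩
  have hc0 : 0 < c₀ := by rw [hc₀]; positivity
  obtain ⟨B, hB⟩ : ∃ B : ℝ, B = max (1 / c₀) (max (2 * c₀) 1) := ⟨_, rfl⟩
  have hB1 : 1 ≤ B := by
    rw [hB]
    exact (le_max_right _ _).trans (le_max_right _ _)
  have hB2 : 1 / c₀ ≤ B := by
    rw [hB]
    exact le_max_left _ _
  have hB3 : 2 * c₀ ≤ B := by
    rw [hB]
    exact (le_max_left _ _).trans (le_max_right _ _)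
  refine ⟨2 * C, min c 1, B ^ 20, by positivity, lt_min hc one_pos, min_le_right _ _,
    one_le_pow₀ hB1, ?_⟩
  intro M F hM hF1 hF2 x y hx hxy hy
  have hM1 : 1 ≤ M := (one_le_pow₀ hB1).trans hM
  have hM0 : 0 < M := by linarith
  have hF0 : 0 < F := (Real.rpow_pos_of_pos hM0 _).trans_le hF1
  have hx0 : 0 ≤ x := by linarith
  have hy0 : 0 ≤ y := by linarith
  have hr : B ≤ M ^ (1 / 20 : ℝ) := by
    have h1 : B = (B ^ 20) ^ (1 / 20 : ℝ) := by
      rw [← Real.rpow_natCast, ← Real.rpow_mul (by linarith)]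
      norm_num
    rw [h1]
    exact Real.rpow_le_rpow (by positivity) hM (by norm_num)
  -- the length
  obtain ⟨I, hI⟩ : ∃ I : ℕ, I = ⌊M⌋₊ + 1 := ⟨_, rfl⟩
  have hI1 : 1 ≤ I := by omega
  have hIM : M ≤ I := by
    rw [hI]
    push_cast
    exact (Nat.lt_floor_add_one M).le
  have hI2M : (I : ℝ) ≤ 2 * M := by
    rw [hI]
    push_cast
    have := Nat.floor_le hM0.le
    linarith
  have hI0 : (0 : ℝ) < I := by linarith
  have hI' : ⌊y⌋₊ - ⌊x⌋₊ ≤ I := by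
    rw [hI]
    exact ED_len hM1 hx hxy hy
  -- the size of the differences
  obtain ⟨lam, hlam⟩ : ∃ lam : ℝ, lam = 2 * Real.pi * F * K.factorial / (2 * M) ^ (K + 1) :=
    ⟨_, rfl⟩
  have hlam' : lam = c₀ * (F / M ^ (K + 1)) := by
    rw [hlam, hc₀, mul_pow]
    have : M ^ (K + 1) ≠ 0 := (pow_pos hM0 _).ne'
    field_simp
  have hMK : M ^ (K + 1) = M ^ ((K : ℝ) + 1) := by
    rw [← Real.rpow_natCast]
    push_cast
    rfl
  have hz1 : M ^ (-(3 / 2) : ℝ) ≤ F / M ^ (K + 1) := by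
    rw [hMK, le_div_iff₀ (Real.rpow_pos_of_pos hM0 _), ← Real.rpow_add hM0]
    refine le_trans (le_of_eq ?_) hF1
    congr 1
    ring
  have hz2 : F / M ^ (K + 1) ≤ M ^ (-(1 / 10) : ℝ) := by
    rw [hMK, div_le_iff₀ (Real.rpow_pos_of_pos hM0 _), ← Real.rpow_add hM0]
    refine le_trans hF2 (le_of_eq ?_)
    congr 1
    ring
  have hl1 : (I : ℝ) ^ (-(19 / 10) : ℝ) ≤ lam := by
    have h1 : (I : ℝ) ^ (-(19 / 10) : ℝ) ≤ M ^ (-(19 / 10) : ℝ) :=
      Real.rpow_le_rpow_of_nonpos hM0 hIM (by norm_num)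
    have h2 : M ^ (-(19 / 10) : ℝ) * M ^ (2 / 5 : ℝ) = M ^ (-(3 / 2) : ℝ) := by
      rw [← Real.rpow_add hM0]
      norm_num
    have h3 : 1 / c₀ ≤ M ^ (2 / 5 : ℝ) := by
      refine hB2.trans (hr.trans ?_)
      exact Real.rpow_le_rpow_of_exponent_le hM1 (by norm_num)
    have h4 : 1 ≤ c₀ * M ^ (2 / 5 : ℝ) := by
      rw [div_le_iff₀ hc0] at h3
      linarith
    have h5 : 0 ≤ M ^ (-(19 / 10) : ℝ) := Real.rpow_nonneg hM0.le _
    calc (I : ℝ) ^ (-(19 / 10) : ℝ) ≤ M ^ (-(19 / 10) : ℝ) := h1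
      _ ≤ M ^ (-(19 / 10) : ℝ) * (c₀ * M ^ (2 / 5 : ℝ)) := le_mul_of_one_le_right h5 h4
      _ = c₀ * M ^ (-(3 / 2) : ℝ) := by rw [← h2]; ring
      _ ≤ c₀ * (F / M ^ (K + 1)) := mul_le_mul_of_nonneg_left hz1 hc0.le
      _ = lam := hlam'.symm
  have hl2 : lam ≤ (I : ℝ) ^ (-(1 / 20) : ℝ) := by
    have h1 : (2 * M) ^ (-(1 / 20) : ℝ) ≤ (I : ℝ) ^ (-(1 / 20) : ℝ) :=
      Real.rpow_le_rpow_of_nonpos hI0 hI2M (by norm_num)
    have h2 : (2 * M) ^ (-(1 / 20) : ℝ) = 2 ^ (-(1 / 20) : ℝ) * M ^ (-(1 / 20) : ℝ) :=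
      Real.mul_rpow (by norm_num) hM0.le
    have h3 : (1 / 2 : ℝ) ≤ 2 ^ (-(1 / 20) : ℝ) := by
      have : (2 : ℝ) ^ (-1 : ℝ) ≤ 2 ^ (-(1 / 20) : ℝ) :=
        Real.rpow_le_rpow_of_exponent_le (by norm_num) (by norm_num)
      rw [Real.rpow_neg_one] at this
      linarith
    have h4 : M ^ (-(1 / 10) : ℝ) * M ^ (1 / 20 : ℝ) = M ^ (-(1 / 20) : ℝ) := by
      rw [← Real.rpow_add hM0]
      norm_num
    have h5 : 2 * c₀ ≤ M ^ (1 / 20 : ℝ) := hB3.trans hr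
    have h6 : 0 ≤ M ^ (-(1 / 10) : ℝ) := Real.rpow_nonneg hM0.le _
    have h7 : 0 ≤ M ^ (-(1 / 20) : ℝ) := Real.rpow_nonneg hM0.le _
    calc lam = c₀ * (F / M ^ (K + 1)) := hlam'
      _ ≤ c₀ * M ^ (-(1 / 10) : ℝ) := mul_le_mul_of_nonneg_left hz2 hc0.le
      _ = 1 / 2 * (M ^ (-(1 / 10) : ℝ) * (2 * c₀)) := by ring
      _ ≤ 1 / 2 * (M ^ (-(1 / 10) : ℝ) * M ^ (1 / 20 : ℝ)) := by
          refine mul_le_mul_of_nonneg_left ?_ (by norm_num)
          exact mul_le_mul_of_nonneg_left h5 h6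
      _ = 1 / 2 * M ^ (-(1 / 20) : ℝ) := by rw [h4]
      _ ≤ 2 ^ (-(1 / 20) : ℝ) * M ^ (-(1 / 20) : ℝ) := mul_le_mul_of_nonneg_right h3 h7
      _ ≤ (I : ℝ) ^ (-(1 / 20) : ℝ) := by rw [← h2]; exact h1
  have hs1 : ((-1 : ℝ) ^ K) = 1 ∨ ((-1 : ℝ) ^ K) = -1 := neg_one_pow_eq_or ℝ K
  have hs2 : ((-1 : ℝ) ^ K) * ((-1) ^ K) = 1 := by
    rw [← mul_pow]
    simp
  obtain ⟨a, ha⟩ : ∃ a : ℕ, a = ⌊x⌋₊ + 1 := ⟨_, rfl⟩
  have ha0 : (0 : ℝ) < a := by
    rw [ha]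
    positivity
  have haM : M ≤ a := by
    rw [ha]
    push_cast
    exact hx.trans (Nat.lt_floor_add_one x).le
  have hmain := hv I (⌊y⌋₊ - ⌊x⌋₊) lam
    (fun i => (-1) ^ K * (2 * Real.pi * F / ((a : ℝ) + 1 * i))) hI1 hI' hl1 hl2 (by
    intro n hn
    have hfun : (fun i : ℕ => (-1) ^ K * (2 * Real.pi * F / ((a : ℝ) + 1 * i))) =
        fun i : ℕ => ED_G ((-1) ^ K * (2 * Real.pi * F)) 0 ((a : ℝ) + 1 * i) := by
      funext i
      unfold ED_G
      simp only [pow_zero, Nat.factorial_zero, Nat.cast_one, one_mul, zero_add, pow_one]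
      ring
    rw [hfun]
    have key := H87T.iter_diff K (ED_G ((-1) ^ K * (2 * Real.pi * F))) a 1 ha0 one_pos
      (fun k _ x hx => ED_deriv _ k x hx) n lam (2 ^ (K + 1) * lam) (by
      intro u hu1 hu2
      rw [one_mul] at hu1 hu2
      have hu0 : M ≤ u := by
        have : (0 : ℝ) ≤ (n : ℝ) := Nat.cast_nonneg _
        linarith
      have huy : u ≤ 2 * M := by
        have h1 : a + n + K ≤ ⌊y⌋₊ := by omega
        have h2 : ((a + n + K : ℕ) : ℝ) ≤ ⌊y⌋₊ := by exact_mod_cast h1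
        have h3 := Nat.floor_le hy0
        push_cast at h2
        linarith
      have hup : 0 < u := by linarith
      have e1 : ED_G ((-1) ^ K * (2 * Real.pi * F)) K u =
          2 * Real.pi * F * K.factorial / u ^ (K + 1) := by
        unfold ED_G
        calc (-1) ^ K * (2 * Real.pi * F) * ((-1) ^ K * (K.factorial : ℝ) / u ^ (K + 1))
            = ((-1) ^ K * (-1) ^ K) * (2 * Real.pi * F * K.factorial / u ^ (K + 1)) := by ring
          _ = _ := by rw [hs2, one_mul]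
      rw [e1]
      have hnum : 0 ≤ 2 * Real.pi * F * K.factorial := by positivity
      constructor
      · rw [hlam]
        exact div_le_div_of_nonneg_left hnum (pow_pos hup _) (pow_le_pow_left₀ hup.le huy _)
      · have e2 : 2 ^ (K + 1) * lam = 2 * Real.pi * F * K.factorial / M ^ (K + 1) := by
          rw [hlam, mul_pow]
          have : M ^ (K + 1) ≠ 0 := (pow_pos hM0 _).ne'
          field_simp
        rw [e2]
        exact div_le_div_of_nonneg_left hnum (pow_pos hM0 _) (pow_le_pow_left₀ hM0.le hu0 _))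
    rw [one_pow, one_mul, one_mul] at key
    exact key)
  rw [ED_sgn hs1] at hmain
  rw [ED_sum, ← ha]
  refine hmain.trans ?_
  have hIr : (1 : ℝ) ≤ I := by exact_mod_cast hI1
  have h1 : (I : ℝ) ^ (1 - c) ≤ (I : ℝ) ^ (1 - min c 1) :=
    Real.rpow_le_rpow_of_exponent_le hIr (by linarith [min_le_left c 1])
  have h2 : (I : ℝ) ^ (1 - min c 1) ≤ (2 * M) ^ (1 - min c 1) :=
    Real.rpow_le_rpow hI0.le hI2M (by linarith [min_le_right c 1])
  have h3 : (2 * M) ^ (1 - min c 1) = 2 ^ (1 - min c 1) * M ^ (1 - min c 1) :=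
    Real.mul_rpow (by norm_num) hM0.le
  have h4 : (2 : ℝ) ^ (1 - min c 1) ≤ 2 := by
    have : (2 : ℝ) ^ (1 - min c 1) ≤ 2 ^ (1 : ℝ) :=
      Real.rpow_le_rpow_of_exponent_le (by norm_num) (by linarith [lt_min hc one_pos])
    rwa [Real.rpow_one] at this
  have h5 : M ^ (1 - min c 1) = M ^ (-(min c 1)) * M := by
    rw [show (1 - min c 1) = -(min c 1) + 1 by ring, Real.rpow_add hM0, Real.rpow_one]
  have h6 : 0 ≤ M ^ (1 - min c 1) := Real.rpow_nonneg hM0.le _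
  calc C * (I : ℝ) ^ (1 - c) ≤ C * (2 * M ^ (1 - min c 1)) := by
        refine mul_le_mul_of_nonneg_left ?_ hC.le
        refine h1.trans (h2.trans ?_)
        rw [h3]
        exact mul_le_mul_of_nonneg_right h4 h6
    _ = 2 * C * M ^ (-(min c 1)) * M := by rw [h5]; ring

/-- finitely many orders at once -/
private theorem ED_steps (N : ℕ) :
    ∃ C c M₀ : ℝ, 0 < C ∧ 0 < c ∧ c ≤ 1 ∧ 1 ≤ M₀ ∧ ∀ K : ℕ, 2 ≤ K → K ≤ N → ∀ M F : ℝ, M₀ ≤ M →
      M ^ ((K : ℝ) - 1 / 2) ≤ F → F ≤ M ^ ((K : ℝ) + 9 / 10) → EB M F (C * M ^ (-c)) := by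
  induction N with
  | zero =>
    refine ⟨1, 1, 1, one_pos, one_pos, le_rfl, le_rfl, fun K h1 h2 => ?_⟩
    omega
  | succ N ih =>
    obtain ⟨C1, d1, J1, hC1, hd1, hd1', hJ1, h1⟩ := ih
    by_cases hN : 2 ≤ N + 1
    · obtain ⟨C2, d2, J2, hC2, hd2, hd2', hJ2, h2⟩ := ED_step (N + 1) hN
      refine ⟨max C1 C2, min d1 d2, max J1 J2, lt_max_of_lt_left hC1, lt_min hd1 hd2,
        (min_le_left _ _).trans hd1', hJ1.trans (le_max_left _ _), ?_⟩
      intro K hK1 hK2 M F hM hlo hhi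
      have hM1 : 1 ≤ M := (hJ1.trans (le_max_left _ _)).trans hM
      have hM0 : 0 < M := by linarith
      rcases Nat.lt_or_ge K (N + 1) with hK3 | hK3
      · refine (h1 K hK1 (by omega) M F ((le_max_left _ _).trans hM) hlo hhi).mono hM0.le ?_
        exact mul_le_mul (le_max_left _ _)
          (Real.rpow_le_rpow_of_exponent_le hM1 (by linarith [min_le_left d1 d2]))
          (Real.rpow_nonneg (by linarith) _) (hC1.le.trans (le_max_left _ _))
      · have hK4 : K = N + 1 := by omega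
        subst hK4
        refine (h2 M F ((le_max_right _ _).trans hM) hlo hhi).mono hM0.le ?_
        exact mul_le_mul (le_max_right _ _)
          (Real.rpow_le_rpow_of_exponent_le hM1 (by linarith [min_le_right d1 d2]))
          (Real.rpow_nonneg (by linarith) _) (hC1.le.trans (le_max_left _ _))
    · refine ⟨C1, d1, J1, hC1, hd1, hd1', hJ1, fun K h3 h4 => ?_⟩
      omega

private theorem ED_neg {M F δ : ℝ} (h : EB M (-F) δ) : EB M F δ := by
  intro x y h1 h2 h3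
  refine le_trans (le_of_eq ?_) (h x y h1 h2 h3)
  have e : ∑ d ∈ Ioc ⌊x⌋₊ ⌊y⌋₊, ee (-F / d) =
      (starRingEnd ℂ) (∑ d ∈ Ioc ⌊x⌋₊ ⌊y⌋₊, ee (F / d)) := by
    rw [map_sum]
    refine sum_congr rfl fun d _ => ?_
    rw [ED_ee, ED_ee, ← ED_ei_neg]
    congr 1
    ring
  rw [e, RCLike.norm_conj]

theorem ed : ∃ C c : ℝ, 0 < C ∧ 0 < c ∧ ∀ M F : ℝ, 1 ≤ M → M ^ (3 / 2 : ℝ) ≤ |F| → |F| ≤ M ^ (14 : ℝ) → EB M F (C * M ^ (-c)) := by
  obtain ⟨C, c, M₀, hC, hc, hc1, hM₀, hmain⟩ := ED_steps 14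
  refine ⟨C + 2 * M₀, c, by positivity, hc, ?_⟩
  -- it is enough to treat `F ≥ 0`
  have pos : ∀ M F : ℝ, 1 ≤ M → M ^ (3 / 2 : ℝ) ≤ F → F ≤ M ^ (14 : ℝ) →
      EB M F ((C + 2 * M₀) * M ^ (-c)) := by
    intro M F hM hF1 hF2
    have hM0 : 0 < M := by linarith
    have hr0 : 0 ≤ M ^ (-c) := Real.rpow_nonneg hM0.le _
    rcases lt_or_ge M M₀ with hsm | hlg
    · intro x y hx hxy hy
      refine (ED_triv F _ _).trans ?_
      have h1 := ED_len hM hx hxy hy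
      have h2 : ((⌊y⌋₊ - ⌊x⌋₊ : ℕ) : ℝ) ≤ 2 * M := by
        have h3 : ((⌊y⌋₊ - ⌊x⌋₊ : ℕ) : ℝ) ≤ ((⌊M⌋₊ + 1 : ℕ) : ℝ) := by exact_mod_cast h1
        have h4 := Nat.floor_le hM0.le
        push_cast at h3
        linarith
      refine h2.trans ?_
      refine mul_le_mul_of_nonneg_right ?_ hM0.le
      have h3 : M ^ c ≤ M₀ := by
        have : M ^ c ≤ M ^ (1 : ℝ) := Real.rpow_le_rpow_of_exponent_le hM hc1
        rw [Real.rpow_one] at this
        linarith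
      have h4 : M ^ c * M ^ (-c) = 1 := by
        rw [← Real.rpow_add hM0]
        simp
      have h5 : 1 ≤ M₀ * M ^ (-c) := by
        rw [← h4]
        exact mul_le_mul_of_nonneg_right h3 hr0
      have h6 : 0 ≤ C * M ^ (-c) := mul_nonneg hC.le hr0
      nlinarith
    · -- the least order
      have hex : ∃ K : ℕ, 2 ≤ K ∧ K ≤ 14 ∧ M ^ ((K : ℝ) - 1 / 2) ≤ F ∧
          F ≤ M ^ ((K : ℝ) + 9 / 10) := by
        have hP : ∃ K : ℕ, 2 ≤ K ∧ F ≤ M ^ ((K : ℝ) + 9 / 10) := by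
          refine ⟨14, by norm_num, hF2.trans ?_⟩
          exact Real.rpow_le_rpow_of_exponent_le hM (by norm_num)
        classical
        have h1 := Nat.find_spec hP
        have h2 : Nat.find hP ≤ 14 := Nat.find_min' hP ⟨by norm_num, hF2.trans
          (Real.rpow_le_rpow_of_exponent_le hM (by norm_num))⟩
        refine ⟨Nat.find hP, h1.1, h2, ?_, h1.2⟩
        rcases Nat.lt_or_ge 2 (Nat.find hP) with h3 | h3
        · have h4 := Nat.find_min hP (m := Nat.find hP - 1) (by omega)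
          have h5 : ¬ F ≤ M ^ (((Nat.find hP - 1 : ℕ) : ℝ) + 9 / 10) := fun h => h4 ⟨by omega, h⟩
          rw [not_le] at h5
          refine le_trans ?_ h5.le
          refine Real.rpow_le_rpow_of_exponent_le hM ?_
          rw [Nat.cast_sub (by omega)]
          push_cast
          linarith
        · have h4 : Nat.find hP = 2 := le_antisymm h3 h1.1
          rw [h4]
          refine le_trans (le_of_eq ?_) hF1
          norm_num
      obtain ⟨K, hK1, hK2, hK3, hK4⟩ := hex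
      refine (hmain K hK1 hK2 M F hlg hK3 hK4).mono hM0.le ?_
      refine mul_le_mul_of_nonneg_right ?_ hr0
      linarith
  intro M F hM h1 h2
  rcases le_or_gt 0 F with hF | hF
  · rw [abs_of_nonneg hF] at h1 h2
    exact pos M F hM h1 h2
  · rw [abs_of_neg hF] at h1 h2
    exact ED_neg (pos M (-F) hM h1 h2)

end Pool.Agent.H70.LC2
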