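import Pool.Agent.H97.VK.Itr
import Pool.Agent.H97.VK.Bil
import Pool.Agent.H97.VK.GGB

/-!
# LC2 EV: Vinogradov's bound for `∑ e(F / n)`, `N^(4κ-3) ≤ |F| ≤ N^(4κ+1)` (helper31)

`EV_sft`: as `Pool.Agent.H97.VK.sft`, for the phase `F / n` in place of `t log n`:
`F / (n + z) = F / n + ∑ (F / n) (-z / n)^i + R`, `|R| ≤ |F| / n (z / n)^(k+1)`.
`ev`: the proof of `Pool.Agent.H97.VK.vexp` with `t = i F / n` in the `i`-th coefficient: `|α| = |F / n| / n^i = |t| / (i n^i)`,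
`N^(3κ) ≤ N^(4κ-4) ≤ |F| / N ≤ |t|` and `|α| ≤ N^(4κ+1) / N^(5κ+2) ≤ N^(-κ)` for `5κ < i ≤ 6κ`.
-/

set_option autoImplicit false

namespace Pool.Agent.H70.LC2

open Finset
open Pool.Agent.H91.PK (ee)
open Pool.Agent.H97.VK

private theorem EV_lip (u v : ℝ) : ‖ee u - ee v‖ ≤ 2 * Real.pi * |u - v| := by
  have h1 : ee u = ee v * ee (u - v) := by
    rw [← Pool.Agent.H91.PK.LSa_ee_add]
    congr 1
    ring
  have h2 : ee u - ee v = ee v * (ee (u - v) - 1) := by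
    rw [h1]
    ring
  rw [h2, norm_mul, Pool.Agent.H91.PK.LSa_norm_ee, one_mul]
  have h3 : ee (u - v) = Complex.exp (Complex.I * ((2 * Real.pi * (u - v) : ℝ) : ℂ)) := by
    unfold ee
    congr 1
    push_cast
    ring
  rw [h3]
  refine Real.norm_exp_I_mul_ofReal_sub_one_le.trans ?_
  rw [Real.norm_eq_abs, abs_mul, abs_of_nonneg (by positivity : (0 : ℝ) ≤ 2 * Real.pi)]

private theorem EV_tel (F : ℕ → ℂ) (a b : ℕ) (h : a ≤ b) :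
    ∑ n ∈ Ioc a b, (F (n + 1) - F n) = F (b + 1) - F (a + 1) := by
  induction b, h using Nat.le_induction with
  | base => simp
  | succ b hb ih =>
    rw [Finset.sum_Ioc_succ_top (by omega), ih]
    ring

private theorem EV_shift (f : ℕ → ℂ) (hf : ∀ n, ‖f n‖ ≤ 1) (a b z : ℕ) :
    ‖∑ n ∈ Ioc a b, f n - ∑ n ∈ Ioc a b, f (n + z)‖ ≤ 2 * z := by
  rcases le_total b a with h | h
  · rw [Ioc_eq_empty (by omega), sum_empty, sum_empty, sub_zero, norm_zero]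
    positivity
  induction z with
  | zero => simp
  | succ z ih =>
    have h1 : ∑ n ∈ Ioc a b, f (n + (z + 1)) - ∑ n ∈ Ioc a b, f (n + z) =
        f (b + 1 + z) - f (a + 1 + z) := by
      rw [← sum_sub_distrib, ← EV_tel (fun n => f (n + z)) a b h]
      refine sum_congr rfl fun n _ => ?_
      rw [show n + (z + 1) = n + 1 + z by ring]
    have h2 : ∑ n ∈ Ioc a b, f n - ∑ n ∈ Ioc a b, f (n + (z + 1)) =
        (∑ n ∈ Ioc a b, f n - ∑ n ∈ Ioc a b, f (n + z)) -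
          (∑ n ∈ Ioc a b, f (n + (z + 1)) - ∑ n ∈ Ioc a b, f (n + z)) := by ring
    rw [h2, h1]
    calc _ ≤ 2 * (z : ℝ) + (1 + 1) := by
          refine (norm_sub_le _ _).trans (add_le_add ih ?_)
          exact (norm_sub_le _ _).trans (add_le_add (hf _) (hf _))
      _ = 2 * ((z + 1 : ℕ) : ℝ) := by push_cast; ring

private theorem EV_sft_gen (k X N a b : ℕ) (f : ℕ → ℂ) (α : ℕ → Fin k → ℝ) (D : ℝ) (hX : 1 ≤ X) (hab : b - a ≤ N)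
    (hf1 : ∀ n, ‖f n‖ ≤ 1) (hD0 : 0 ≤ D)
    (hpt : ∀ n ∈ Ioc a b, ∀ z : ℕ, z ≤ X ^ 2 →
      ‖f (n + z) - f n * ee (∑ j : Fin k, α n j * (z : ℝ) ^ ((j : ℕ) + 1))‖ ≤ D) :
    ‖∑ n ∈ Ioc a b, f n‖ ≤ (1 / (X : ℝ) ^ 2) * ∑ n ∈ Ioc a b, ‖bil k X (α n)‖ + 2 * (X : ℝ) ^ 2 + N * D := by
  set S := ∑ n ∈ Ioc a b, f n with hS
  have hX0 : (0 : ℝ) < (X : ℝ) := by exact_mod_cast hX
  have hX2 : (0 : ℝ) < (X : ℝ) ^ 2 := by positivity
  have huv : ∀ u ∈ Icc 1 X, ∀ v ∈ Icc 1 X, u * v ≤ X ^ 2 := by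
    intro u hu v hv
    rw [mem_Icc] at hu hv
    calc u * v ≤ X * X := Nat.mul_le_mul hu.2 hv.2
      _ = X ^ 2 := by ring
  -- the shifted sums
  have h1 : ‖∑ u ∈ Icc 1 X, ∑ v ∈ Icc 1 X, (S - ∑ n ∈ Ioc a b, f (n + u * v))‖ ≤
      (X : ℝ) ^ 2 * (2 * (X : ℝ) ^ 2) := by
    calc _ ≤ ∑ u ∈ Icc 1 X, ∑ v ∈ Icc 1 X, (2 * (X : ℝ) ^ 2) := by
          refine (norm_sum_le _ _).trans (sum_le_sum fun u hu => ?_)
          refine (norm_sum_le _ _).trans (sum_le_sum fun v hv => ?_)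
          refine (EV_shift f hf1 a b (u * v)).trans ?_
          have := huv u hu v hv
          have h2 : ((u * v : ℕ) : ℝ) ≤ (X : ℝ) ^ 2 := by exact_mod_cast this
          linarith only [h2]
      _ = _ := by
          rw [sum_const, sum_const, Nat.card_Icc, nsmul_eq_mul, nsmul_eq_mul,
            Nat.add_sub_cancel]
          ring
  have h2 : ∑ u ∈ Icc 1 X, ∑ v ∈ Icc 1 X, ∑ n ∈ Ioc a b, f (n + u * v) =
      ∑ n ∈ Ioc a b, ∑ u ∈ Icc 1 X, ∑ v ∈ Icc 1 X, f (n + u * v) := by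
    rw [sum_comm' (s := Ioc a b) (t := fun _ => Icc 1 X) (t' := Icc 1 X)
      (s' := fun _ => Ioc a b) (by intro x y; tauto)]
    refine sum_congr rfl fun u _ => ?_
    rw [sum_comm]
  have h3 : ∀ n ∈ Ioc a b, ‖∑ u ∈ Icc 1 X, ∑ v ∈ Icc 1 X, f (n + u * v)‖ ≤
      ‖bil k X (α n)‖ + (X : ℝ) ^ 2 * D := by
    intro n hn
    have h4 : ∑ u ∈ Icc 1 X, ∑ v ∈ Icc 1 X, f (n + u * v) =
        f n * bil k X (α n) +
        ∑ u ∈ Icc 1 X, ∑ v ∈ Icc 1 X, (f (n + u * v) -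
          f n * ee (∑ j : Fin k, α n j * ((u : ℝ) * v) ^ ((j : ℕ) + 1))) := by
      unfold bil
      simp_rw [sum_sub_distrib, mul_sum]
      ring
    rw [h4]
    refine (norm_add_le _ _).trans (add_le_add ?_ ?_)
    · rw [norm_mul]
      calc ‖f n‖ * ‖bil k X (α n)‖ ≤ 1 * ‖bil k X (α n)‖ :=
            mul_le_mul_of_nonneg_right (hf1 n) (norm_nonneg _)
        _ = _ := one_mul _
    · calc _ ≤ ∑ u ∈ Icc 1 X, ∑ v ∈ Icc 1 X, D := by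
            refine (norm_sum_le _ _).trans (sum_le_sum fun u hu => ?_)
            refine (norm_sum_le _ _).trans (sum_le_sum fun v hv => ?_)
            have h5 := hpt n hn (u * v) (huv u hu v hv)
            rw [Nat.cast_mul u v] at h5
            exact h5
        _ = _ := by
            rw [sum_const, sum_const, Nat.card_Icc, nsmul_eq_mul, nsmul_eq_mul,
              Nat.add_sub_cancel]
            ring
  have h4 : (X : ℂ) ^ 2 * S = ∑ u ∈ Icc 1 X, ∑ v ∈ Icc 1 X,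
      (S - ∑ n ∈ Ioc a b, f (n + u * v)) +
      ∑ n ∈ Ioc a b, ∑ u ∈ Icc 1 X, ∑ v ∈ Icc 1 X, f (n + u * v) := by
    rw [← h2]
    simp_rw [sum_sub_distrib]
    rw [sub_add_cancel, sum_const, sum_const, Nat.card_Icc, nsmul_eq_mul, nsmul_eq_mul,
      Nat.add_sub_cancel]
    ring
  have h5 : ‖∑ n ∈ Ioc a b, ∑ u ∈ Icc 1 X, ∑ v ∈ Icc 1 X, f (n + u * v)‖ ≤
      ∑ n ∈ Ioc a b, ‖bil k X (α n)‖ + N * ((X : ℝ) ^ 2 * D) := by
    refine (norm_sum_le _ _).trans ((sum_le_sum h3).trans ?_)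
    rw [sum_add_distrib, sum_const, Nat.card_Ioc, nsmul_eq_mul]
    have h6 : ((b - a : ℕ) : ℝ) ≤ (N : ℝ) := by exact_mod_cast hab
    have h7 : ((b - a : ℕ) : ℝ) * ((X : ℝ) ^ 2 * D) ≤ (N : ℝ) * ((X : ℝ) ^ 2 * D) :=
      mul_le_mul_of_nonneg_right h6 (by positivity)
    linarith only [h7]
  have h6 : (X : ℝ) ^ 2 * ‖S‖ ≤ (X : ℝ) ^ 2 * (2 * (X : ℝ) ^ 2) +
      (∑ n ∈ Ioc a b, ‖bil k X (α n)‖ + N * ((X : ℝ) ^ 2 * D)) := by
    have h7 : ‖(X : ℂ) ^ 2 * S‖ = (X : ℝ) ^ 2 * ‖S‖ := by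
      rw [norm_mul, norm_pow, Complex.norm_natCast]
    rw [← h7, h4]
    exact (norm_add_le _ _).trans (add_le_add h1 h5)
  have h7 : ‖S‖ = (1 / (X : ℝ) ^ 2) * ((X : ℝ) ^ 2 * ‖S‖) := by
    field_simp
  rw [h7]
  calc (1 / (X : ℝ) ^ 2) * ((X : ℝ) ^ 2 * ‖S‖)
      ≤ (1 / (X : ℝ) ^ 2) * ((X : ℝ) ^ 2 * (2 * (X : ℝ) ^ 2) +
        (∑ n ∈ Ioc a b, ‖bil k X (α n)‖ + N * ((X : ℝ) ^ 2 * D))) :=
        mul_le_mul_of_nonneg_left h6 (by positivity)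
    _ = _ := by
        field_simp
        ring

/-- the Taylor coefficients of `F / n` -/
noncomputable def EV_tay (k : ℕ) (F : ℝ) (n : ℕ) (j : Fin k) : ℝ := F / n * (-1 / (n : ℝ)) ^ ((j : ℕ) + 1)

private theorem EV_geo (k : ℕ) (y z q : ℝ) (hy : 0 < y) (hz : 0 ≤ z) (hq : z / y ≤ q) :
    |1 / (y + z) - 1 / y - 1 / y * ∑ i ∈ range k, (-z / y) ^ (i + 1)| ≤ 1 / y * q ^ (k + 1) := by
  have hx0 : 0 ≤ z / y := by positivity
  have h1 : (∑ i ∈ range (k + 1), (-z / y) ^ i) * ((-z / y) - 1) = (-z / y) ^ (k + 1) - 1 := geom_sum_mul _ _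
  rw [sum_range_succ'] at h1
  have h2 : 1 / (y + z) - 1 / y - 1 / y * ∑ i ∈ range k, (-z / y) ^ (i + 1) =
      1 / (y + z) * (-z / y) ^ (k + 1) := by
    have hyz : y + z ≠ 0 := by positivity
    have h3 : (-z / y) ^ (k + 1) = 1 + (∑ i ∈ range k, (-z / y) ^ (i + 1) + (-z / y) ^ 0) * ((-z / y) - 1) := by
      rw [h1]
      ring
    rw [h3]
    field_simp
    ring
  rw [h2, abs_mul, abs_pow]
  have habs : |(-z / y)| = z / y := by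
    rw [neg_div, abs_neg, abs_of_nonneg hx0]
  rw [habs, abs_of_nonneg (by positivity : 0 ≤ 1 / (y + z))]
  have h4 : (z / y) ^ (k + 1) ≤ q ^ (k + 1) := pow_le_pow_left₀ hx0 hq _
  have h5 : 1 / (y + z) ≤ 1 / y := one_div_le_one_div_of_le hy (by linarith only [hz])
  exact mul_le_mul h5 h4 (by positivity) (by positivity)

private theorem EV_pt (k X N n z : ℕ) (F : ℝ) (hX : 1 ≤ X) (hN : 1 ≤ N)
    (hn : N < n) (hz : z ≤ X ^ 2) :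
    ‖ee (F / ((n + z : ℕ) : ℝ)) - ee (F / n) * ee (∑ j : Fin k, EV_tay k F n j * (z : ℝ) ^ ((j : ℕ) + 1))‖ ≤
      2 * Real.pi * (|F| / N) * ((X : ℝ) ^ 2 / N) ^ (k + 1) := by
  have hN0 : (0 : ℝ) < (N : ℝ) := by exact_mod_cast hN
  have hnN : (N : ℝ) ≤ (n : ℝ) := by exact_mod_cast hn.le
  have hy : 0 < (n : ℝ) := by linarith only [hN0, hnN]
  have hzX : (z : ℝ) ≤ (X : ℝ) ^ 2 := by exact_mod_cast hz
  have hz0 : (0 : ℝ) ≤ (z : ℝ) := Nat.cast_nonneg _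
  rw [← Pool.Agent.H91.PK.LSa_ee_add]
  refine (EV_lip _ _).trans ?_
  have h1 := EV_geo k (n : ℝ) z ((X : ℝ) ^ 2 / N) hy hz0 (div_le_div₀ (by positivity) hzX hN0 hnN)
  have h2 : ∑ j : Fin k, EV_tay k F n j * (z : ℝ) ^ ((j : ℕ) + 1) =
      F * (1 / n * ∑ i ∈ range k, (-z / (n : ℝ)) ^ (i + 1)) := by
    rw [mul_sum, mul_sum, ← Fin.sum_univ_eq_sum_range (fun i => F * (1 / n * (-z / (n : ℝ)) ^ (i + 1)))]
    refine sum_congr rfl fun j _ => ?_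
    unfold EV_tay
    have h3 : (-(z : ℝ) / (n : ℝ)) ^ ((j : ℕ) + 1) = (-1 / (n : ℝ)) ^ ((j : ℕ) + 1) * (z : ℝ) ^ ((j : ℕ) + 1) := by
      rw [← mul_pow]
      congr 1
      ring
    rw [h3]
    ring
  have h4 : F / ((n + z : ℕ) : ℝ) - (F / n + ∑ j : Fin k, EV_tay k F n j * (z : ℝ) ^ ((j : ℕ) + 1)) =
      F * (1 / ((n : ℝ) + z) - 1 / n - 1 / n * ∑ i ∈ range k, (-z / (n : ℝ)) ^ (i + 1)) := by
    rw [h2]
    push_cast
    ring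
  rw [h4, abs_mul]
  have hpi : 0 ≤ 2 * Real.pi := by positivity
  have h5 : 1 / (n : ℝ) ≤ 1 / N := one_div_le_one_div_of_le hN0 hnN
  calc 2 * Real.pi * (|F| * |1 / ((n : ℝ) + z) - 1 / n - 1 / n * ∑ i ∈ range k, (-z / (n : ℝ)) ^ (i + 1)|)
      ≤ 2 * Real.pi * (|F| * (1 / N * ((X : ℝ) ^ 2 / N) ^ (k + 1))) := by
        apply mul_le_mul_of_nonneg_left _ hpi
        apply mul_le_mul_of_nonneg_left _ (abs_nonneg _)
        refine h1.trans ?_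
        gcongr
    _ = _ := by ring

private theorem EV_sft (k X N a b : ℕ) (F : ℝ) (hX : 1 ≤ X) (hN : 1 ≤ N) (ha : N ≤ a) (hb : b ≤ 2 * N) :
    ‖∑ n ∈ Ioc a b, ee (F / n)‖ ≤
      (1 / (X : ℝ) ^ 2) * ∑ n ∈ Ioc a b, ‖bil k X (EV_tay k F n)‖ + 2 * (X : ℝ) ^ 2 +
        2 * Real.pi * |F| * ((X : ℝ) ^ 2 / N) ^ (k + 1) := by
  have hN0 : (0 : ℝ) < (N : ℝ) := by exact_mod_cast hN
  have h := EV_sft_gen k X N a b (fun n => ee (F / n)) (EV_tay k F) (2 * Real.pi * (|F| / N) * ((X : ℝ) ^ 2 / N) ^ (k + 1)) hX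
    (by omega) (fun n => (Pool.Agent.H91.PK.LSa_norm_ee _).le) (by positivity) (by
      intro n hn z hz
      rw [mem_Ioc] at hn
      exact EV_pt k X N n z F hX hN (by omega) hz)
  refine h.trans (le_of_eq ?_)
  have : (N : ℝ) * (2 * Real.pi * (|F| / N) * ((X : ℝ) ^ 2 / N) ^ (k + 1)) = 2 * Real.pi * |F| * ((X : ℝ) ^ 2 / N) ^ (k + 1) := by
    field_simp
  rw [this]

private theorem EV_good {C2 : ℝ} (hC2 : 1 ≤ C2)
    (hgg : ∀ (α Δ : ℝ) (W : ℕ), 1 ≤ W → 0 < Δ → Δ ≤ 1 / 2 → |α| ≤ Δ →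
      1 ≤ Δ * W → 1 ≤ Δ * (W : ℝ) ^ 2 * |α| →
      GG α W ≤ C2 * Δ * (W : ℝ) ^ 2 * (1 + Real.log W))
    (κ X i s : ℕ) (p z t α : ℝ) (hκ : 4 ≤ κ) (hp : 42 ≤ p)
    (hX1 : p ^ 3 ≤ 2 * X) (hX2 : (X : ℝ) ≤ p ^ 3) (hs1 : 6 * κ ≤ s) (hs2 : s ≤ 2048 * κ ^ 2)
    (hi1 : 5 * κ ≤ i) (hi2 : i ≤ 6 * κ) (hz1 : p ^ 8 ≤ z) (hz2 : z ≤ 3 * p ^ 8)
    (ht1 : p ^ (24 * κ) ≤ |t|) (c1 : |α| ≤ 1 / p ^ (8 * κ)) (hα : |α| = |t| / (i * z ^ i))
    (hbig : C2 * 2055 * (κ : ℝ) ^ 2 ≤ p ^ 8) :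
    GG α (s * X ^ i) ≤ ((s : ℝ) * (X : ℝ) ^ i) ^ 2 * (1 / p ^ (4 * κ)) := by
  have hp0 : 0 < p := by linarith only [hp]
  have hp1 : 1 ≤ p := by linarith only [hp]
  have hκR : (4 : ℝ) ≤ κ := by exact_mod_cast hκ
  have hXR : (1 : ℝ) ≤ X := by
    have h1 : (42 : ℝ) ^ 3 ≤ p ^ 3 := by gcongr
    norm_num at h1
    linarith only [hX1, h1]
  have hX0 : 1 ≤ X := by exact_mod_cast hXR
  have hsR1 : 6 * (κ : ℝ) ≤ s := by exact_mod_cast hs1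
  have hsR2 : (s : ℝ) ≤ 2048 * (κ : ℝ) ^ 2 := by exact_mod_cast hs2
  have hsR : (1 : ℝ) ≤ s := by linarith only [hκR, hsR1]
  have hs0 : 1 ≤ s := by exact_mod_cast hsR
  have hi0 : 1 ≤ i := by omega
  have hiR : (1 : ℝ) ≤ i := by exact_mod_cast hi0
  have hiR2 : (i : ℝ) ≤ 6 * κ := by exact_mod_cast hi2
  have hz0 : 1 ≤ z := le_trans (one_le_pow₀ hp1) hz1
  have hW1 : 1 ≤ s * X ^ i := Nat.mul_pos hs0 (Nat.pow_pos hX0)
  have hΔ0 : 0 < 1 / p ^ (8 * κ) := by positivity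
  have hpk : p ≤ p ^ (8 * κ) := le_self_pow₀ hp1 (by omega)
  have hΔ2 : 1 / p ^ (8 * κ) ≤ 1 / 2 := by
    refine one_div_le_one_div_of_le (by norm_num) ?_
    linarith only [hp, hpk]
  have hX5 : p ^ 8 ≤ (X : ℝ) ^ 5 := by
    have h1 : (p ^ 3) ^ 5 ≤ (2 * (X : ℝ)) ^ 5 := by gcongr
    have h2 : (42 : ℝ) ^ 7 ≤ p ^ 7 := by gcongr
    have h3 : (p ^ 3) ^ 5 = p ^ 8 * p ^ 7 := by ring
    have h4 : (2 * (X : ℝ)) ^ 5 = 32 * (X : ℝ) ^ 5 := by ring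
    have h5 : p ^ 8 * 32 ≤ p ^ 8 * p ^ 7 := by
      gcongr
      norm_num at h2
      linarith only [h2]
    linarith only [h1, h5]
  have hXi : p ^ (8 * κ) ≤ (X : ℝ) ^ i := by
    calc p ^ (8 * κ) = (p ^ 8) ^ κ := pow_mul _ _ _
      _ ≤ ((X : ℝ) ^ 5) ^ κ := by gcongr
      _ = (X : ℝ) ^ (5 * κ) := (pow_mul _ _ _).symm
      _ ≤ (X : ℝ) ^ i := pow_le_pow_right₀ hXR hi1
  have hcast : ((s * X ^ i : ℕ) : ℝ) = (s : ℝ) * (X : ℝ) ^ i := by push_cast; ring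
  have c2 : 1 ≤ 1 / p ^ (8 * κ) * ((s * X ^ i : ℕ) : ℝ) := by
    rw [hcast, one_div, ← div_eq_inv_mul, le_div_iff₀ (by positivity), one_mul]
    calc p ^ (8 * κ) ≤ (X : ℝ) ^ i := hXi
      _ ≤ s * (X : ℝ) ^ i := le_mul_of_one_le_left (by positivity) hsR
  have h12 : (12 * p ^ 2) ^ i * p ^ (8 * κ) ≤ p ^ (24 * κ) := by
    have h42 : (42 : ℝ) ^ 4 ≤ p ^ 4 := by gcongr
    have hp2 : (1 : ℝ) ≤ 12 * p ^ 2 := by
      have : 1 ≤ p ^ 2 := one_le_pow₀ hp1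
      linarith only [this]
    calc (12 * p ^ 2) ^ i * p ^ (8 * κ) ≤ (12 * p ^ 2) ^ (6 * κ) * p ^ (8 * κ) := by
          gcongr
      _ = ((12 : ℝ) ^ 6) ^ κ * p ^ (20 * κ) := by
          rw [mul_pow, ← pow_mul, ← pow_mul, mul_assoc, ← pow_add]
          congr 2
          ring
      _ ≤ (p ^ 4) ^ κ * p ^ (20 * κ) := by
          gcongr
          refine le_trans ?_ h42
          norm_num
      _ = p ^ (24 * κ) := by
          rw [← pow_mul, ← pow_add]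
          congr 1
          ring
  have hmain : p ^ (8 * κ) * (i * z ^ i) ≤ ((s : ℝ) * (X : ℝ) ^ i) ^ 2 * |t| := by
    have h4 : (0 : ℝ) < 4 ^ i := by positivity
    refine le_of_mul_le_mul_right ?_ h4
    have hX6 : p ^ 6 ≤ 4 * (X : ℝ) ^ 2 := by
      have h5 : (p ^ 3) ^ 2 ≤ (2 * (X : ℝ)) ^ 2 := by gcongr
      calc p ^ 6 = (p ^ 3) ^ 2 := by ring
        _ ≤ (2 * (X : ℝ)) ^ 2 := h5
        _ = 4 * (X : ℝ) ^ 2 := by ring
    have his : (i : ℝ) ≤ (s : ℝ) ^ 2 := by nlinarith only [hκR, hsR1, hiR2]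
    calc p ^ (8 * κ) * (i * z ^ i) * 4 ^ i
        ≤ p ^ (8 * κ) * (i * (3 * p ^ 8) ^ i) * 4 ^ i := by gcongr
      _ = i * ((12 * p ^ 2) ^ i * p ^ (8 * κ)) * (p ^ 6) ^ i := by
          have e1 : (3 * p ^ 8) ^ i * 4 ^ i = (12 * p ^ 2) ^ i * (p ^ 6) ^ i := by
            rw [← mul_pow, ← mul_pow]
            congr 1
            ring
          calc p ^ (8 * κ) * (i * (3 * p ^ 8) ^ i) * 4 ^ i
              = i * p ^ (8 * κ) * ((3 * p ^ 8) ^ i * 4 ^ i) := by ring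
            _ = _ := by rw [e1]; ring
      _ ≤ (s : ℝ) ^ 2 * |t| * (4 * (X : ℝ) ^ 2) ^ i := by
          have := h12.trans ht1
          gcongr
      _ = ((s : ℝ) * (X : ℝ) ^ i) ^ 2 * |t| * 4 ^ i := by
          rw [mul_pow, mul_pow]
          ring
  have c3 : 1 ≤ 1 / p ^ (8 * κ) * ((s * X ^ i : ℕ) : ℝ) ^ 2 * |α| := by
    rw [hcast, hα]
    have hd : 0 < p ^ (8 * κ) * (i * z ^ i) := by positivity
    calc (1 : ℝ) ≤ (((s : ℝ) * (X : ℝ) ^ i) ^ 2 * |t|) / (p ^ (8 * κ) * (i * z ^ i)) := by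
          rw [le_div_iff₀ hd, one_mul]
          exact hmain
      _ = _ := by
          field_simp
  have hG := hgg α (1 / p ^ (8 * κ)) (s * X ^ i) hW1 hΔ0 hΔ2 c1 c2 c3
  refine hG.trans ?_
  rw [hcast]
  have hX8 : (X : ℝ) ≤ p ^ 8 := hX2.trans (pow_le_pow_right₀ hp1 (by norm_num))
  have hlog : 1 + Real.log ((s : ℝ) * (X : ℝ) ^ i) ≤ 2055 * (κ : ℝ) ^ 2 * p ^ 8 := by
    rw [Real.log_mul (by linarith only [hκR, hsR1]) (by positivity), Real.log_pow]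
    have h1 : Real.log s ≤ s := (Real.log_le_sub_one_of_pos (by linarith only [hκR, hsR1])).trans (by linarith only [])
    have h2 : Real.log X ≤ X := (Real.log_le_sub_one_of_pos (by linarith only [hXR])).trans (by linarith only [])
    have h3 : (i : ℝ) * Real.log X ≤ 6 * κ * p ^ 8 := by
      have : (i : ℝ) * Real.log X ≤ i * X := by gcongr
      refine this.trans ?_
      gcongr
    have h4 : (1 : ℝ) ≤ p ^ 8 := one_le_pow₀ hp1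
    have h5 : 1 + (s : ℝ) ≤ 2049 * (κ : ℝ) ^ 2 := by nlinarith only [hκR, hsR2]
    have h6 : 2049 * (κ : ℝ) ^ 2 ≤ 2049 * (κ : ℝ) ^ 2 * p ^ 8 :=
      le_mul_of_one_le_right (by positivity) h4
    have h7 : 6 * (κ : ℝ) * p ^ 8 ≤ 6 * (κ : ℝ) ^ 2 * p ^ 8 := by
      gcongr
      nlinarith only [hκR]
    linarith only [h1, h3, h5, h6, h7]
  have hp44 : C2 * (1 + Real.log ((s : ℝ) * (X : ℝ) ^ i)) ≤ p ^ (4 * κ) := by
    calc C2 * (1 + Real.log ((s : ℝ) * (X : ℝ) ^ i)) ≤ C2 * (2055 * (κ : ℝ) ^ 2 * p ^ 8) := by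
          gcongr
      _ = (C2 * 2055 * (κ : ℝ) ^ 2) * p ^ 8 := by ring
      _ ≤ p ^ 8 * p ^ 8 := by gcongr
      _ = p ^ 16 := by ring
      _ ≤ p ^ (4 * κ) := pow_le_pow_right₀ hp1 (by omega)
  have hpe : p ^ (8 * κ) = p ^ (4 * κ) * p ^ (4 * κ) := by
    rw [← pow_add]
    congr 1
    ring
  calc C2 * (1 / p ^ (8 * κ)) * ((s : ℝ) * (X : ℝ) ^ i) ^ 2 *
        (1 + Real.log ((s : ℝ) * (X : ℝ) ^ i))
      = (C2 * (1 + Real.log ((s : ℝ) * (X : ℝ) ^ i))) *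
        (((s : ℝ) * (X : ℝ) ^ i) ^ 2 * (1 / p ^ (8 * κ))) := by ring
    _ ≤ p ^ (4 * κ) * (((s : ℝ) * (X : ℝ) ^ i) ^ 2 * (1 / p ^ (8 * κ))) := by gcongr
    _ = ((s : ℝ) * (X : ℝ) ^ i) ^ 2 * (1 / p ^ (4 * κ)) := by
        rw [hpe]
        have : p ^ (4 * κ) ≠ 0 := by positivity
        field_simp

private theorem EV_prod (k κ s X : ℕ) (p : ℝ) (hp : 1 ≤ p) (hk : k = 16 * κ) (G : ℕ → ℝ)
    (hG0 : ∀ j, 0 ≤ G j)
    (h1 : ∀ j, j < k → G j ≤ 9 * ((s : ℝ) * (X : ℝ) ^ (j + 1)) ^ 2)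
    (h2 : ∀ j, 5 * κ ≤ j → j < 6 * κ →
      G j ≤ ((s : ℝ) * (X : ℝ) ^ (j + 1)) ^ 2 * (1 / p ^ (4 * κ))) :
    ∏ j ∈ range k, G j ≤
      (9 * (s : ℝ) ^ 2) ^ k * (X : ℝ) ^ (k * (k + 1)) * (1 / p ^ (4 * κ)) ^ κ := by
  have hXp : ∀ k : ℕ, ∏ j ∈ range k, ((X : ℝ) ^ (j + 1)) ^ 2 = (X : ℝ) ^ (k * (k + 1)) := by
    intro k
    induction k with
    | zero => simp
    | succ k ih =>
      rw [prod_range_succ, ih, ← pow_mul, ← pow_add]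
      congr 1
      ring
  calc ∏ j ∈ range k, G j ≤ ∏ j ∈ range k, (9 * (s : ℝ) ^ 2 * (((X : ℝ) ^ (j + 1)) ^ 2) *
        (if j ∈ Ico (5 * κ) (6 * κ) then (1 / p ^ (4 * κ)) else 1)) := by
        refine prod_le_prod (fun j _ => hG0 j) ?_
        intro j hj
        have hj' : j < k := mem_range.1 hj
        by_cases hm : j ∈ Ico (5 * κ) (6 * κ)
        · rw [if_pos hm]
          rw [mem_Ico] at hm
          refine (h2 j hm.1 hm.2).trans ?_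
          have h3 : 0 ≤ ((s : ℝ) * (X : ℝ) ^ (j + 1)) ^ 2 * (1 / p ^ (4 * κ)) := by positivity
          have h4 : 9 * (s : ℝ) ^ 2 * ((X : ℝ) ^ (j + 1)) ^ 2 * (1 / p ^ (4 * κ)) =
              9 * (((s : ℝ) * (X : ℝ) ^ (j + 1)) ^ 2 * (1 / p ^ (4 * κ))) := by ring
          rw [h4]
          linarith only [h3]
        · rw [if_neg hm, mul_one]
          refine (h1 j hj').trans_eq ?_
          ring
    _ = _ := by
        rw [prod_mul_distrib, prod_mul_distrib, prod_const, card_range, hXp, prod_ite_mem]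
        congr 1
        have hsub : range k ∩ Ico (5 * κ) (6 * κ) = Ico (5 * κ) (6 * κ) := by
          refine inter_eq_right.2 ?_
          intro j hj
          rw [mem_Ico] at hj
          rw [mem_range]
          omega
        rw [hsub, prod_const, Nat.card_Ico]
        congr 1
        omega

private theorem EV_const {C1 : ℝ} (hC1 : 1 ≤ C1) (k s : ℕ) (hk : 2 ≤ k) (hs : s = 8 * k ^ 2) :
    ((C1 * k) ^ (C1 * (k : ℝ) ^ 3)) ^ 2 * (9 * (s : ℝ) ^ 2) ^ k ≤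
      Real.exp (C1 ^ 2 + 2) ^ (4 * s ^ 2) := by
  have hkR : (2 : ℝ) ≤ k := by exact_mod_cast hk
  have hsR : (s : ℝ) = 8 * (k : ℝ) ^ 2 := by rw [hs]; push_cast; ring
  have hb : 0 < C1 * (k : ℝ) := by positivity
  have h1 : ((C1 * k) ^ (C1 * (k : ℝ) ^ 3)) ^ 2 ≤ Real.exp (C1 ^ 2 * (4 * (s : ℝ) ^ 2)) := by
    have h2 : C1 * (k : ℝ) ≤ Real.exp (C1 * k) := by
      have := Real.add_one_le_exp (C1 * (k : ℝ))
      linarith only [this]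
    calc ((C1 * k) ^ (C1 * (k : ℝ) ^ 3)) ^ 2
        ≤ ((Real.exp (C1 * k)) ^ (C1 * (k : ℝ) ^ 3)) ^ 2 := by
          gcongr
      _ = Real.exp (2 * (C1 * (k : ℝ) * (C1 * (k : ℝ) ^ 3))) := by
          rw [← Real.exp_mul, ← Real.exp_nat_mul]
          norm_num
      _ ≤ Real.exp (C1 ^ 2 * (4 * (s : ℝ) ^ 2)) := by
          refine Real.exp_le_exp.2 ?_
          rw [hsR]
          have h3 : 2 * (C1 * (k : ℝ) * (C1 * (k : ℝ) ^ 3)) = 2 * (C1 ^ 2 * (k : ℝ) ^ 4) := by ring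
          have h4 : C1 ^ 2 * (4 * (8 * (k : ℝ) ^ 2) ^ 2) = 256 * (C1 ^ 2 * (k : ℝ) ^ 4) := by ring
          rw [h3, h4]
          have h5 : 0 ≤ C1 ^ 2 * (k : ℝ) ^ 4 := by positivity
          linarith only [h5]
  have h2 : (9 * (s : ℝ) ^ 2) ^ k ≤ Real.exp (2 * (4 * (s : ℝ) ^ 2)) := by
    have h3 : 3 * (s : ℝ) ≤ Real.exp (3 * s) := by
      have := Real.add_one_le_exp (3 * (s : ℝ))
      linarith only [this]
    have hs0 : (0 : ℝ) ≤ s := Nat.cast_nonneg _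
    calc (9 * (s : ℝ) ^ 2) ^ k = ((3 * (s : ℝ)) ^ 2) ^ k := by
          congr 1
          ring
      _ ≤ ((Real.exp (3 * s)) ^ 2) ^ k := by gcongr
      _ = Real.exp (6 * (s : ℝ) * k) := by
          rw [← pow_mul, ← Real.exp_nat_mul]
          congr 1
          push_cast
          ring
      _ ≤ Real.exp (2 * (4 * (s : ℝ) ^ 2)) := by
          refine Real.exp_le_exp.2 ?_
          have h4 : (k : ℝ) ≤ s := by rw [hsR]; nlinarith only [hkR]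
          nlinarith only [hkR, hsR]
  calc ((C1 * k) ^ (C1 * (k : ℝ) ^ 3)) ^ 2 * (9 * (s : ℝ) ^ 2) ^ k
      ≤ Real.exp (C1 ^ 2 * (4 * (s : ℝ) ^ 2)) * Real.exp (2 * (4 * (s : ℝ) ^ 2)) := by
        gcongr
    _ = Real.exp (C1 ^ 2 + 2) ^ (4 * s ^ 2) := by
        rw [← Real.exp_add, ← Real.exp_nat_mul]
        congr 1
        push_cast
        ring

private theorem EV_bil {C1 : ℝ} (hC1 : 1 ≤ C1)
    (hjv : ∀ k M : ℕ, 2 ≤ k → 1 ≤ M → (JV k (8 * k ^ 2) M : ℝ) ≤ (C1 * k) ^ (C1 * k ^ 3) *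
      (M : ℝ) ^ (16 * (k : ℝ) ^ 2 - (k : ℝ) * (k + 1) / 2 + (k : ℝ) ^ 2 / 1000))
    (κ k s X : ℕ) (p : ℝ) (hκ : 4 ≤ κ) (hk : k = 16 * κ) (hs : s = 8 * k ^ 2)
    (hp : 1 ≤ p) (hX : 1 ≤ X) (hX2 : (X : ℝ) ≤ p ^ 3) (α : Fin k → ℝ)
    (hP : ∏ j : Fin k, GG (α j) (s * X ^ ((j : ℕ) + 1)) ≤
      (9 * (s : ℝ) ^ 2) ^ k * (X : ℝ) ^ (k * (k + 1)) * (1 / p ^ (4 * κ)) ^ κ) :
    ‖bil k X α‖ ≤ Real.exp (C1 ^ 2 + 2) * (X : ℝ) ^ 2 *
      (p ^ 8) ^ (-((1 / 2 ^ 26) / (κ : ℝ) ^ 2)) := by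
  have hp0 : 0 < p := by linarith only [hp]
  have hk2 : 2 ≤ k := by omega
  have hkpos : 1 ≤ k ^ 2 := Nat.one_le_pow _ _ (by omega)
  have hs1 : 1 ≤ s := by omega
  have hκR : (4 : ℝ) ≤ κ := by exact_mod_cast hκ
  have hκ0 : (0 : ℝ) < κ := by linarith only [hκR]
  have hXR : (1 : ℝ) ≤ X := by exact_mod_cast hX
  have hX0 : (0 : ℝ) < X := by linarith only [hXR]
  have hkR : (k : ℝ) = 16 * κ := by rw [hk]; push_cast; ring
  have hsR : (s : ℝ) = 8 * (k : ℝ) ^ 2 := by rw [hs]; push_cast; ring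
  refine le_of_pow_le_pow_left₀ (n := 4 * s ^ 2) (by positivity) (by positivity) ?_
  set K : ℝ := (C1 * k) ^ (C1 * (k : ℝ) ^ 3) with hK
  have hK0 : 0 ≤ K := Real.rpow_nonneg (by positivity) _
  set E : ℝ := 16 * (k : ℝ) ^ 2 - (k : ℝ) * (k + 1) / 2 + (k : ℝ) ^ 2 / 1000 with hE
  have h0 := bil_bound k s X hs1 hX α
  have hJ : (JV k s X : ℝ) ≤ K * (X : ℝ) ^ E := by
    have := hjv k X hk2 hX
    rw [← hs] at this
    exact this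
  have hJ2 : (JV k (2 * s) X : ℝ) ≤ (X : ℝ) ^ (2 * s) * (K * (X : ℝ) ^ E) := by
    have h1 := jv_add k s s X
    rw [← two_mul] at h1
    have h2 : (JV k (2 * s) X : ℝ) ≤ (X : ℝ) ^ (2 * s) * (JV k s X : ℝ) := by exact_mod_cast h1
    refine h2.trans ?_
    gcongr
  have hbr : (X : ℝ) ^ (8 * s ^ 2 - 6 * s) * (X : ℝ) ^ (2 * s) * (X : ℝ) ^ E * (X : ℝ) ^ E *
      (X : ℝ) ^ (k * (k + 1)) = (X : ℝ) ^ (8 * s ^ 2) * (X : ℝ) ^ ((k : ℝ) ^ 2 / 500) := by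
    have h6 : 6 * s ≤ 8 * s ^ 2 := by nlinarith only [hs, hkpos]
    rw [← Real.rpow_natCast (X : ℝ) (8 * s ^ 2 - 6 * s), ← Real.rpow_natCast (X : ℝ) (2 * s),
      ← Real.rpow_natCast (X : ℝ) (k * (k + 1)), ← Real.rpow_natCast (X : ℝ) (8 * s ^ 2),
      ← Real.rpow_add hX0, ← Real.rpow_add hX0, ← Real.rpow_add hX0, ← Real.rpow_add hX0,
      ← Real.rpow_add hX0]
    congr 1
    rw [Nat.cast_sub h6, hE]
    push_cast
    rw [hsR]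
    ring
  have hXk : (X : ℝ) ^ ((k : ℝ) ^ 2 / 500) ≤ p ^ (2 * κ ^ 2) := by
    calc (X : ℝ) ^ ((k : ℝ) ^ 2 / 500) ≤ (p ^ 3) ^ ((k : ℝ) ^ 2 / 500) :=
          Real.rpow_le_rpow hX0.le hX2 (by positivity)
      _ = p ^ ((3 : ℝ) * ((k : ℝ) ^ 2 / 500)) := by
          rw [← Real.rpow_natCast p 3, ← Real.rpow_mul hp0.le]
          norm_num
      _ ≤ p ^ ((2 * κ ^ 2 : ℕ) : ℝ) := by
          refine Real.rpow_le_rpow_of_exponent_le hp ?_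
          rw [hkR]
          push_cast
          nlinarith only []
      _ = p ^ (2 * κ ^ 2) := Real.rpow_natCast _ _
  have hcancel : p ^ (2 * κ ^ 2) * (1 / p ^ (4 * κ)) ^ κ = 1 / p ^ (2 * κ ^ 2) := by
    have e1 : (p ^ (4 * κ)) ^ κ = p ^ (2 * κ ^ 2) * p ^ (2 * κ ^ 2) := by
      rw [← pow_mul, ← pow_add]
      congr 1
      ring
    have e2 : p ^ (2 * κ ^ 2) ≠ 0 := by positivity
    rw [one_div, inv_pow, e1]
    field_simp
  have hq : ((p ^ 8) ^ (-((1 / 2 ^ 26) / (κ : ℝ) ^ 2))) ^ (4 * s ^ 2) = 1 / p ^ (2 * κ ^ 2) := by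
    rw [one_div (p ^ (2 * κ ^ 2)), ← Real.rpow_natCast p 8, ← Real.rpow_mul hp0.le,
      ← Real.rpow_natCast _ (4 * s ^ 2), ← Real.rpow_mul hp0.le,
      ← Real.rpow_natCast p (2 * κ ^ 2), ← Real.rpow_neg hp0.le]
    congr 1
    push_cast
    rw [hsR, hkR]
    field_simp
    norm_num
  have hfin := EV_const hC1 k s hk2 hs
  calc ‖bil k X α‖ ^ (4 * s ^ 2)
      ≤ (X : ℝ) ^ (8 * s ^ 2 - 6 * s) * (JV k (2 * s) X : ℝ) * (JV k s X : ℝ) *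
        ∏ j : Fin k, GG (α j) (s * X ^ ((j : ℕ) + 1)) := h0
    _ ≤ (X : ℝ) ^ (8 * s ^ 2 - 6 * s) * ((X : ℝ) ^ (2 * s) * (K * (X : ℝ) ^ E)) *
        (K * (X : ℝ) ^ E) *
        ((9 * (s : ℝ) ^ 2) ^ k * (X : ℝ) ^ (k * (k + 1)) * (1 / p ^ (4 * κ)) ^ κ) := by
        have hP0 : 0 ≤ ∏ j : Fin k, GG (α j) (s * X ^ ((j : ℕ) + 1)) :=
          prod_nonneg (fun j _ => gg_nonneg _ _)
        gcongr
    _ = K ^ 2 * (9 * (s : ℝ) ^ 2) ^ k *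
        ((X : ℝ) ^ (8 * s ^ 2 - 6 * s) * (X : ℝ) ^ (2 * s) * (X : ℝ) ^ E * (X : ℝ) ^ E *
          (X : ℝ) ^ (k * (k + 1))) * (1 / p ^ (4 * κ)) ^ κ := by ring
    _ = K ^ 2 * (9 * (s : ℝ) ^ 2) ^ k * (X : ℝ) ^ (8 * s ^ 2) *
        ((X : ℝ) ^ ((k : ℝ) ^ 2 / 500) * (1 / p ^ (4 * κ)) ^ κ) := by
        rw [hbr]
        ring
    _ ≤ K ^ 2 * (9 * (s : ℝ) ^ 2) ^ k * (X : ℝ) ^ (8 * s ^ 2) *
        (p ^ (2 * κ ^ 2) * (1 / p ^ (4 * κ)) ^ κ) := by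
        gcongr
    _ = K ^ 2 * (9 * (s : ℝ) ^ 2) ^ k * (X : ℝ) ^ (8 * s ^ 2) * (1 / p ^ (2 * κ ^ 2)) := by
        rw [hcancel]
    _ ≤ Real.exp (C1 ^ 2 + 2) ^ (4 * s ^ 2) * (X : ℝ) ^ (8 * s ^ 2) *
        (1 / p ^ (2 * κ ^ 2)) := by
        gcongr
    _ = (Real.exp (C1 ^ 2 + 2) * (X : ℝ) ^ 2 *
        (p ^ 8) ^ (-((1 / 2 ^ 26) / (κ : ℝ) ^ 2))) ^ (4 * s ^ 2) := by
        rw [mul_pow, mul_pow, hq, ← pow_mul]
        congr 3
        ring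

private theorem EV_abs_tay (k : ℕ) (F : ℝ) (n : ℕ) (hn : 0 < (n : ℝ)) (j : Fin k) :
    |EV_tay k F n j| = |(((j : ℕ) + 1 : ℕ) : ℝ) * (F / n)| / ((((j : ℕ) + 1 : ℕ) : ℝ) * (n : ℝ) ^ ((j : ℕ) + 1)) := by
  unfold EV_tay
  have h1 : (0 : ℝ) < (((j : ℕ) + 1 : ℕ) : ℝ) := by positivity
  rw [abs_mul, abs_mul, abs_pow, abs_div, abs_div, abs_neg, abs_one, abs_of_pos hn, abs_of_pos h1, one_div, inv_pow]
  field_simp

private theorem EV_abs_tay2 (k : ℕ) (F : ℝ) (n : ℕ) (hn : 0 < (n : ℝ)) (j : Fin k) :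
    |EV_tay k F n j| = |F| / (n : ℝ) ^ ((j : ℕ) + 2) := by
  unfold EV_tay
  rw [abs_mul, abs_pow, abs_div, abs_div, abs_neg, abs_one, abs_of_pos hn, one_div, inv_pow, pow_succ _ ((j : ℕ) + 1)]
  field_simp

theorem ev : ∃ c C : ℝ, 0 < c ∧ 1 ≤ C ∧ ∀ (κ N a b : ℕ) (F : ℝ), 4 ≤ κ → (C * κ) ^ C ≤ N →
    N ≤ a → b ≤ 2 * N → (N : ℝ) ^ (4 * κ - 3) ≤ |F| → |F| ≤ (N : ℝ) ^ (4 * κ + 1) →
    ‖∑ n ∈ Ioc a b, ee (F / n)‖ ≤ C * (N : ℝ) ^ (1 - c / (κ : ℝ) ^ 2) := by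
  obtain ⟨C1, hC1, hjv⟩ := jv_eight
  obtain ⟨C2, hC2, hgg⟩ := gg_bound
  set D : ℝ := Real.exp (C1 ^ 2 + 2) with hD
  have hD0 : 0 < D := Real.exp_pos _
  refine ⟨1 / 2 ^ 26, D + 15 + 2055 + C2, by norm_num, by linarith only [hC2, hD0], ?_⟩
  intro κ N a b F hκ hN hNa hb ht1 ht2
  set C : ℝ := D + 15 + 2055 + C2 with hC
  have hκR : (4 : ℝ) ≤ κ := by exact_mod_cast hκ
  have hκ0 : (0 : ℝ) < κ := by linarith only [hκR]
  have hCge : 2055 ≤ C := by linarith only [hC2, hD0]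
  have hCC2 : C2 ≤ C := by linarith only [hD0]
  -- lower bounds for `N`
  have hb1 : 1 ≤ C * (κ : ℝ) := by nlinarith only [hC2, hD0, hκR]
  have hN8 : (C * (κ : ℝ)) ^ 8 ≤ N := by
    refine le_trans ?_ hN
    rw [← Real.rpow_natCast]
    refine Real.rpow_le_rpow_of_exponent_le hb1 ?_
    push_cast
    linarith only [hC2, hD0]
  have hN0 : (0 : ℝ) < N := by
    have : 0 < (C * (κ : ℝ)) ^ 8 := by positivity
    linarith only [hN8, this]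
  have hN1' : 1 ≤ N := by exact_mod_cast hN0
  set p : ℝ := (N : ℝ) ^ (1 / 8 : ℝ) with hp
  have hp8 : p ^ 8 = N := by
    rw [hp, ← Real.rpow_natCast, ← Real.rpow_mul hN0.le]
    norm_num
  have hpC : C * (κ : ℝ) ≤ p := by
    refine le_of_pow_le_pow_left₀ (n := 8) (by norm_num) (Real.rpow_nonneg hN0.le _) ?_
    rw [hp8]
    exact hN8
  have hp42 : 42 ≤ p := by nlinarith only [hC2, hD0, hκR, hpC]
  have hp0 : 0 < p := by linarith only [hp42]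
  have hp1 : 1 ≤ p := by linarith only [hp42]
  have hbig : C2 * 2055 * (κ : ℝ) ^ 2 ≤ p ^ 8 := by
    calc C2 * 2055 * (κ : ℝ) ^ 2 ≤ C * C * (κ : ℝ) ^ 2 := by gcongr
      _ = (C * (κ : ℝ)) ^ 2 := by ring
      _ ≤ p ^ 2 := by gcongr
      _ ≤ p ^ 8 := pow_le_pow_right₀ hp1 (by norm_num)
  -- the parameter `X`
  set X : ℕ := ⌊p ^ 3⌋₊ with hX
  have hX2 : (X : ℝ) ≤ p ^ 3 := Nat.floor_le (by positivity)
  have hp3 : 42 ≤ p ^ 3 := hp42.trans (le_self_pow₀ hp1 (by norm_num))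
  have hX1 : p ^ 3 ≤ 2 * X := by
    have h1 := Nat.lt_floor_add_one (p ^ 3)
    rw [← hX] at h1
    linarith only [hp3, h1]
  have hXR : (1 : ℝ) ≤ X := by linarith only [hp3, hX1]
  have hX0 : 1 ≤ X := by exact_mod_cast hXR
  have hX26 : (X : ℝ) ^ 2 ≤ p ^ 6 := by
    calc (X : ℝ) ^ 2 ≤ (p ^ 3) ^ 2 := by gcongr
      _ = p ^ 6 := by ring
  obtain ⟨k, hk⟩ : ∃ k : ℕ, k = 16 * κ := ⟨_, rfl⟩
  obtain ⟨s, hs⟩ : ∃ s : ℕ, s = 8 * k ^ 2 := ⟨_, rfl⟩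
  have hsκ : s = 2048 * κ ^ 2 := by rw [hs, hk]; ring
  have hs6 : 6 * κ ≤ s := by rw [hsκ]; nlinarith only []
  have hsft := EV_sft k X N a b F hX0 hN1' hNa hb
  have ht1' : p ^ (32 * κ - 24) ≤ |F| := by
    refine le_trans (le_of_eq ?_) ht1
    rw [← hp8, ← pow_mul]
    congr 1
    omega
  have ht2' : |F| ≤ p ^ (32 * κ + 8) := by
    refine ht2.trans (le_of_eq ?_)
    rw [← hp8, ← pow_mul]
    congr 1
    ring
  have hNN : (N : ℝ) ≤ a := by exact_mod_cast hNa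
  have hbb : (b : ℝ) ≤ 2 * N := by exact_mod_cast hb
  have hbil : ∀ n ∈ Ioc a b, ‖bil k X (EV_tay k F n)‖ ≤ D * (X : ℝ) ^ 2 *
      (p ^ 8) ^ (-((1 / 2 ^ 26) / (κ : ℝ) ^ 2)) := by
    intro n hn
    rw [mem_Ioc] at hn
    have hn1 : (N : ℝ) ≤ n := hNN.trans (by exact_mod_cast hn.1.le)
    have hn2 : (n : ℝ) ≤ 2 * N := (show (n : ℝ) ≤ b by exact_mod_cast hn.2).trans hbb
    have hz1 : p ^ 8 ≤ (n : ℝ) := by rw [hp8]; linarith only [hn1]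
    have hz0 : 0 < (n : ℝ) := by linarith only [hN0, hn1]
    have hz2 : (n : ℝ) ≤ 3 * p ^ 8 := by rw [hp8]; linarith only [hn2]
    refine EV_bil hC1 hjv κ k s X p hκ hk hs hp1 hX0 hX2 _ ?_
    set G : ℕ → ℝ := fun j => if h : j < k then GG (EV_tay k F n ⟨j, h⟩) (s * X ^ (j + 1)) else 0
      with hG
    have hG1 : ∀ j : Fin k, GG (EV_tay k F n j) (s * X ^ ((j : ℕ) + 1)) = G j := by
      intro j
      rw [hG]
      simp only [j.isLt, dif_pos, Fin.eta]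
    rw [prod_congr rfl (fun j _ => hG1 j), Fin.prod_univ_eq_prod_range G k]
    refine EV_prod k κ s X p hp1 hk G ?_ ?_ ?_
    · intro j
      simp only [hG]
      split_ifs
      · exact gg_nonneg _ _
      · exact le_rfl
    · intro j hj
      simp only [hG, hj, dif_pos]
      refine (gg_triv _ _).trans ?_
      push_cast
      have h1 : (1 : ℝ) ≤ (s : ℝ) * (X : ℝ) ^ (j + 1) := by
        have h2 : (1 : ℝ) ≤ s := by
          have : 1 ≤ s := by omega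
          exact_mod_cast this
        have h3 : (1 : ℝ) ≤ (X : ℝ) ^ (j + 1) := one_le_pow₀ hXR
        nlinarith only [h2, h3]
      nlinarith only [h1]
    · intro j hj1 hj2
      have hj : j < k := by omega
      simp only [hG, hj, dif_pos]
      have hj2R : (2 : ℝ) ≤ ((j + 1 : ℕ) : ℝ) := by exact_mod_cast (by omega : 2 ≤ j + 1)
      have hFn : |((j + 1 : ℕ) : ℝ) * (F / n)| = ((j + 1 : ℕ) : ℝ) * (|F| / n) := by
        rw [abs_mul, abs_div, abs_of_pos hz0, abs_of_nonneg (by positivity : (0 : ℝ) ≤ ((j + 1 : ℕ) : ℝ))]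
      have hlow : p ^ (24 * κ) ≤ |((j + 1 : ℕ) : ℝ) * (F / n)| := by
        rw [hFn]
        have e1 : p ^ (24 * κ) ≤ 2 * (|F| / n) := by
          rw [← mul_div_assoc, le_div_iff₀ hz0]
          calc p ^ (24 * κ) * n ≤ p ^ (32 * κ - 32) * (2 * p ^ 8) := by
                have h1 : p ^ (24 * κ) ≤ p ^ (32 * κ - 32) := pow_le_pow_right₀ hp1 (by omega)
                have h2 : (n : ℝ) ≤ 2 * p ^ 8 := by rw [hp8]; exact hn2
                gcongr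
            _ = 2 * p ^ (32 * κ - 24) := by
                have h3 : 32 * κ - 24 = (32 * κ - 32) + 8 := by omega
                rw [h3, pow_add]
                ring
            _ ≤ 2 * |F| := by linarith only [ht1']
        calc p ^ (24 * κ) ≤ 2 * (|F| / n) := e1
          _ ≤ _ := mul_le_mul_of_nonneg_right hj2R (by positivity)
      have hc1 : |EV_tay k F n ⟨j, hj⟩| ≤ 1 / p ^ (8 * κ) := by
        rw [EV_abs_tay2 k F n hz0, div_le_div_iff₀ (by positivity) (by positivity), one_mul]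
        calc |F| * p ^ (8 * κ) ≤ p ^ (32 * κ + 8) * p ^ (8 * κ) := by gcongr
          _ = (p ^ 8) ^ (5 * κ + 1) := by
              rw [← pow_add, ← pow_mul]
              congr 1
              ring
          _ ≤ (n : ℝ) ^ (5 * κ + 1) := by gcongr
          _ ≤ (n : ℝ) ^ (j + 2) := pow_le_pow_right₀ (le_trans (one_le_pow₀ hp1) hz1) (by omega)
      exact EV_good hC2 hgg κ X (j + 1) s p (n : ℝ) (((j + 1 : ℕ) : ℝ) * (F / n)) _ hκ hp42 hX1 hX2 hs6 hsκ.le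
        (by omega) (by omega) hz1 hz2 hlow hc1 (EV_abs_tay k F n hz0 ⟨j, hj⟩) hbig
  set q : ℝ := (p ^ 8) ^ (-((1 / 2 ^ 26) / (κ : ℝ) ^ 2)) with hq
  have hq0 : 0 < q := Real.rpow_pos_of_pos (by positivity) _
  have hcard : ((Ioc a b).card : ℝ) ≤ N := by
    have h1 : (Ioc a b).card ≤ N := by
      rw [Nat.card_Ioc]
      omega
    exact_mod_cast h1
  have hterm1 : (1 / (X : ℝ) ^ 2) * ∑ n ∈ Ioc a b, ‖bil k X (EV_tay k F n)‖ ≤ D * (N * q) := by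
    have h1 : ∑ n ∈ Ioc a b, ‖bil k X (EV_tay k F n)‖ ≤ N * (D * (X : ℝ) ^ 2 * q) := by
      calc ∑ n ∈ Ioc a b, ‖bil k X (EV_tay k F n)‖ ≤ ∑ _n ∈ Ioc a b, D * (X : ℝ) ^ 2 * q :=
            sum_le_sum hbil
        _ = (Ioc a b).card * (D * (X : ℝ) ^ 2 * q) := by rw [sum_const, nsmul_eq_mul]
        _ ≤ N * (D * (X : ℝ) ^ 2 * q) := by gcongr
    have h2 : (0 : ℝ) < (X : ℝ) ^ 2 := by positivity
    calc (1 / (X : ℝ) ^ 2) * ∑ n ∈ Ioc a b, ‖bil k X (EV_tay k F n)‖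
        ≤ (1 / (X : ℝ) ^ 2) * (N * (D * (X : ℝ) ^ 2 * q)) := by gcongr
      _ = D * (N * q) := by
          field_simp
  have hNq : (N : ℝ) * q = (N : ℝ) ^ (1 - 1 / 2 ^ 26 / (κ : ℝ) ^ 2) := by
    rw [hq, hp8, sub_eq_add_neg, Real.rpow_add hN0, Real.rpow_one]
  have hp6 : p ^ 6 ≤ N * q := by
    rw [hNq, ← hp8, ← Real.rpow_natCast p 8, ← Real.rpow_mul hp0.le, ← Real.rpow_natCast p 6]
    refine Real.rpow_le_rpow_of_exponent_le hp1 ?_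
    push_cast
    have h1 : 1 / 2 ^ 26 / (κ : ℝ) ^ 2 ≤ 1 / 4 := by
      rw [div_le_iff₀ (by positivity)]
      nlinarith only [hκR]
    linarith only [h1]
  have hterm3 : 2 * Real.pi * |F| * ((X : ℝ) ^ 2 / N) ^ (k + 1) ≤ 13 * p ^ 6 := by
    have h1 : (X : ℝ) ^ 2 / N ≤ 1 / p ^ 2 := by
      rw [← hp8, div_le_div_iff₀ (by positivity) (by positivity), one_mul]
      calc (X : ℝ) ^ 2 * p ^ 2 ≤ p ^ 6 * p ^ 2 := by gcongr
        _ = p ^ 8 := by ring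
    have hpi : 2 * Real.pi ≤ 13 := by
      have := Real.pi_lt_d2
      linarith only [this]
    calc 2 * Real.pi * |F| * ((X : ℝ) ^ 2 / N) ^ (k + 1)
        ≤ 13 * p ^ (32 * κ + 8) * (1 / p ^ 2) ^ (k + 1) := by
          gcongr
      _ = 13 * p ^ 6 := by
          have e1 : p ^ (32 * κ + 8) = p ^ 6 * (p ^ 2) ^ (k + 1) := by
            rw [hk, ← pow_mul, ← pow_add]
            congr 1
            ring
          have e2 : (p ^ 2) ^ (k + 1) ≠ 0 := by positivity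
          rw [e1, one_div, inv_pow]
          field_simp
  rw [← hNq]
  have hNq0 : 0 < (N : ℝ) * q := by positivity
  calc ‖∑ n ∈ Ioc a b, ee (F / n)‖
      ≤ (1 / (X : ℝ) ^ 2) * ∑ n ∈ Ioc a b, ‖bil k X (EV_tay k F n)‖ + 2 * (X : ℝ) ^ 2 +
        2 * Real.pi * |F| * ((X : ℝ) ^ 2 / N) ^ (k + 1) := hsft
    _ ≤ D * (N * q) + 2 * (N * q) + 13 * (N * q) := by
        have h1 : 2 * (X : ℝ) ^ 2 ≤ 2 * (N * q) := by linarith only [hX26, hp6]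
        have h2 : 13 * p ^ 6 ≤ 13 * (N * q) := by linarith only [hp6]
        linarith only [hX26, hterm1, hp6, hterm3]
    _ ≤ C * (N * q) := by
        rw [hC]
        nlinarith only [hC2, hX26, hp6]

end Pool.Agent.H70.LC2
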