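import Pool.Agent.H70.LC2.EK
import Pool.Agent.H70.LC2.ED
import Pool.Agent.H70.LC2.EV

/-!
# LC2 EE: the exponential sums over the integers

`he_main`.  We may assume `ε ≤ 1/4` (`HE.mono`: `exp (L^(2/3 + min ε (1/4))) ≤ exp (L^(2/3+ε))`) and `C ≥ 1` (`HE` for larger `X` is stronger).  `L = log n`, `T = L^(A+1)`; let `M ≥ exp (L^(2/3+ε))`, `M T ≤ |F| ≤ n^C`.
(i) `|F| ≤ M^2 / 2`: `ek`: `10 M / |F| ≤ 10 / T = 10 L^(-A-1) ≤ L^(-A)` for `L ≥ 10`.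
(ii) `M^2 / 2 < |F| ≤ M^14`: `ed` (`M^(3/2) ≤ M^2/2` for `M ≥ 4`): `C₁ M^(-c) ≤ C₁ exp (-c L^(2/3)) ≤ L^(-A)` for large `L`.
(iii) `|F| > M^14`: let `N = ⌊M⌋₊` (`N ≤ M < N + 1`) and let `κ` be the least natural number with `|F| ≤ N^(4κ+1)` (it exists, `N ≥ 2`).  Since `|F| > M^14 ≥ N^14 > N^13` we have `κ ≥ 4`
and `N^(4κ-3) = N^(4(κ-1)+1) < |F|`.  From `N^(4κ-3) ≤ n^C`: `(4κ-3) log N ≤ C L`, `log N ≥ log (M/2) ≥ L^(2/3+ε) / 2`, so `κ ≤ 4 κ - 3 ≤ 2 C L^(1/3-ε)`.  So `(C₂ κ)^C₂ ≤ (2 C C₂ L)^C₂ ≤ N` and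
`N^(-c/κ^2) = exp (- c log N / κ^2) ≤ exp (- c L^(2/3+ε) / (2 · 4 C² L^(2/3-2ε))) = exp (- c' L^(3ε))`.  `ev` (with `a = ⌊x⌋₊ ≥ N`, `b = min ⌊y⌋₊ (2N)`; `⌊y⌋₊ ≤ ⌊2M⌋₊ ≤ 2N+1`, so at most one more
term) gives `≤ C₂ M exp (-c' L^(3ε)) + 1 ≤ L^(-A) M` for large `L` (`exp (-c' L^(3ε)) L^A → 0`; `M ≥ exp (L^(2/3))`).
-/

set_option autoImplicit false

open Finset
open Pool.Agent.H91.PK (ee)

namespace Pool.Agent.H70.LC2

open Filter in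
private theorem EE_ev (D B c e : ℝ) (hc : 0 < c) (he : 0 < e) :
    ∀ᶠ L : ℝ in atTop, D * L ^ B ≤ Real.exp (c * L ^ e) := by
  have h1 := isLittleO_rpow_exp_pos_mul_atTop (B / e) hc
  have h2 : Tendsto (fun L : ℝ => L ^ e) atTop atTop := tendsto_rpow_atTop he
  have h3 := h1.comp_tendsto h2
  have hD : 0 < |D| + 1 := by positivity
  have h4 := h3.def (c := 1 / (|D| + 1)) (by positivity)
  filter_upwards [h4, eventually_gt_atTop 0] with L hL hL0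
  simp only [Function.comp, Real.norm_eq_abs] at hL
  rw [← Real.rpow_mul hL0.le, mul_div_cancel₀ _ he.ne', abs_of_pos (Real.rpow_pos_of_pos hL0 _),
    abs_of_pos (Real.exp_pos _), one_div, inv_mul_eq_div, le_div_iff₀ hD] at hL
  have h5 : D * L ^ B ≤ L ^ B * (|D| + 1) := by
    have h6 : 0 < L ^ B := Real.rpow_pos_of_pos hL0 _
    have h7 := le_abs_self D
    nlinarith
  exact h5.trans hL

/-- at most one more term -/
private theorem EE_sum {f : ℕ → ℂ} (hf : ∀ n, ‖f n‖ ≤ 1) {a b N : ℕ} (hb : b ≤ N + 1) :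
    ‖∑ n ∈ Ioc a b, f n‖ ≤ ‖∑ n ∈ Ioc a (min b N), f n‖ + 1 := by
  rcases Nat.lt_or_ge N b with h | h
  · have hbN : b = N + 1 := by omega
    rw [hbN, min_eq_right (Nat.le_succ N)]
    rcases Nat.lt_or_ge N a with h1 | h1
    · rw [Finset.Ioc_eq_empty (by omega), Finset.sum_empty, norm_zero]
      positivity
    · rw [Finset.sum_Ioc_succ_top h1]
      refine (norm_add_le _ _).trans ?_
      have := hf (N + 1)
      linarith
  · rw [min_eq_left h]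
    linarith

private theorem EE_norm_ee (t : ℝ) : ‖ee t‖ ≤ 1 := (Pool.Agent.H91.PK.LSa_norm_ee t).le

/-- the case (iii) for one value of `L` -/
private theorem EE_big {c C₂ : ℝ} (hc : 0 < c) (hC₂ : 1 ≤ C₂)
    (hev : ∀ (κ N a b : ℕ) (F : ℝ), 4 ≤ κ → (C₂ * κ) ^ C₂ ≤ N → N ≤ a → b ≤ 2 * N →
    (N : ℝ) ^ (4 * κ - 3) ≤ |F| → |F| ≤ (N : ℝ) ^ (4 * κ + 1) →
    ‖∑ n ∈ Ioc a b, ee (F / n)‖ ≤ C₂ * (N : ℝ) ^ (1 - c / (κ : ℝ) ^ 2))
    {ε A C L M F : ℝ} (hC : 1 ≤ C) (hL : 1 ≤ L) (hε : 0 < ε)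
    (e1 : 4 ≤ Real.exp (L ^ (2 / 3 + ε)))
    (e3 : 2 * C₂ * L ^ A ≤ Real.exp (c / (8 * C ^ 2) * L ^ (3 * ε)))
    (e4 : 2 * L ^ A ≤ Real.exp (1 * L ^ (2 / 3 + ε)))
    (e5 : (2 * C * C₂) ^ C₂ * L ^ C₂ ≤ Real.exp (1 / 2 * L ^ (2 / 3 + ε)))
    (hM : Real.exp (L ^ (2 / 3 + ε)) ≤ M) (hF : M ^ 14 < |F|) (hF2 : |F| ≤ Real.exp (C * L)) :
    EB M F (L ^ (-A)) := by
  have hL0 : 0 < L := by linarith
  obtain ⟨G, hG⟩ : ∃ G : ℝ, G = L ^ (2 / 3 + ε) := ⟨_, rfl⟩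
  rw [← hG] at e1 e4 e5 hM
  have hM4 : 4 ≤ M := e1.trans hM
  have hM0 : 0 ≤ M := by linarith
  have hG0 : 0 < G := by rw [hG]; exact Real.rpow_pos_of_pos hL0 _
  obtain ⟨N, hN⟩ : ∃ N : ℕ, N = ⌊M⌋₊ := ⟨_, rfl⟩
  have hNM : (N : ℝ) ≤ M := by rw [hN]; exact Nat.floor_le hM0
  have hMN : M < N + 1 := by rw [hN]; exact Nat.lt_floor_add_one M
  have hN3 : (3 : ℝ) < N := by linarith
  have hN1 : (1 : ℝ) ≤ N := by linarith
  have hN0 : (0 : ℝ) < N := by linarith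
  have hNhalf : M / 2 ≤ N := by linarith
  -- `log N`
  have hlogN : G / 2 ≤ Real.log N := by
    rw [Real.le_log_iff_exp_le hN0]
    have h1 : Real.exp (G / 2) * Real.exp (G / 2) = Real.exp G := by
      rw [← Real.exp_add]
      congr 1
      ring
    have h2 : 0 < Real.exp (G / 2) := Real.exp_pos _
    have h3 : 2 ≤ Real.exp (G / 2) := by
      by_contra hcon
      push Not at hcon
      nlinarith
    nlinarith
  have hlogN0 : 0 < Real.log N := by linarith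
  -- the least `κ`
  have hex : ∃ κ : ℕ, |F| ≤ (N : ℝ) ^ (4 * κ + 1) := by
    obtain ⟨k, hk⟩ := pow_unbounded_of_one_lt |F| (by linarith : (1 : ℝ) < N)
    exact ⟨k, hk.le.trans (pow_le_pow_right₀ hN1 (by omega))⟩
  classical
  obtain ⟨κ, hκ⟩ : ∃ κ : ℕ, κ = Nat.find hex := ⟨_, rfl⟩
  have hκ1 : |F| ≤ (N : ℝ) ^ (4 * κ + 1) := by rw [hκ]; exact Nat.find_spec hex
  have hκ4 : 4 ≤ κ := by
    by_contra hcon
    push Not at hcon
    have h1 : (N : ℝ) ^ (4 * κ + 1) ≤ (N : ℝ) ^ 14 := pow_le_pow_right₀ hN1 (by omega)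
    have h2 : (N : ℝ) ^ 14 ≤ M ^ 14 := pow_le_pow_left₀ hN0.le hNM _
    linarith
  have hκ2 : (N : ℝ) ^ (4 * κ - 3) ≤ |F| := by
    have h1 : κ - 1 < Nat.find hex := by rw [← hκ]; omega
    have h2 := Nat.find_min hex h1
    push Not at h2
    rw [show 4 * (κ - 1) + 1 = 4 * κ - 3 by omega] at h2
    exact h2.le
  -- the size of `κ`
  have hκ3 : ((4 * κ - 3 : ℕ) : ℝ) * Real.log N ≤ C * L := by
    have h1 := hκ2.trans hF2
    have h2 := Real.log_le_log (by positivity) h1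
    rw [Real.log_exp, Real.log_pow] at h2
    exact h2
  have hκ0 : (0 : ℝ) < κ := by exact_mod_cast (by omega : 0 < κ)
  have hκ5 : (κ : ℝ) * (G / 2) ≤ C * L := by
    have h1 : (κ : ℝ) ≤ ((4 * κ - 3 : ℕ) : ℝ) := by exact_mod_cast (by omega : κ ≤ 4 * κ - 3)
    calc (κ : ℝ) * (G / 2) ≤ ((4 * κ - 3 : ℕ) : ℝ) * Real.log N :=
          mul_le_mul h1 hlogN (by linarith) (by positivity)
      _ ≤ _ := hκ3
  have hGL : G * L ^ (1 / 3 - ε) = L := by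
    rw [hG, ← Real.rpow_add hL0]
    rw [show (2 : ℝ) / 3 + ε + (1 / 3 - ε) = 1 by ring, Real.rpow_one]
  have hκ6 : (κ : ℝ) ≤ 2 * C * L ^ (1 / 3 - ε) := by
    have h1 : (κ : ℝ) * G ≤ 2 * C * L ^ (1 / 3 - ε) * G := by
      calc (κ : ℝ) * G = 2 * ((κ : ℝ) * (G / 2)) := by ring
        _ ≤ 2 * (C * L) := by linarith
        _ = 2 * C * (G * L ^ (1 / 3 - ε)) := by rw [hGL]; ring
        _ = _ := by ring
    exact le_of_mul_le_mul_right h1 hG0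
  have hκ7 : (κ : ℝ) ≤ 2 * C * L := by
    refine hκ6.trans (mul_le_mul_of_nonneg_left ?_ (by linarith))
    calc L ^ (1 / 3 - ε) ≤ L ^ (1 : ℝ) := Real.rpow_le_rpow_of_exponent_le hL (by linarith)
      _ = L := Real.rpow_one L
  have hκ8 : (C₂ * κ) ^ C₂ ≤ N := by
    calc (C₂ * (κ : ℝ)) ^ C₂ ≤ ((2 * C * C₂) * L) ^ C₂ := by
          refine Real.rpow_le_rpow (by positivity) ?_ (by linarith)
          calc C₂ * (κ : ℝ) ≤ C₂ * (2 * C * L) := mul_le_mul_of_nonneg_left hκ7 (by linarith)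
            _ = _ := by ring
      _ = (2 * C * C₂) ^ C₂ * L ^ C₂ := Real.mul_rpow (by positivity) hL0.le
      _ ≤ Real.exp (1 / 2 * G) := e5
      _ ≤ N := by
          rw [← Real.le_log_iff_exp_le hN0]
          linarith
  -- the saving
  have hsave : c / (8 * C ^ 2) * L ^ (3 * ε) ≤ c / (κ : ℝ) ^ 2 * Real.log N := by
    have h1 : (κ : ℝ) ^ 2 ≤ (2 * C * L ^ (1 / 3 - ε)) ^ 2 := pow_le_pow_left₀ hκ0.le hκ6 2
    have h2 : L ^ (3 * ε) * (L ^ (1 / 3 - ε)) ^ 2 = G := by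
      rw [← Real.rpow_natCast, ← Real.rpow_mul hL0.le, ← Real.rpow_add hL0, hG]
      congr 1
      push_cast
      ring
    have h3 : 0 < L ^ (3 * ε) := Real.rpow_pos_of_pos hL0 _
    have h4 : L ^ (3 * ε) * (κ : ℝ) ^ 2 ≤ 4 * C ^ 2 * G := by
      calc L ^ (3 * ε) * (κ : ℝ) ^ 2 ≤ L ^ (3 * ε) * (2 * C * L ^ (1 / 3 - ε)) ^ 2 :=
            mul_le_mul_of_nonneg_left h1 h3.le
        _ = 4 * C ^ 2 * (L ^ (3 * ε) * (L ^ (1 / 3 - ε)) ^ 2) := by ring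
        _ = _ := by rw [h2]
    rw [div_mul_eq_mul_div, div_mul_eq_mul_div, div_le_div_iff₀ (by positivity) (by positivity)]
    calc c * L ^ (3 * ε) * (κ : ℝ) ^ 2 = c * (L ^ (3 * ε) * (κ : ℝ) ^ 2) := by ring
      _ ≤ c * (4 * C ^ 2 * G) := mul_le_mul_of_nonneg_left h4 hc.le
      _ ≤ c * (8 * C ^ 2 * Real.log N) := by
          refine mul_le_mul_of_nonneg_left ?_ hc.le
          have : 0 ≤ C ^ 2 := by positivity
          nlinarith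
      _ = _ := by ring
  have hpow : (N : ℝ) ^ (1 - c / (κ : ℝ) ^ 2) ≤ M * Real.exp (-(c / (8 * C ^ 2) * L ^ (3 * ε))) := by
    rw [sub_eq_add_neg, Real.rpow_add hN0, Real.rpow_one]
    refine mul_le_mul hNM ?_ (by positivity) hM0
    rw [Real.rpow_def_of_pos hN0]
    refine Real.exp_le_exp.2 ?_
    calc Real.log N * -(c / (κ : ℝ) ^ 2) = -(c / (κ : ℝ) ^ 2 * Real.log N) := by ring
      _ ≤ _ := neg_le_neg hsave
  have hLA : 0 < L ^ A := Real.rpow_pos_of_pos hL0 _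
  have hLA' : L ^ (-A) = (L ^ A)⁻¹ := Real.rpow_neg hL0.le _
  intro x y hx hxy hy
  have hNx : N ≤ ⌊x⌋₊ := by rw [hN]; exact Nat.floor_le_floor hx
  have hy2 : ⌊y⌋₊ ≤ 2 * N + 1 := by
    have h1 : y < ((2 * N + 1 + 1 : ℕ) : ℝ) := by
      push_cast
      linarith
    exact Nat.lt_succ_iff.1 ((Nat.floor_lt (by linarith)).2 h1)
  have h1 := EE_sum (f := fun d => ee (F / d)) (fun d => EE_norm_ee _) (a := ⌊x⌋₊) hy2
  have h2 := hev κ N ⌊x⌋₊ (min ⌊y⌋₊ (2 * N)) F hκ4 hκ8 hNx (min_le_right _ _) hκ2 hκ1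
  have h3 : C₂ * (N : ℝ) ^ (1 - c / (κ : ℝ) ^ 2) ≤ (L ^ A)⁻¹ * M / 2 := by
    have h4 : C₂ * Real.exp (-(c / (8 * C ^ 2) * L ^ (3 * ε))) ≤ (L ^ A)⁻¹ / 2 := by
      rw [Real.exp_neg, ← div_eq_mul_inv, div_le_iff₀ (Real.exp_pos _), inv_eq_one_div,
        div_div, div_mul_eq_mul_div, one_mul, le_div_iff₀ (by positivity)]
      calc C₂ * (L ^ A * 2) = 2 * C₂ * L ^ A := by ring
        _ ≤ _ := e3
    calc C₂ * (N : ℝ) ^ (1 - c / (κ : ℝ) ^ 2)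
        ≤ C₂ * (M * Real.exp (-(c / (8 * C ^ 2) * L ^ (3 * ε)))) :=
          mul_le_mul_of_nonneg_left hpow (by linarith)
      _ = (C₂ * Real.exp (-(c / (8 * C ^ 2) * L ^ (3 * ε)))) * M := by ring
      _ ≤ (L ^ A)⁻¹ / 2 * M := mul_le_mul_of_nonneg_right h4 hM0
      _ = _ := by ring
  have h5 : 1 ≤ (L ^ A)⁻¹ * M / 2 := by
    rw [one_mul] at e4
    have h6 := e4.trans hM
    rw [inv_mul_eq_div, div_div, le_div_iff₀ (by positivity)]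
    linarith
  rw [hLA']
  calc ‖∑ d ∈ Ioc ⌊x⌋₊ ⌊y⌋₊, ee (F / d)‖ ≤ _ := h1
    _ ≤ C₂ * (N : ℝ) ^ (1 - c / (κ : ℝ) ^ 2) + 1 := by linarith
    _ ≤ _ := by linarith

open Filter in
private theorem EE_core (ε A C : ℝ) (hε : 0 < ε) (hC : 1 ≤ C) :
    ∀ᶠ L : ℝ in atTop, HE (Real.exp (C * L)) (L ^ (-A)) (L ^ (A + 1))
      (Real.exp (L ^ (2 / 3 + ε))) := by
  obtain ⟨C₁, c₁, hC₁, hc₁, hed⟩ := ed
  obtain ⟨c, C₂, hc, hC₂, hev⟩ := ev
  have hb : (0 : ℝ) < 2 / 3 + ε := by positivity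
  have e1 := EE_ev 4 0 1 (2 / 3 + ε) one_pos hb
  have e2 := EE_ev C₁ A c₁ (2 / 3 + ε) hc₁ hb
  have e3 := EE_ev (2 * C₂) A (c / (8 * C ^ 2)) (3 * ε) (by positivity) (by positivity)
  have e4 := EE_ev 2 A 1 (2 / 3 + ε) one_pos hb
  have e5 := EE_ev ((2 * C * C₂) ^ C₂) C₂ (1 / 2) (2 / 3 + ε) (by norm_num) hb
  filter_upwards [e1, e2, e3, e4, e5, eventually_ge_atTop 10] with L e1 e2 e3 e4 e5 hL
  have hL0 : 0 < L := by linarith
  rw [Real.rpow_zero, mul_one, one_mul] at e1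
  intro M F hM hMF hF
  have hM4 : 4 ≤ M := e1.trans hM
  have hM0 : 0 < M := by linarith
  have hLA : 0 < L ^ A := Real.rpow_pos_of_pos hL0 _
  have hLA' : L ^ (-A) = (L ^ A)⁻¹ := Real.rpow_neg hL0.le _
  have hT : 0 < L ^ (A + 1) := Real.rpow_pos_of_pos hL0 _
  have hT' : L ^ (A + 1) = L ^ A * L := by rw [Real.rpow_add hL0, Real.rpow_one]
  have hF0 : 0 < |F| := lt_of_lt_of_le (mul_pos hM0 hT) hMF
  rcases le_or_gt |F| (M ^ 2 / 2) with h1 | h1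
  · refine (ek (by linarith) (abs_pos.1 hF0) h1).mono hM0.le ?_
    rw [hLA', inv_eq_one_div, div_le_div_iff₀ hF0 hLA]
    rw [hT'] at hMF
    calc 10 * M * L ^ A ≤ L * M * L ^ A := by gcongr
      _ = M * (L ^ A * L) := by ring
      _ ≤ |F| := hMF
      _ = 1 * |F| := (one_mul _).symm
  · rcases le_or_gt |F| (M ^ 14) with h2 | h2
    · have h3 : M ^ (3 / 2 : ℝ) ≤ |F| := by
        have h4 : M ^ (3 / 2 : ℝ) * M ^ (1 / 2 : ℝ) = M ^ 2 := by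
          rw [← Real.rpow_add hM0, ← Real.rpow_natCast]
          norm_num
        have h5 : 2 ≤ M ^ (1 / 2 : ℝ) := by
          rw [← Real.sqrt_eq_rpow]
          exact Real.le_sqrt_of_sq_le (by linarith)
        have h6 : 0 < M ^ (3 / 2 : ℝ) := Real.rpow_pos_of_pos hM0 _
        nlinarith
      refine (hed M F (by linarith) h3 (by exact_mod_cast h2)).mono hM0.le ?_
      have h4 : M ^ (-c₁) ≤ (Real.exp (c₁ * L ^ (2 / 3 + ε)))⁻¹ := by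
        rw [Real.rpow_neg hM0.le]
        refine inv_anti₀ (Real.exp_pos _) ?_
        rw [Real.rpow_def_of_pos hM0]
        refine Real.exp_le_exp.2 ?_
        have h5 : L ^ (2 / 3 + ε) ≤ Real.log M := (Real.le_log_iff_exp_le hM0).2 hM
        rw [mul_comm]
        exact mul_le_mul_of_nonneg_right h5 hc₁.le
      calc C₁ * M ^ (-c₁) ≤ C₁ * (Real.exp (c₁ * L ^ (2 / 3 + ε)))⁻¹ :=
            mul_le_mul_of_nonneg_left h4 hC₁.le
        _ ≤ L ^ (-A) := by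
            rw [hLA', ← div_eq_mul_inv, div_le_iff₀ (Real.exp_pos _), inv_mul_eq_div,
              le_div_iff₀ hLA]
            exact e2
    · exact EE_big hc hC₂ hev hC (by linarith) hε e1 e3 e4 e5 hM h2 hF

theorem he_main (ε A C : ℝ) (hε : 0 < ε) (hA : 0 < A) : ∃ n₀ : ℝ, ∀ n : ℝ, n₀ ≤ n →
    HE (n ^ C) (Real.log n ^ (-A)) (Real.log n ^ (A + 1)) (Real.exp (Real.log n ^ (2 / 3 + ε))) := by
  have h1 := Real.tendsto_log_atTop.eventually (EE_core ε A (max C 1) hε (le_max_right _ _))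
  have h2 := h1.and (Filter.eventually_ge_atTop 1)
  obtain ⟨n₀, hn₀⟩ := Filter.eventually_atTop.1 h2
  refine ⟨n₀, fun n hn M F hM hMF hF => (hn₀ n hn).1 M F hM hMF ?_⟩
  have hn1 := (hn₀ n hn).2
  have hn0 : 0 < n := by linarith
  refine hF.trans ?_
  rw [Real.rpow_def_of_pos hn0]
  refine Real.exp_le_exp.2 ?_
  rw [mul_comm]
  exact mul_le_mul_of_nonneg_right (le_max_left _ _) (Real.log_nonneg hn1)

end Pool.Agent.H70.LC2
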