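import Pool.Agent.H70.LC2.Defs
import Pool.Agent.H87T.Kusmin
import Pool.Agent.H91.PK.LSa

/-!
# LC2 EK: small frequencies (Kusmin-Landau)

`ek`.  `ee (F/d) = ei (2 π F / d)` (`ei θ = exp (i θ)`, `Pool.Agent.H87T.Defs`).  Conjugation reduces to `F > 0` (`ee (-t) = conj (ee t)`).
Let `a = ⌊x⌋₊ + 1`, `I = ⌊y⌋₊ - ⌊x⌋₊`, `φ n = 2 π F / (a + n)`; for `n + 1 < I`, `d = a + n`: `d ≥ a > x ≥ M`, `d + 1 ≤ ⌊y⌋₊ ≤ 2 M`, so
`φ (n+1) - φ n = - 2 π F / (d (d+1))` lies between `- 2 π F / M^2 ≥ - π` and `- 2 π F / (4 M^2) = - θ`, `θ = π F / (2 M^2) ≤ π / 4`; it is increasing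
in `n`.  So `kusmin φ I (-1) θ` gives the bound `9 / θ = 18 M^2 / (π F) ≤ 10 M^2 / F`.  (`∑ d ∈ Ioc ⌊x⌋₊ ⌊y⌋₊` = `∑ n ∈ range I`: `Finset.sum_Ioc_eq..`,
`Finset.range_eq_Ico`, `Finset.sum_Ico_add'`.)
-/

set_option autoImplicit false

open Finset
open Pool.Agent.H91.PK (ee)

namespace Pool.Agent.H70.LC2

private theorem ek_pos {M F : ℝ} (hM : 1 ≤ M) (hF : 0 < F) (hF2 : F ≤ M ^ 2 / 2) (x y : ℝ)
    (hx : M ≤ x) (hxy : x ≤ y) (hy : y ≤ 2 * M) :
    ‖∑ d ∈ Ioc ⌊x⌋₊ ⌊y⌋₊, ee (F / d)‖ ≤ 10 * M / F * M := by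
  have hpi := Real.pi_pos
  have hpi3 := Real.pi_gt_three
  have hM2 : 0 < M ^ 2 := by positivity
  have hM0 : 0 < M := by linarith
  set a : ℕ := ⌊x⌋₊ + 1 with ha
  set I : ℕ := ⌊y⌋₊ - ⌊x⌋₊ with hI
  set φ : ℕ → ℝ := fun n => 2 * Real.pi * F / ((a : ℝ) + n) with hφ
  have hfl : ⌊x⌋₊ ≤ ⌊y⌋₊ := Nat.floor_le_floor hxy
  have hsum : ∑ d ∈ Ioc ⌊x⌋₊ ⌊y⌋₊, ee (F / d) = ∑ n ∈ range I, Pool.Agent.H87T.ei (φ n) := by
    have h1 : Ioc ⌊x⌋₊ ⌊y⌋₊ = (range I).image (fun n => a + n) := by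
      ext d
      simp only [mem_Ioc, mem_image, mem_range]
      constructor
      · rintro ⟨h1, h2⟩
        exact ⟨d - a, by omega, by omega⟩
      · rintro ⟨n, h1, h2⟩
        omega
    rw [h1, sum_image (by intro u _ v _ h; simpa using h)]
    refine sum_congr rfl fun n _ => ?_
    unfold Pool.Agent.H87T.ei Pool.Agent.H91.PK.ee
    congr 1
    simp only [hφ]
    push_cast
    ring
  rw [hsum]
  have hax : x < (a : ℝ) := by
    have := Nat.lt_floor_add_one x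
    rw [ha]; push_cast; exact this
  have haM : M < (a : ℝ) := lt_of_le_of_lt hx hax
  have hdiff : ∀ n : ℕ, φ (n + 1) - φ n
      = - (2 * Real.pi * F / (((a : ℝ) + n) * ((a : ℝ) + n + 1))) := by
    intro n
    simp only [hφ]
    have h1 : (0 : ℝ) < (a : ℝ) + n := by positivity
    have h2 : (0 : ℝ) < (a : ℝ) + n + 1 := by positivity
    push_cast
    rw [← add_assoc]
    field_simp
    ring
  have hk := Pool.Agent.H87T.kusmin φ I (-1) (Real.pi * F / (2 * M ^ 2)) (by positivity)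
    (by
      rw [div_le_iff₀ (by positivity)]
      nlinarith)
    (by
      intro n hn
      rw [hdiff n]
      have hn0 : (0 : ℝ) ≤ n := Nat.cast_nonneg n
      have hd1 : M ≤ (a : ℝ) + n := by linarith
      have hd2 : (a : ℝ) + n + 1 ≤ 2 * M := by
        have h1 : a + n + 1 ≤ ⌊y⌋₊ := by omega
        have h2 : ((a + n + 1 : ℕ) : ℝ) ≤ y :=
          le_trans (by exact_mod_cast h1) (Nat.floor_le (by linarith))
        push_cast at h2
        linarith
      have hprod1 : M ^ 2 ≤ ((a : ℝ) + n) * ((a : ℝ) + n + 1) := by nlinarith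
      have hprod2 : ((a : ℝ) + n) * ((a : ℝ) + n + 1) ≤ 4 * M ^ 2 := by nlinarith
      have hprod0 : 0 < ((a : ℝ) + n) * ((a : ℝ) + n + 1) := lt_of_lt_of_le hM2 hprod1
      have hθ : Real.pi * F / (2 * M ^ 2) ≤ Real.pi := by
        rw [div_le_iff₀ (by positivity)]
        nlinarith
      constructor
      · have h1 : 2 * Real.pi * F / (((a : ℝ) + n) * ((a : ℝ) + n + 1)) ≤ Real.pi := by
          rw [div_le_iff₀ hprod0]
          nlinarith [mul_le_mul_of_nonneg_left (le_trans hF2 (by linarith : M ^ 2 / 2 ≤ ((a : ℝ) + n) * ((a : ℝ) + n + 1) / 2)) hpi.le]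
        push_cast
        linarith
      · have h1 : Real.pi * F / (2 * M ^ 2) ≤ 2 * Real.pi * F / (((a : ℝ) + n) * ((a : ℝ) + n + 1)) := by
          rw [div_le_div_iff₀ (by positivity) hprod0]
          have hpf : 0 < Real.pi * F := by positivity
          nlinarith [mul_le_mul_of_nonneg_left hprod2 hpf.le]
        push_cast
        linarith)
    (by
      intro n _
      have e2 := hdiff (n + 1)
      have e1 := hdiff n
      rw [show n + 2 = n + 1 + 1 from rfl, e2, e1]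
      have hn0 : (0 : ℝ) ≤ n := Nat.cast_nonneg n
      have ha0 : (0 : ℝ) < a := by linarith
      rw [neg_le_neg_iff]
      apply div_le_div_of_nonneg_left (by positivity) (by positivity)
      push_cast
      nlinarith)
  refine hk.trans ?_
  rw [div_le_iff₀ (by positivity)]
  have : 10 * M / F * M * (Real.pi * F / (2 * M ^ 2)) = 5 * Real.pi := by
    field_simp
    ring
  rw [this]
  linarith

theorem ek {M F : ℝ} (hM : 1 ≤ M) (hF : F ≠ 0) (hF2 : |F| ≤ M ^ 2 / 2) : EB M F (10 * M / |F|) := by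
  intro x y hx hxy hy
  rcases lt_or_gt_of_ne hF with h | h
  · have h1 : ∑ d ∈ Ioc ⌊x⌋₊ ⌊y⌋₊, ee (F / d)
        = (starRingEnd ℂ) (∑ d ∈ Ioc ⌊x⌋₊ ⌊y⌋₊, ee (-F / d)) := by
      rw [map_sum]
      refine sum_congr rfl fun d _ => ?_
      rw [Pool.Agent.H91.PK.LSa_conj_ee]
      congr 1
      ring
    rw [h1, RCLike.norm_conj, abs_of_neg h]
    exact ek_pos hM (by linarith) (by rwa [abs_of_neg h] at hF2) x y hx hxy hy
  · rw [abs_of_pos h]
    exact ek_pos hM h (by rwa [abs_of_pos h] at hF2) x y hx hxy hy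

end Pool.Agent.H70.LC2
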