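import Pool.Agent.H70.LC2.LB

/-!
# LC2 SC: the contradiction from the resonance

`prop_exact`: `x = n + i`, `y = m + j`, `1 ≤ i, j ≤ k`: `b y - a x = (b m - a n) + (b j - a i)`, `|b j - a i| ≤ H k` (`0 < b, a ≤ H`), so `|b y - a x| < Q + H k ≤ p`, and `p ∣ b y - a x` (integers), so `b y = a x`.
`sc_main`.  `L = log n`, `Q = 6 k H L^6`, `R = ⌈12 k H L^6⌉₊` (so `Q + H k ≤ R`), and we take primes `p ∈ (R, 2R]`; `H < R`.  `lb_main ε 9` is used with `P = R`, `N ∈ [n, 2n]`, `K ∈ {k, k/4}` (`R ≤ 13 k H L^6 ≤ 26 k L^8 ≤ (k/4) L^9`; `R ≤ n^(13/20)`; `b ≤ H ≤ L^9`; the sum is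
positive, so the set is not empty): there are a prime `p ∈ (R, 2R]` and `q` with `N < p (b q + 1) ≤ N + K`.
Case `b ≥ 2`: `N = n`, `K = k`, `x = p (b q + 1)`.  If `p ∣ y`, `y ∈ (m, m+k]`, then `b y = a x`, so `b ∣ a x`, `b ∣ x` (coprime), `b ∣ b q + 1` (`p` is a prime `> H > b`, so coprime to `b`), `b ∣ 1`: contradiction.
Case `b = 1`, `a = 1`: `N = n`, `K = k`, `x = p (q + 1)`; `y = x`, but `y > m ≥ n + k ≥ x`.
Case `b = 1`, `a ≥ 2`: if `m ≥ a (n + k/4)` take `N = n`, `K = k/4`, otherwise `N = n + 3k/4`, `K = k/4` (then `m + k < a (n + k/4) + k ≤ a (n + 3k/4) < a x`, as `k ≤ a k/2`); `y = a x` is not in `(m, m + k]`.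
-/

set_option autoImplicit false

open Finset

namespace Pool.Agent.H70.LC2

theorem prop_exact {n m k H a b p x y : ℕ} {Q : ℝ} (hb : b ≤ H) (ha : a ≤ H) (hQ : |(b : ℝ) * m - a * n| < Q)
    (hp : Q + H * k ≤ p) (hx : x ∈ Ioc n (n + k)) (hy : y ∈ Ioc m (m + k)) (hpx : p ∣ x) (hpy : p ∣ y) : b * y = a * x := by
  rw [mem_Ioc] at hx hy
  obtain ⟨i, rfl⟩ := Nat.exists_eq_add_of_le hx.1.le
  obtain ⟨j, rfl⟩ := Nat.exists_eq_add_of_le hy.1.le
  have hi : i ≤ k := by omega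
  have hj : j ≤ k := by omega
  have h1 : ((b * j : ℕ) : ℝ) ≤ H * k := by
    have : b * j ≤ H * k := Nat.mul_le_mul hb hj
    exact_mod_cast this
  have h2 : ((a * i : ℕ) : ℝ) ≤ H * k := by
    have : a * i ≤ H * k := Nat.mul_le_mul ha hi
    exact_mod_cast this
  have h1' : (0 : ℝ) ≤ ((b * j : ℕ) : ℝ) := Nat.cast_nonneg _
  have h2' : (0 : ℝ) ≤ ((a * i : ℕ) : ℝ) := Nat.cast_nonneg _
  have h3 : |((b * (m + j) : ℕ) : ℝ) - ((a * (n + i) : ℕ) : ℝ)| < p := by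
    have e : ((b * (m + j) : ℕ) : ℝ) - ((a * (n + i) : ℕ) : ℝ) =
        ((b : ℝ) * m - a * n) + (((b * j : ℕ) : ℝ) - ((a * i : ℕ) : ℝ)) := by
      push_cast
      ring
    rw [e]
    have h4 : |((b * j : ℕ) : ℝ) - ((a * i : ℕ) : ℝ)| ≤ H * k := by
      rw [abs_le]
      constructor
      · linarith
      · linarith
    calc _ ≤ |(b : ℝ) * m - a * n| + |((b * j : ℕ) : ℝ) - ((a * i : ℕ) : ℝ)| := abs_add_le _ _
      _ < Q + H * k := by linarith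
      _ ≤ p := hp
  have h5 : |((b * (m + j) : ℕ) : ℤ) - ((a * (n + i) : ℕ) : ℤ)| < (p : ℤ) := by
    have : ((|((b * (m + j) : ℕ) : ℤ) - ((a * (n + i) : ℕ) : ℤ)| : ℤ) : ℝ) < ((p : ℤ) : ℝ) := by
      push_cast at h3 ⊢
      exact h3
    exact_mod_cast this
  have h6 : (p : ℤ) ∣ ((b * (m + j) : ℕ) : ℤ) - ((a * (n + i) : ℕ) : ℤ) :=
    dvd_sub (Int.natCast_dvd_natCast.2 (hpy.mul_left b)) (Int.natCast_dvd_natCast.2 (hpx.mul_left a))
  have h7 := Int.eq_zero_of_abs_lt_dvd h6 h5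
  have h8 : ((b * (m + j) : ℕ) : ℤ) = ((a * (n + i) : ℕ) : ℤ) := by omega
  exact_mod_cast h8

/-- the size conditions -/
private theorem sizes (n₁ : ℝ) : ∃ n₀ : ℕ, ∀ n : ℕ, n₀ ≤ n → n₁ ≤ n ∧ 1 ≤ n ∧ 104 ≤ Real.log n ∧
    26 * Real.log n ^ 8 ≤ (n : ℝ) ^ (1 / 20 : ℝ) := by
  have h1 : ∀ᶠ x : ℝ in Filter.atTop, 26 * Real.log x ^ 8 ≤ x ^ (1 / 20 : ℝ) := by
    have h2 := (isLittleO_log_rpow_rpow_atTop (8 : ℝ) (show (0 : ℝ) < 1 / 20 by norm_num)).bound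
      (show (0 : ℝ) < 1 / 26 by norm_num)
    filter_upwards [h2, Filter.eventually_ge_atTop (1 : ℝ)] with x hx hx1
    have h3 : 0 ≤ Real.log x := Real.log_nonneg hx1
    have e : Real.log x ^ (8 : ℝ) = Real.log x ^ 8 := by exact_mod_cast Real.rpow_natCast (Real.log x) 8
    rw [e, Real.norm_of_nonneg (by positivity), Real.norm_of_nonneg (by positivity)] at hx
    linarith
  have h2 : ∀ᶠ x : ℝ in Filter.atTop, 104 ≤ Real.log x := Real.tendsto_log_atTop.eventually_ge_atTop 104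
  have h3 : ∀ᶠ x : ℝ in Filter.atTop, n₁ ≤ x ∧ 1 ≤ x ∧ 104 ≤ Real.log x ∧ 26 * Real.log x ^ 8 ≤ x ^ (1 / 20 : ℝ) :=
    (Filter.eventually_ge_atTop n₁).and ((Filter.eventually_ge_atTop 1).and (h2.and h1))
  obtain ⟨n₀, h4⟩ := Filter.eventually_atTop.1 (tendsto_natCast_atTop_atTop.eventually h3)
  refine ⟨n₀, fun n hn => ?_⟩
  obtain ⟨h5, h6, h7, h8⟩ := h4 n hn
  exact ⟨h5, by exact_mod_cast h6, h7, h8⟩

/-- a prime with a multiple in a given interval -/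
private theorem exists_prime (ε : ℝ) (hε : 0 < ε) : ∃ n₀ : ℕ, ∀ n k H R b : ℕ, n₀ ≤ n → H = ⌈Real.log n ^ 2⌉₊ →
    Real.exp (Real.log n ^ (2 / 3 + ε)) ≤ k → (k : ℝ) ≤ (n : ℝ) ^ (3 / 5 : ℝ) → 1 ≤ b → b < H →
    R = ⌈12 * k * H * Real.log n ^ 6⌉₊ →
    ((6 * k * H : ℕ) : ℝ) * Real.log n ^ 6 + H * k ≤ R ∧ H < R ∧ k ≤ R ∧ 1 ≤ k ∧
    ∀ N K : ℝ, n ≤ N → N ≤ n + k → (k : ℝ) / 4 ≤ K → K ≤ k →
      ∃ p q : ℕ, p.Prime ∧ R < p ∧ N < (p : ℝ) * (b * q + 1) ∧ (p : ℝ) * (b * q + 1) ≤ N + K := by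
  classical
  obtain ⟨n₁, h1⟩ := lb_main ε 9 hε (by norm_num)
  obtain ⟨n₀, h2⟩ := sizes n₁
  refine ⟨n₀, ?_⟩
  intro n k H R b hn hH hk hkn hb hbH hR
  obtain ⟨hn1, hn2, hL, hL8⟩ := h2 n hn
  set L : ℝ := Real.log n with hLdef
  have hn3 : (1 : ℝ) ≤ n := by exact_mod_cast hn2
  have hL0 : 0 < L := by linarith
  have hk1 : 1 ≤ k := by
    rcases Nat.eq_zero_or_pos k with h | h
    · exfalso
      rw [h] at hk
      have := Real.exp_pos (L ^ (2 / 3 + ε))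
      simp only [Nat.cast_zero] at hk
      linarith
    · exact h
  have hk1' : (1 : ℝ) ≤ k := by exact_mod_cast hk1
  have hL2 : (1 : ℝ) ≤ L ^ 2 := one_le_pow₀ (by linarith)
  have hL6 : (1 : ℝ) ≤ L ^ 6 := one_le_pow₀ (by linarith)
  have hH1 : L ^ 2 ≤ H := by
    rw [hH]
    exact Nat.le_ceil _
  have hH2 : (H : ℝ) ≤ 2 * L ^ 2 := by
    rw [hH]
    have := Nat.ceil_lt_add_one (show (0 : ℝ) ≤ L ^ 2 by positivity)
    linarith
  have hH1' : (1 : ℝ) ≤ H := hL2.trans hH1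
  have hkH : (1 : ℝ) ≤ (k : ℝ) * H := by nlinarith
  have hkHL : (k : ℝ) * H ≤ k * H * L ^ 6 := by
    have : 0 ≤ (k : ℝ) * H := by positivity
    nlinarith
  have hR1 : 12 * (k : ℝ) * H * L ^ 6 ≤ R := by
    rw [hR]
    exact Nat.le_ceil _
  have hR2 : (R : ℝ) ≤ 13 * k * H * L ^ 6 := by
    rw [hR]
    have := Nat.ceil_lt_add_one (show (0 : ℝ) ≤ 12 * k * H * L ^ 6 by positivity)
    linarith
  have hR3 : (R : ℝ) ≤ 26 * k * L ^ 8 := by
    refine hR2.trans ?_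
    have h3 : (k : ℝ) * L ^ 6 * H ≤ k * L ^ 6 * (2 * L ^ 2) := mul_le_mul_of_nonneg_left hH2 (by positivity)
    have e : (k : ℝ) * L ^ 6 * (2 * L ^ 2) = 2 * (k * L ^ 8) := by ring
    rw [e] at h3
    linarith
  have hkR : (k : ℝ) ≤ R := by
    have : (k : ℝ) * 1 ≤ k * H := mul_le_mul_of_nonneg_left hH1' (by positivity)
    linarith
  refine ⟨?_, ?_, by exact_mod_cast hkR, hk1, ?_⟩
  · push_cast
    linarith
  · have : (H : ℝ) < R := by
      have h3 : (1 : ℝ) * H ≤ k * H := mul_le_mul_of_nonneg_right hk1' (by positivity)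
      linarith
    exact_mod_cast this
  intro N K hN1 hN2 hK1 hK2
  have e9 : L ^ (9 : ℝ) = L ^ 9 := by exact_mod_cast Real.rpow_natCast L 9
  have hbL : (b : ℝ) ≤ L ^ (9 : ℝ) := by
    rw [e9]
    have h3 : (b : ℝ) ≤ H := by exact_mod_cast hbH.le
    have h4 : 2 * L ^ 2 ≤ L ^ 9 := by
      have h5 : (2 : ℝ) ≤ L ^ 7 := by
        calc (2 : ℝ) ≤ L := by linarith
          _ = L ^ 1 := (pow_one L).symm
          _ ≤ L ^ 7 := pow_le_pow_right₀ (by linarith) (by norm_num)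
      calc 2 * L ^ 2 ≤ L ^ 7 * L ^ 2 := mul_le_mul_of_nonneg_right h5 (by positivity)
        _ = L ^ 9 := by ring
    linarith
  have hRn : (R : ℝ) ≤ (n : ℝ) ^ (13 / 20 : ℝ) := by
    refine hR3.trans ?_
    have e : (n : ℝ) ^ (13 / 20 : ℝ) = (n : ℝ) ^ (3 / 5 : ℝ) * (n : ℝ) ^ (1 / 20 : ℝ) := by
      rw [← Real.rpow_add (by linarith)]
      norm_num
    rw [e]
    calc 26 * (k : ℝ) * L ^ 8 = k * (26 * L ^ 8) := by ring
      _ ≤ (n : ℝ) ^ (3 / 5 : ℝ) * (n : ℝ) ^ (1 / 20 : ℝ) := mul_le_mul hkn hL8 (by positivity) (by positivity)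
  have hkn1 : (k : ℝ) ≤ n := by
    refine hkn.trans ?_
    calc (n : ℝ) ^ (3 / 5 : ℝ) ≤ (n : ℝ) ^ (1 : ℝ) := Real.rpow_le_rpow_of_exponent_le hn3 (by norm_num)
      _ = n := Real.rpow_one _
  have hKR : (R : ℝ) ≤ K * L ^ (9 : ℝ) := by
    rw [e9]
    calc (R : ℝ) ≤ 26 * k * L ^ 8 := hR3
      _ = (k / 4) * (104 * L ^ 8) := by ring
      _ ≤ (k / 4) * (L * L ^ 8) := by
        apply mul_le_mul_of_nonneg_left _ (by positivity)
        exact mul_le_mul_of_nonneg_right hL (by positivity)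
      _ = (k / 4) * L ^ 9 := by ring
      _ ≤ K * L ^ 9 := mul_le_mul_of_nonneg_right hK1 (by positivity)
  have h3 := h1 n hn1 R b N K (hk.trans hkR) hRn hb hbL hN1 (by linarith) hKR (hK2.trans hkR)
  have hb0 : (0 : ℝ) < b := by exact_mod_cast hb
  have h4 : 0 < K / (400 * b) := by
    have : 0 < K := by linarith
    positivity
  have h5 : ((Ioc R (2 * R)).filter (fun p : ℕ => p.Prime ∧ ∃ q : ℕ, N < (p : ℝ) * (b * q + 1) ∧
      (p : ℝ) * (b * q + 1) ≤ N + K)).Nonempty := by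
    rw [Finset.nonempty_iff_ne_empty]
    intro h6
    rw [h6, Finset.sum_empty] at h3
    linarith
  obtain ⟨p, hp⟩ := h5
  rw [mem_filter, mem_Ioc] at hp
  obtain ⟨⟨hp1, -⟩, hp2, q, hq1, hq2⟩ := hp
  exact ⟨p, q, hp2, hp1, hq1, hq2⟩

theorem sc_main (ε : ℝ) (hε : 0 < ε) : ∃ n₀ : ℕ, ∀ n m k H a b : ℕ, n₀ ≤ n → H = ⌈Real.log n ^ 2⌉₊ →
    Real.exp (Real.log n ^ (2 / 3 + ε)) ≤ k → (k : ℝ) ≤ (n : ℝ) ^ (3 / 5 : ℝ) → n + k ≤ m → 1 ≤ b → b ≤ a → a < H → Nat.Coprime a b →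
    |(b : ℝ) * m - a * n| < ((6 * k * H : ℕ) : ℝ) * Real.log n ^ 6 →
    ∃ p : ℕ, p.Prime ∧ k < p ∧ (∃ x ∈ Ioc n (n + k), p ∣ x) ∧ ∀ y ∈ Ioc m (m + k), ¬ p ∣ y := by
  obtain ⟨n₀, h1⟩ := exists_prime ε hε
  refine ⟨n₀, ?_⟩
  intro n m k H a b hn hH hk hkn hm hb hba haH hab hQ
  obtain ⟨R, hR⟩ : ∃ R : ℕ, R = ⌈12 * k * H * Real.log n ^ 6⌉₊ := ⟨_, rfl⟩
  obtain ⟨h2, h3, h4, hk1, h5⟩ := h1 n k H R b hn hH hk hkn hb (by omega) hR
  have hk0 : (1 : ℝ) ≤ k := by exact_mod_cast hk1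
  -- from real to natural numbers
  have key : ∀ N K : ℝ, n ≤ N → N ≤ n + k → (k : ℝ) / 4 ≤ K → K ≤ k → N + K ≤ n + k →
      ∃ p q : ℕ, p.Prime ∧ R < p ∧ p * (b * q + 1) ∈ Ioc n (n + k) ∧ N < ((p * (b * q + 1) : ℕ) : ℝ) ∧
        ((p * (b * q + 1) : ℕ) : ℝ) ≤ N + K ∧
        ∀ y ∈ Ioc m (m + k), p ∣ y → b * y = a * (p * (b * q + 1)) := by
    intro N K hN1 hN2 hK1 hK2 hNK
    obtain ⟨p, q, hp, hRp, hq1, hq2⟩ := h5 N K hN1 hN2 hK1 hK2
    have e : ((p * (b * q + 1) : ℕ) : ℝ) = (p : ℝ) * (b * q + 1) := by push_cast; ring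
    rw [← e] at hq1 hq2
    have hx : p * (b * q + 1) ∈ Ioc n (n + k) := by
      rw [mem_Ioc]
      constructor
      · have : (n : ℝ) < ((p * (b * q + 1) : ℕ) : ℝ) := lt_of_le_of_lt hN1 hq1
        exact_mod_cast this
      · have : ((p * (b * q + 1) : ℕ) : ℝ) ≤ ((n + k : ℕ) : ℝ) := by
          push_cast at hq2 ⊢
          linarith
        exact_mod_cast this
    refine ⟨p, q, hp, hRp, hx, hq1, hq2, fun y hy hpy => ?_⟩
    have hRp' : (R : ℝ) ≤ p := by exact_mod_cast hRp.le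
    exact prop_exact (by omega) haH.le hQ (h2.trans hRp') hx hy (dvd_mul_right _ _) hpy
  rcases Nat.lt_or_ge 1 b with hb2 | hb1
  · -- `b ≥ 2`
    obtain ⟨p, q, hp, hRp, hx, -, -, hy⟩ := key n k le_rfl (by linarith) (by linarith) le_rfl le_rfl
    refine ⟨p, hp, by omega, ⟨_, hx, dvd_mul_right _ _⟩, fun y hy' hpy => ?_⟩
    have h6 := hy y hy' hpy
    have h7 : b ∣ a * (p * (b * q + 1)) := ⟨y, h6.symm⟩
    have h8 : b ∣ p * (b * q + 1) := hab.symm.dvd_of_dvd_mul_left h7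
    have h9 : Nat.Coprime b p := by
      rw [Nat.coprime_comm, hp.coprime_iff_not_dvd]
      intro h
      have := Nat.le_of_dvd (by omega) h
      omega
    have h10 : b ∣ b * q + 1 := h9.dvd_of_dvd_mul_left h8
    have h11 : b ∣ 1 := (Nat.dvd_add_right (dvd_mul_right b q)).1 h10
    have := Nat.le_of_dvd one_pos h11
    omega
  · have hb' : b = 1 := by omega
    subst hb'
    rcases Nat.lt_or_ge 1 a with ha2 | ha1
    · have ha2' : (2 : ℝ) ≤ a := by exact_mod_cast ha2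
      rcases le_or_gt ((a : ℝ) * (n + k / 4)) m with hc | hc
      · obtain ⟨p, q, hp, hRp, hx, hq1, hq2, hy⟩ := key n (k / 4) le_rfl (by linarith) le_rfl (by linarith) (by linarith)
        refine ⟨p, hp, by omega, ⟨_, hx, dvd_mul_right _ _⟩, fun y hy' hpy => ?_⟩
        have h6 := hy y hy' hpy
        rw [one_mul] at h6
        rw [mem_Ioc] at hy'
        have h7 : (m : ℝ) < y := by exact_mod_cast hy'.1
        have h8 : (y : ℝ) = a * ((p * (1 * q + 1) : ℕ) : ℝ) := by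
          rw [h6]
          push_cast
          ring
        have h9 : (a : ℝ) * ((p * (1 * q + 1) : ℕ) : ℝ) ≤ a * (n + k / 4) :=
          mul_le_mul_of_nonneg_left hq2 (by positivity)
        linarith
      · obtain ⟨p, q, hp, hRp, hx, hq1, hq2, hy⟩ := key (n + 3 * k / 4) (k / 4) (by linarith) (by linarith) le_rfl
          (by linarith) (by linarith)
        refine ⟨p, hp, by omega, ⟨_, hx, dvd_mul_right _ _⟩, fun y hy' hpy => ?_⟩
        have h6 := hy y hy' hpy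
        rw [one_mul] at h6
        rw [mem_Ioc] at hy'
        have h7 : (y : ℝ) ≤ m + k := by exact_mod_cast hy'.2
        have h8 : (y : ℝ) = a * ((p * (1 * q + 1) : ℕ) : ℝ) := by
          rw [h6]
          push_cast
          ring
        have h9 : (a : ℝ) * (n + 3 * k / 4) < a * ((p * (1 * q + 1) : ℕ) : ℝ) :=
          mul_lt_mul_of_pos_left hq1 (by linarith)
        have h10 : (2 : ℝ) * k ≤ a * k := mul_le_mul_of_nonneg_right ha2' (by linarith)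
        have e1 : (a : ℝ) * (n + 3 * k / 4) = a * n + 3 / 4 * (a * k) := by ring
        have e2 : (a : ℝ) * (n + k / 4) = a * n + 1 / 4 * (a * k) := by ring
        rw [e1] at h9
        rw [e2] at hc
        linarith
    · have ha' : a = 1 := by omega
      subst ha'
      obtain ⟨p, q, hp, hRp, hx, -, -, hy⟩ := key n k le_rfl (by linarith) (by linarith) le_rfl le_rfl
      refine ⟨p, hp, by omega, ⟨_, hx, dvd_mul_right _ _⟩, fun y hy' hpy => ?_⟩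
      have h6 := hy y hy' hpy
      rw [mem_Ioc] at hy' hx
      omega

end Pool.Agent.H70.LC2
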