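import Pool.Agent.H70.LC2.SA
import Pool.Agent.H70.LC2.SC
import Pool.Agent.H3.LC.Main

/-!
# LC2 Fin: the theorems

Overview.  `A = (n, n+k]`, `B = (m, m+k]`, `k ≤ n^(3/5)`, and suppose that every prime `p > k` which divides an element of `A` divides an element of `B`.  `H = (log n)²`, `P = 6 k H`: by `lb_main` (exponential sums over primes: Vaughan, Vinogradov)
at least `k / (400 log n)` primes of `(P, 2P]` divide elements of `A`, hence elements of both blocks; by `ub_main` (exponential sums over the integers) at most `200 k / (log n)²` integers of `(P, 2P]` divide elements of both blocks, unless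
`|b m - a n| < P (log n)^6` for some coprime `1 ≤ b ≤ a < H`.  But then for all primes `p > R = 2 P (log n)^6` dividing `x ∈ A` and `y ∈ B` we have `b y = a x`, and `lb_main` for such primes gives a contradiction (`sc_main`).

`core`: by contradiction, `sa_main` and then `sc_main` (with `P = 6 k H`).
`lcm_ne`: for `k ≥ n^(3/5)`: `H3.LC.long_blocks (1/10)` (for `n` large `k > 0`).  Otherwise, if the lcm are equal then `m + k ≤ 256 (n + k) ≤ n²` (`H3.LC.sol_ratio`), and a prime `p > k` dividing an element of `A` divides `M n k = M m k`, so an element of `B`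
(`Nat.Prime`, `Finset.lcm`): contradiction to `core ε 2`.
`primeSets_ne`: the prime sets are equal, `k₂ ≤ k₁`: the prime `p` of `core` (`k = k₁`) divides the left product, so the right one, so an element of `(n₂, n₂ + k₂] ⊆ (n₂, n₂ + k₁]`: contradiction.
-/

set_option autoImplicit false

open Finset

namespace Pool.Agent.H70.LC2

theorem core (ε C : ℝ) (hε : 0 < ε) : ∃ n₀ : ℕ, ∀ n m k : ℕ, n₀ ≤ n → Real.exp (Real.log n ^ (2 / 3 + ε)) ≤ k →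
    (k : ℝ) ≤ (n : ℝ) ^ (3 / 5 : ℝ) → n + k ≤ m → (m : ℝ) ≤ (n : ℝ) ^ C →
    ∃ p : ℕ, p.Prime ∧ k < p ∧ (∃ x ∈ Ioc n (n + k), p ∣ x) ∧ ∀ y ∈ Ioc m (m + k), ¬ p ∣ y := by
  obtain ⟨n₁, h₁⟩ := sa_main ε C hε
  obtain ⟨n₂, h₂⟩ := sc_main ε hε
  refine ⟨max n₁ (max n₂ 3), fun n m k hn hk hk2 hm hmC => ?_⟩
  have hn1 : n₁ ≤ n := (le_max_left _ _).trans hn
  have hn2 : n₂ ≤ n := (le_max_left _ _).trans ((le_max_right _ _).trans hn)
  have hn3 : 3 ≤ n := (le_max_right _ _).trans ((le_max_right _ _).trans hn)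
  by_contra hcon
  push Not at hcon
  have hH : 1 ≤ ⌈Real.log n ^ 2⌉₊ := by
    rw [Nat.one_le_ceil_iff]
    have : 0 < Real.log n := Real.log_pos (by exact_mod_cast (by omega : 1 < n))
    positivity
  obtain ⟨a, b, hb, hba, haH, hab, hf⟩ := h₁ n m k _ _ hn1 rfl rfl hk hk2 hm hmC (fun p hp hp1 _ hx => by
    have h1 : k < p := by
      have h2 : 6 * k * 1 ≤ 6 * k * ⌈Real.log n ^ 2⌉₊ := Nat.mul_le_mul_left _ hH
      omega
    exact hcon p hp h1 hx)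
  obtain ⟨p, hp, hkp, hx, hy⟩ := h₂ n m k _ a b hn2 rfl hk hk2 hm hb hba haH hab hf
  obtain ⟨y, hy1, hy2⟩ := hcon p hp hkp hx
  exact hy y hy1 hy2

private theorem Fin_dvd_lcm {s : Finset ℕ} {p : ℕ} (hp : p.Prime) (h : p ∣ s.lcm id) : ∃ y ∈ s, p ∣ y := by
  have h1 : s.lcm id ∣ ∏ y ∈ s, y := Finset.lcm_dvd fun y hy => Finset.dvd_prod_of_mem _ hy
  exact (Prime.dvd_finset_prod_iff hp.prime _).1 (h.trans h1)

theorem lcm_ne (ε : ℝ) (hε : 0 < ε) : ∃ n₀ : ℕ, ∀ n k m : ℕ, n₀ ≤ n → Real.exp (Real.log n ^ (2 / 3 + ε)) ≤ k → n + k ≤ m →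
    (Icc (m + 1) (m + k)).lcm id ≠ (Icc (n + 1) (n + k)).lcm id := by
  obtain ⟨n₁, h₁⟩ := core ε 2 hε
  obtain ⟨n₂, h₂⟩ := H3.LC.long_blocks (1 / 10) (by norm_num)
  refine ⟨max n₁ (max n₂ 512), fun n k m hn hk hm heq => ?_⟩
  have hn1 : n₁ ≤ n := (le_max_left _ _).trans hn
  have hn2 : n₂ ≤ n := (le_max_left _ _).trans ((le_max_right _ _).trans hn)
  have hn3 : 512 ≤ n := (le_max_right _ _).trans ((le_max_right _ _).trans hn)
  have hk0 : 0 < k := by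
    have h1 : (0 : ℝ) < k := (Real.exp_pos _).trans_le hk
    exact_mod_cast h1
  have hsol : H3.LC.Sol n k m := ⟨hk0, hm, heq⟩
  rcases le_total ((n : ℝ) ^ (3 / 5 : ℝ)) k with hk5 | hk5
  · refine h₂ n hn2 k m ?_ hsol
    rw [show (1 / 2 + 1 / 10 : ℝ) = 3 / 5 by norm_num]
    exact hk5
  · have hn3R : (512 : ℝ) ≤ n := by exact_mod_cast hn3
    have hkn : (k : ℝ) ≤ n := by
      refine hk5.trans ?_
      conv_rhs => rw [← Real.rpow_one (n : ℝ)]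
      exact Real.rpow_le_rpow_of_exponent_le (by linarith) (by norm_num)
    have hr := H3.LC.sol_ratio hsol
    have hmC : (m : ℝ) ≤ (n : ℝ) ^ (2 : ℝ) := by
      have h1 : ((m + k : ℕ) : ℝ) ≤ ((256 * (n + k) : ℕ) : ℝ) := by exact_mod_cast hr
      push_cast at h1
      rw [Real.rpow_two]
      have h2 : (0 : ℝ) ≤ k := Nat.cast_nonneg k
      nlinarith
    obtain ⟨p, hp, -, ⟨x, hx, hpx⟩, hy⟩ := h₁ n m k hn1 hk hk5 hm hmC
    have hx' : x ∈ Icc (n + 1) (n + k) := by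
      rw [mem_Ioc] at hx
      rw [mem_Icc]
      omega
    have h1 : p ∣ (Icc (m + 1) (m + k)).lcm id := by
      rw [heq]
      exact hpx.trans (Finset.dvd_lcm (f := id) hx')
    obtain ⟨y, hyI, hpy⟩ := Fin_dvd_lcm hp h1
    refine hy y ?_ hpy
    rw [mem_Icc] at hyI
    rw [mem_Ioc]
    omega

theorem primeSets_ne (ε C : ℝ) (hε : 0 < ε) : ∃ n₀ : ℕ, ∀ n₁ k₁ n₂ k₂ : ℕ, n₀ ≤ n₁ → Real.exp (Real.log n₁ ^ (2 / 3 + ε)) ≤ k₁ →
    (k₁ : ℝ) ≤ (n₁ : ℝ) ^ (3 / 5 : ℝ) → k₂ ≤ k₁ → n₁ + k₁ ≤ n₂ → (n₂ : ℝ) ≤ (n₁ : ℝ) ^ C →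
    (∏ i ∈ Icc 1 k₁, (n₁ + i)).primeFactors ≠ (∏ i ∈ Icc 1 k₂, (n₂ + i)).primeFactors := by
  obtain ⟨n₀, h₀⟩ := core ε C hε
  refine ⟨n₀, fun n₁ k₁ n₂ k₂ hn hk hk5 hkk hm hmC heq => ?_⟩
  obtain ⟨p, hp, -, ⟨x, hx, hpx⟩, hy⟩ := h₀ n₁ n₂ k₁ hn hk hk5 hm hmC
  have hne : ∀ n k : ℕ, (∏ i ∈ Icc 1 k, (n + i)) ≠ 0 := by
    intro n k
    rw [Finset.prod_ne_zero_iff]
    intro i hi
    rw [mem_Icc] at hi
    omega
  rw [mem_Ioc] at hx
  have h1 : p ∣ ∏ i ∈ Icc 1 k₁, (n₁ + i) := by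
    have h2 : x = n₁ + (x - n₁) := by omega
    have h3 : n₁ + (x - n₁) ∣ ∏ i ∈ Icc 1 k₁, (n₁ + i) := Finset.dvd_prod_of_mem (fun i => n₁ + i) (by rw [mem_Icc]; omega)
    rw [← h2] at h3
    exact hpx.trans h3
  have h2 : p ∈ (∏ i ∈ Icc 1 k₂, (n₂ + i)).primeFactors := by
    rw [← heq]
    exact Nat.mem_primeFactors.2 ⟨hp, h1, hne _ _⟩
  obtain ⟨i, hi, hpi⟩ := (Prime.dvd_finset_prod_iff hp.prime _).1 (Nat.dvd_of_mem_primeFactors h2)
  rw [mem_Icc] at hi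
  exact hy (n₂ + i) (by rw [mem_Ioc]; omega) hpi

end Pool.Agent.H70.LC2
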