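import Pool.Agent.H70.LC2.Defs
import Pool.Agent.H91.PK.LSa

/-!
# LC2 KL: a lower bound for the number of points near `t₀` modulo `1`

`ker_low`.  Let `h = ⌈2/η⌉₊` (`4 ≤ 2/η ≤ h ≤ 2/η + 1 ≤ 5/(2η)`), `q j = sin (π j / h) ≥ 0`, `0 ≤ j < h`, `Q t = ∑_{j<h} q j ee (j t)`, `K t = ‖Q t‖²`, `S t = K t (cos (2 π t) - cos (π η))`.
(1) Pointwise: `S t ≤ 31` always (`K t ≤ (∑ q j)² ≤ h² ≤ 25/(4η²)`, `cos (2πt) - cos (πη) ≤ 1 - cos (πη) ≤ (πη)²/2`, product `≤ 25 π² / 8 ≤ 31`), and `S t ≤ 0` if `t` has distance `> η/2` from all integers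
(`cos (2πt) ≤ cos (πη)` then: write `t = z + s`, `|s| ≤ 1/2`, `z = round t`).  So `S t ≤ 31 · 1_{∃ z, |t - z| ≤ η/2}`.
(2) Fourier: `K t = ∑_{j,j'} q j q j' ee ((j - j') t)`, `cos (2πt) = (ee t + ee (-t)) / 2`.  So
`∑_d w d S (α d - t₀) = ∑_{j,j'} q j q j' [ (W (j-j'+1) + W (j-j'-1)) / 2 - cos (πη) W (j-j') ]`, `W l = ∑_d w d ee (l (α d - t₀))`, `|W l| ≤ E` for `l ≠ 0`, `|l| ≤ h ≤ 5/η` (for negative `l` by conjugation), `W 0 = ∑ w d`.
The coefficient of `W 0` is `∑_{j} q j q (j+1) - cos (πη) ∑ q j²` (the pairs with `j - j' = ± 1`, each with factor `1/2`, and `j = j'`).  As `q (j-1) + q (j+1) = 2 cos (π/h) q j`, `q 0 = q h = 0`: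
`∑_{0 ≤ j < h-1} q j q (j+1) = cos (π/h) ∑ q j²`, and `∑ q j² = h/2` (`∑_{j<h} cos (2πj/h) = 0`, `h ≥ 2`).  So the coefficient is `(cos (π/h) - cos (πη)) h/2 ≥ (cos (πη/2) - cos (πη)) / η = 2 sin (3πη/4) sin (πη/4) / η ≥ 2 (3η/2) (η/2) / η = 3η/2`
(`Real.mul_le_sin`: `sin x ≥ 2x/π` on `[0, π/2]`; `η ≤ 1/2`).  The other terms contribute at most `2 (∑ q j)² E ≤ 2 h² E ≤ 25 E / (2 η²)`.
(3) So `31 · RHS ≥ ∑_d w d S (α d - t₀) ≥ (3η/2) ∑ w d - 25 E / (2η²)`, and `3/62 ≥ 1/25`, `25/62 ≤ 1`.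
-/

set_option autoImplicit false

open Finset
open Pool.Agent.H91.PK (ee)

namespace Pool.Agent.H70.LC2

private noncomputable def qs (h j : ℕ) : ℝ := Real.sin (Real.pi * j / h)

private noncomputable def Kf (h : ℕ) (t : ℝ) : ℝ :=
  ∑ p ∈ range h ×ˢ range h, qs h p.1 * qs h p.2 * Real.cos (2 * Real.pi * ((p.1 : ℝ) - p.2) * t)

private theorem KL_ee_re (t : ℝ) : (ee t).re = Real.cos (2 * Real.pi * t) := by
  unfold Pool.Agent.H91.PK.ee
  have h : (2 * Real.pi * t * Complex.I : ℂ) = ((2 * Real.pi * t : ℝ) : ℂ) * Complex.I := by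
    push_cast; ring
  rw [h, Complex.exp_ofReal_mul_I_re]

private theorem qs_nonneg {h j : ℕ} (hj : j < h) : 0 ≤ qs h j := by
  unfold qs
  have hh : (0 : ℝ) < h := by exact_mod_cast (Nat.zero_le j).trans_lt hj
  have hj' : (j : ℝ) ≤ h := by exact_mod_cast hj.le
  apply Real.sin_nonneg_of_nonneg_of_le_pi
  · positivity
  · rw [div_le_iff₀ hh]
    exact mul_le_mul_of_nonneg_left hj' Real.pi_pos.le

private theorem qs_le_one (h j : ℕ) : qs h j ≤ 1 := Real.sin_le_one _

private theorem Kf_nonneg (h : ℕ) (t : ℝ) : 0 ≤ Kf h t := by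
  have e : Kf h t = (∑ j ∈ range h, qs h j * Real.cos (2 * Real.pi * j * t)) ^ 2 +
      (∑ j ∈ range h, qs h j * Real.sin (2 * Real.pi * j * t)) ^ 2 := by
    unfold Kf
    rw [sq, sq, Finset.sum_mul_sum, Finset.sum_mul_sum, Finset.sum_product, ← Finset.sum_add_distrib]
    refine Finset.sum_congr rfl fun i _ => ?_
    rw [← Finset.sum_add_distrib]
    refine Finset.sum_congr rfl fun j _ => ?_
    have e1 : 2 * Real.pi * ((i : ℝ) - j) * t = 2 * Real.pi * i * t - 2 * Real.pi * j * t := by ring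
    dsimp only
    rw [e1, Real.cos_sub]
    ring
  rw [e]
  positivity

private theorem Kf_le (h : ℕ) (t : ℝ) : Kf h t ≤ (h : ℝ) ^ 2 := by
  unfold Kf
  have h1 : ∀ p ∈ range h ×ˢ range h,
      qs h p.1 * qs h p.2 * Real.cos (2 * Real.pi * ((p.1 : ℝ) - p.2) * t) ≤ 1 := by
    intro p hp
    rw [Finset.mem_product, Finset.mem_range, Finset.mem_range] at hp
    have a0 := qs_nonneg hp.1
    have b0 := qs_nonneg hp.2
    have h2 : qs h p.1 * qs h p.2 ≤ 1 := by
      calc qs h p.1 * qs h p.2 ≤ 1 * 1 := mul_le_mul (qs_le_one _ _) (qs_le_one _ _) b0 zero_le_one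
        _ = 1 := one_mul 1
    calc qs h p.1 * qs h p.2 * Real.cos (2 * Real.pi * ((p.1 : ℝ) - p.2) * t)
        ≤ qs h p.1 * qs h p.2 * 1 :=
          mul_le_mul_of_nonneg_left (Real.cos_le_one _) (mul_nonneg a0 b0)
      _ ≤ 1 := by rw [mul_one]; exact h2
  refine (Finset.sum_le_sum h1).trans ?_
  rw [Finset.sum_const, Finset.card_product, Finset.card_range, nsmul_eq_mul, mul_one]
  push_cast
  exact (sq (h : ℝ)).symm.le

private theorem sum_cos {h : ℕ} (hh : 2 ≤ h) (δ : ℝ) :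
    ∑ j ∈ range h, Real.cos (2 * Real.pi * j / h + δ) = 0 := by
  have hprim := Complex.isPrimitiveRoot_exp h (by omega)
  have h0 := hprim.geom_sum_eq_zero (by omega)
  have h1 : ∀ j : ℕ, Real.cos (2 * Real.pi * j / h + δ) =
      (Complex.exp (δ * Complex.I) * Complex.exp (2 * Real.pi * Complex.I / h) ^ j).re := by
    intro j
    have e : Complex.exp (δ * Complex.I) * Complex.exp (2 * Real.pi * Complex.I / h) ^ j =
        Complex.exp (((2 * Real.pi * j / h + δ : ℝ) : ℂ) * Complex.I) := by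
      rw [← Complex.exp_nat_mul, ← Complex.exp_add]
      congr 1
      push_cast
      ring
    rw [e, Complex.exp_ofReal_mul_I_re]
  simp_rw [h1]
  rw [← Complex.re_sum, ← Finset.mul_sum, h0, mul_zero, Complex.zero_re]

private theorem sum_sq {h : ℕ} (hh : 2 ≤ h) : ∑ j ∈ range h, qs h j * qs h j = h / 2 := by
  have h1 : ∀ j ∈ range h, qs h j * qs h j =
      1 / 2 - 1 / 2 * Real.cos (2 * Real.pi * j / h + 0) := by
    intro j _
    unfold qs
    have e : 2 * Real.pi * j / h + 0 = 2 * (Real.pi * j / h) := by ring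
    rw [e, Real.cos_two_mul]
    have := Real.sin_sq_add_cos_sq (Real.pi * j / h)
    nlinarith [this]
  rw [Finset.sum_congr rfl h1, Finset.sum_sub_distrib, ← Finset.mul_sum, sum_cos hh,
    Finset.sum_const, Finset.card_range, nsmul_eq_mul]
  ring

private theorem sum_shift {h : ℕ} (hh : 2 ≤ h) :
    ∑ j ∈ range h, qs h j * qs h (j + 1) = Real.cos (Real.pi / h) * (h / 2) := by
  have hh0 : (h : ℝ) ≠ 0 := by
    have : h ≠ 0 := by omega
    exact_mod_cast this
  have h1 : ∀ j ∈ range h, qs h j * qs h (j + 1) =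
      1 / 2 * Real.cos (Real.pi / h) - 1 / 2 * Real.cos (2 * Real.pi * j / h + Real.pi / h) := by
    intro j _
    unfold qs
    set x := Real.pi * j / h with hx
    have e1 : Real.pi * ((j + 1 : ℕ) : ℝ) / h = x + Real.pi / h := by
      rw [hx]; push_cast; ring
    have e2 : 2 * Real.pi * j / h + Real.pi / h = x + (x + Real.pi / h) := by
      rw [hx]; ring
    have e3 : Real.pi / h = (x + Real.pi / h) - x := by ring
    rw [e1, e2]
    conv_rhs => rw [show Real.cos (Real.pi / h) = Real.cos ((x + Real.pi / h) - x) by rw [← e3]]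
    rw [Real.cos_sub, Real.cos_add x (x + Real.pi / h)]
    ring
  rw [Finset.sum_congr rfl h1, Finset.sum_sub_distrib, Finset.sum_const, Finset.card_range,
    nsmul_eq_mul, ← Finset.mul_sum, sum_cos hh]
  ring

private theorem qs_top {h : ℕ} (hh : 2 ≤ h) : qs h h = 0 := by
  unfold qs
  have hh0 : (h : ℝ) ≠ 0 := by
    have : h ≠ 0 := by omega
    exact_mod_cast this
  rw [mul_div_assoc, div_self hh0, mul_one, Real.sin_pi]

/-- the sum over the pairs with difference one -/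
private theorem pair_one {h : ℕ} (hh : 2 ≤ h) :
    ∑ p ∈ range h ×ˢ range h, qs h p.1 * qs h p.2 * (if ((p.1 : ℤ) - p.2) - 1 = 0 then (1 : ℝ) else 0) =
      ∑ j ∈ range h, qs h j * qs h (j + 1) := by
  rw [Finset.sum_product_right]
  refine Finset.sum_congr rfl fun j hj => ?_
  have e : ∀ i ∈ range h, qs h (i, j).1 * qs h (i, j).2 *
      (if ((((i, j) : ℕ × ℕ).1 : ℤ) - ((i, j) : ℕ × ℕ).2) - 1 = 0 then (1 : ℝ) else 0) =
      if i = j + 1 then qs h i * qs h j else 0 := by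
    intro i _
    by_cases hij : i = j + 1
    · subst hij
      rw [if_pos, if_pos rfl, mul_one]
      push_cast
      ring
    · rw [if_neg hij, if_neg, mul_zero]
      intro h0
      apply hij
      have h0' : (i : ℤ) - j - 1 = 0 := h0
      omega
  rw [Finset.sum_congr rfl e, Finset.sum_ite_eq']
  by_cases hj1 : j + 1 ∈ range h
  · rw [if_pos hj1, mul_comm]
  · rw [if_neg hj1]
    have : j + 1 = h := by
      rw [Finset.mem_range] at hj hj1
      omega
    rw [this, qs_top hh, mul_zero]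

private theorem pair_neg {h : ℕ} (hh : 2 ≤ h) :
    ∑ p ∈ range h ×ˢ range h, qs h p.1 * qs h p.2 * (if ((p.1 : ℤ) - p.2) + 1 = 0 then (1 : ℝ) else 0) =
      ∑ j ∈ range h, qs h j * qs h (j + 1) := by
  rw [Finset.sum_product]
  refine Finset.sum_congr rfl fun j hj => ?_
  have e : ∀ i ∈ range h, qs h (j, i).1 * qs h (j, i).2 *
      (if ((((j, i) : ℕ × ℕ).1 : ℤ) - ((j, i) : ℕ × ℕ).2) + 1 = 0 then (1 : ℝ) else 0) =
      if i = j + 1 then qs h j * qs h i else 0 := by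
    intro i _
    by_cases hij : i = j + 1
    · subst hij
      rw [if_pos, if_pos rfl, mul_one]
      push_cast
      ring
    · rw [if_neg hij, if_neg, mul_zero]
      intro h0
      apply hij
      have h0' : (j : ℤ) - i + 1 = 0 := h0
      omega
  rw [Finset.sum_congr rfl e, Finset.sum_ite_eq']
  by_cases hj1 : j + 1 ∈ range h
  · rw [if_pos hj1]
  · rw [if_neg hj1]
    have : j + 1 = h := by
      rw [Finset.mem_range] at hj hj1
      omega
    rw [this, qs_top hh, mul_zero]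

private theorem pair_zero (h : ℕ) :
    ∑ p ∈ range h ×ˢ range h, qs h p.1 * qs h p.2 * (if ((p.1 : ℤ) - p.2) = 0 then (1 : ℝ) else 0) =
      ∑ j ∈ range h, qs h j * qs h j := by
  rw [Finset.sum_product]
  refine Finset.sum_congr rfl fun j hj => ?_
  have e : ∀ i ∈ range h, qs h (j, i).1 * qs h (j, i).2 *
      (if ((((j, i) : ℕ × ℕ).1 : ℤ) - ((j, i) : ℕ × ℕ).2) = 0 then (1 : ℝ) else 0) =
      if i = j then qs h j * qs h i else 0 := by
    intro i _
    by_cases hij : i = j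
    · subst hij
      rw [if_pos, if_pos rfl, mul_one]
      exact sub_self _
    · rw [if_neg hij, if_neg, mul_zero]
      intro h0
      apply hij
      have h0' : (j : ℤ) - i = 0 := h0
      omega
  rw [Finset.sum_congr rfl e, Finset.sum_ite_eq', if_pos hj]

/-- the coefficient of the main term -/
private theorem coef_ge {h : ℕ} {η : ℝ} (hη : 0 < η) (hη1 : η ≤ 1 / 2) (hh : 2 ≤ h)
    (hh2 : 2 / η ≤ h) : 3 * η / 2 ≤ (Real.cos (Real.pi / h) - Real.cos (Real.pi * η)) * (h / 2) := by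
  have hh0 : (0 : ℝ) < h := by
    have : 0 < h := by omega
    exact_mod_cast this
  have hpi := Real.pi_pos
  have h1 : Real.cos (Real.pi * η / 2) ≤ Real.cos (Real.pi / h) := by
    apply Real.cos_le_cos_of_nonneg_of_le_pi
    · positivity
    · nlinarith
    · rw [div_le_iff₀ hh0]
      have h2 : 2 ≤ h * η := by
        rw [div_le_iff₀ hη] at hh2
        exact hh2
      nlinarith
  have h2 : 3 * η ^ 2 / 2 ≤ Real.cos (Real.pi * η / 2) - Real.cos (Real.pi * η) := by
    rw [Real.cos_sub_cos]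
    have e1 : (Real.pi * η / 2 + Real.pi * η) / 2 = 3 * Real.pi * η / 4 := by ring
    have e2 : (Real.pi * η / 2 - Real.pi * η) / 2 = -(Real.pi * η / 4) := by ring
    rw [e1, e2, Real.sin_neg]
    have s1 : 2 / Real.pi * (3 * Real.pi * η / 4) ≤ Real.sin (3 * Real.pi * η / 4) := by
      apply Real.mul_le_sin
      · positivity
      · nlinarith
    have s2 : 2 / Real.pi * (Real.pi * η / 4) ≤ Real.sin (Real.pi * η / 4) := by
      apply Real.mul_le_sin
      · positivity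
      · nlinarith
    have s1' : 3 * η / 2 ≤ Real.sin (3 * Real.pi * η / 4) := by
      have : 2 / Real.pi * (3 * Real.pi * η / 4) = 3 * η / 2 := by
        field_simp
        ring
      rwa [this] at s1
    have s2' : η / 2 ≤ Real.sin (Real.pi * η / 4) := by
      have : 2 / Real.pi * (Real.pi * η / 4) = η / 2 := by
        field_simp
        ring
      rwa [this] at s2
    have s3 : (3 * η / 2) * (η / 2) ≤ Real.sin (3 * Real.pi * η / 4) * Real.sin (Real.pi * η / 4) :=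
      mul_le_mul s1' s2' (by positivity) ((by positivity : (0 : ℝ) ≤ 3 * η / 2).trans s1')
    nlinarith
  have h3 : 3 * η ^ 2 / 2 ≤ Real.cos (Real.pi / h) - Real.cos (Real.pi * η) := by linarith
  have h4 : 1 / η ≤ (h : ℝ) / 2 := by
    rw [div_le_iff₀ hη] at hh2 ⊢
    linarith
  calc 3 * η / 2 = (3 * η ^ 2 / 2) * (1 / η) := by
        field_simp
    _ ≤ (Real.cos (Real.pi / h) - Real.cos (Real.pi * η)) * (h / 2) :=
        mul_le_mul h3 h4 (by positivity) ((by positivity : (0 : ℝ) ≤ 3 * η ^ 2 / 2).trans h3)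

/-- pointwise upper bound -/
private theorem point_le {h : ℕ} {η t : ℝ} (hη : 0 < η) (hη1 : η ≤ 1 / 2)
    (hh3 : (h : ℝ) ≤ 5 / (2 * η)) [Decidable (∃ z : ℤ, |t - z| ≤ η / 2)] :
    Kf h t * (Real.cos (2 * Real.pi * t) - Real.cos (Real.pi * η)) ≤
      if (∃ z : ℤ, |t - z| ≤ η / 2) then 31 else 0 := by
  have hpi := Real.pi_pos
  have hpi2 := Real.pi_lt_d4
  split_ifs with hz
  · have h1 : Real.cos (2 * Real.pi * t) - Real.cos (Real.pi * η) ≤ (Real.pi * η) ^ 2 / 2 := by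
      have := Real.one_sub_sq_div_two_le_cos (x := Real.pi * η)
      have := Real.cos_le_one (2 * Real.pi * t)
      linarith
    have h2 : Kf h t ≤ (5 / (2 * η)) ^ 2 :=
      (Kf_le h t).trans (pow_le_pow_left₀ (Nat.cast_nonneg h) hh3 2)
    calc Kf h t * (Real.cos (2 * Real.pi * t) - Real.cos (Real.pi * η))
        ≤ Kf h t * ((Real.pi * η) ^ 2 / 2) := mul_le_mul_of_nonneg_left h1 (Kf_nonneg h t)
      _ ≤ (5 / (2 * η)) ^ 2 * ((Real.pi * η) ^ 2 / 2) :=
          mul_le_mul_of_nonneg_right h2 (by positivity)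
      _ = 25 / 8 * Real.pi ^ 2 := by
          field_simp
          ring
      _ ≤ 31 := by nlinarith
  · push Not at hz
    have h1 : η / 2 < |t - round t| := hz (round t)
    have h2 : |t - round t| ≤ 1 / 2 := abs_sub_round t
    have h3 : Real.cos (2 * Real.pi * t) ≤ Real.cos (Real.pi * η) := by
      have e : Real.cos (2 * Real.pi * t) = Real.cos (|2 * Real.pi * (t - round t)|) := by
        rw [Real.cos_abs]
        have e1 : 2 * Real.pi * (t - round t) = 2 * Real.pi * t - (round t : ℤ) * (2 * Real.pi) := by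
          ring
        rw [e1, Real.cos_sub_int_mul_two_pi]
      rw [e]
      have e2 : |2 * Real.pi * (t - round t)| = 2 * Real.pi * |t - round t| := by
        rw [abs_mul, abs_of_pos (by positivity : (0 : ℝ) < 2 * Real.pi)]
      rw [e2]
      apply Real.cos_le_cos_of_nonneg_of_le_pi
      · positivity
      · nlinarith
      · nlinarith
    exact mul_nonpos_of_nonneg_of_nonpos (Kf_nonneg h t) (by linarith)

open Classical in
theorem ker_low (D : Finset ℕ) (w α : ℕ → ℝ) (hw : ∀ d ∈ D, 0 ≤ w d) {t₀ η E : ℝ} (hη : 0 < η) (hη1 : η ≤ 1 / 2) (hE0 : 0 ≤ E)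
    (hE : ∀ l : ℕ, 1 ≤ l → (l : ℝ) ≤ 5 / η → ‖∑ d ∈ D, ((w d : ℝ) : ℂ) * ee (l * α d)‖ ≤ E) :
    η / 25 * ∑ d ∈ D, w d - E / η ^ 2 ≤ ∑ d ∈ D.filter (fun d => ∃ z : ℤ, |α d - t₀ - z| ≤ η / 2), w d := by
  obtain ⟨h, hh2, hh3⟩ : ∃ h : ℕ, 2 / η ≤ (h : ℝ) ∧ (h : ℝ) ≤ 5 / (2 * η) := by
    refine ⟨⌈2 / η⌉₊, Nat.le_ceil _, ?_⟩
    have h1 : (⌈2 / η⌉₊ : ℝ) < 2 / η + 1 := Nat.ceil_lt_add_one (by positivity)
    have h2 : 2 / η + 1 ≤ 5 / (2 * η) := by
      have e : 5 / (2 * η) = 2 / η + 1 / (2 * η) := by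
        field_simp
        ring
      rw [e]
      have : 1 ≤ 1 / (2 * η) := by
        rw [le_div_iff₀ (by positivity)]
        linarith
      linarith
    linarith
  have hh : 2 ≤ h := by
    have h1 : (4 : ℝ) ≤ 2 / η := by
      rw [le_div_iff₀ hη]
      linarith
    have h2 : (4 : ℝ) ≤ (h : ℝ) := h1.trans hh2
    have h3 : 4 ≤ h := by exact_mod_cast h2
    omega
  have hh0 : (0 : ℝ) < h := by
    have : 0 < h := by omega
    exact_mod_cast this
  -- cosine sums
  set C : ℤ → ℝ := fun l => ∑ d ∈ D, w d * Real.cos (2 * Real.pi * l * (α d - t₀)) with hC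
  have hCneg : ∀ l : ℤ, C (-l) = C l := by
    intro l
    refine Finset.sum_congr rfl fun d _ => ?_
    have e : 2 * Real.pi * ((-l : ℤ) : ℝ) * (α d - t₀) = -(2 * Real.pi * l * (α d - t₀)) := by
      push_cast
      ring
    rw [e, Real.cos_neg]
  have hCnat : ∀ l : ℕ, 1 ≤ l → (l : ℝ) ≤ 5 / η → |C l| ≤ E := by
    intro l hl hl'
    have e : C l = (ee (-(l * t₀)) * ∑ d ∈ D, ((w d : ℝ) : ℂ) * ee (l * α d)).re := by
      rw [Finset.mul_sum, Complex.re_sum]
      refine Finset.sum_congr rfl fun d _ => ?_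
      have e1 : ee (-(l * t₀)) * (((w d : ℝ) : ℂ) * ee (l * α d)) =
          ((w d : ℝ) : ℂ) * ee (l * (α d - t₀)) := by
        have e2 : (l : ℝ) * (α d - t₀) = -(l * t₀) + l * α d := by ring
        rw [e2, Pool.Agent.H91.PK.LSa_ee_add]
        ring
      rw [e1, Complex.re_ofReal_mul, KL_ee_re]
      congr 2
      push_cast
      ring
    rw [e]
    refine (Complex.abs_re_le_norm _).trans ?_
    rw [norm_mul, Pool.Agent.H91.PK.LSa_norm_ee, one_mul]
    exact hE l hl hl'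
  have hh5 : (h : ℝ) ≤ 5 / η := by
    refine hh3.trans ?_
    rw [div_le_div_iff₀ (by positivity) hη]
    nlinarith
  have hCint : ∀ l : ℤ, l ≠ 0 → |l| ≤ h → |C l| ≤ E := by
    intro l hl0 hl
    have key : ∀ n : ℕ, 1 ≤ n → n ≤ h → |C n| ≤ E := fun n hn hn' =>
      hCnat n hn ((by exact_mod_cast hn' : (n : ℝ) ≤ h).trans hh5)
    rcases Int.eq_nat_or_neg l with ⟨n, rfl | rfl⟩
    · refine key n ?_ ?_
      · have : (n : ℤ) ≠ 0 := hl0
        omega
      · rw [abs_of_nonneg (Int.natCast_nonneg n)] at hl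
        exact_mod_cast hl
    · rw [hCneg]
      refine key n ?_ ?_
      · have : -(n : ℤ) ≠ 0 := hl0
        omega
      · rw [abs_neg, abs_of_nonneg (Int.natCast_nonneg n)] at hl
        exact_mod_cast hl
  have hC0 : C 0 = ∑ d ∈ D, w d := by
    refine Finset.sum_congr rfl fun d _ => ?_
    simp
  set Wt := ∑ d ∈ D, w d with hWt
  have hW0 : 0 ≤ Wt := Finset.sum_nonneg hw
  -- splitting off the main term
  have hsplit : ∀ l : ℤ, |l| ≤ h → |C l - (if l = 0 then (1 : ℝ) else 0) * Wt| ≤ E := by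
    intro l hl
    by_cases hl0 : l = 0
    · rw [hl0, if_pos rfl, one_mul, hC0, sub_self, abs_zero]
      exact hE0
    · rw [if_neg hl0, zero_mul, sub_zero]
      exact hCint l hl0 hl
  set c := Real.cos (Real.pi * η) with hc
  have hc1 : |c| ≤ 1 := Real.abs_cos_le_one _
  -- the expansion
  have hexp : ∑ d ∈ D, w d * (Kf h (α d - t₀) * (Real.cos (2 * Real.pi * (α d - t₀)) - c)) =
      ∑ p ∈ range h ×ˢ range h, qs h p.1 * qs h p.2 *
        ((C ((p.1 : ℤ) - p.2 - 1) + C ((p.1 : ℤ) - p.2 + 1)) / 2 - c * C ((p.1 : ℤ) - p.2)) := by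
    have e1 : ∀ p ∈ range h ×ˢ range h, qs h p.1 * qs h p.2 *
        ((C ((p.1 : ℤ) - p.2 - 1) + C ((p.1 : ℤ) - p.2 + 1)) / 2 - c * C ((p.1 : ℤ) - p.2)) =
        ∑ d ∈ D, w d * (qs h p.1 * qs h p.2 *
          (Real.cos (2 * Real.pi * ((p.1 : ℝ) - p.2) * (α d - t₀))) *
            (Real.cos (2 * Real.pi * (α d - t₀)) - c)) := by
      intro p _
      rw [hC]
      dsimp only
      rw [← Finset.sum_add_distrib, Finset.sum_div, Finset.mul_sum, ← Finset.sum_sub_distrib,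
        Finset.mul_sum]
      refine Finset.sum_congr rfl fun d _ => ?_
      set s := α d - t₀ with hs
      have a1 : 2 * Real.pi * (((p.1 : ℤ) - p.2 - 1 : ℤ) : ℝ) * s =
          2 * Real.pi * ((p.1 : ℝ) - p.2) * s - 2 * Real.pi * s := by
        push_cast
        ring
      have a2 : 2 * Real.pi * (((p.1 : ℤ) - p.2 + 1 : ℤ) : ℝ) * s =
          2 * Real.pi * ((p.1 : ℝ) - p.2) * s + 2 * Real.pi * s := by
        push_cast
        ring
      have a3 : 2 * Real.pi * (((p.1 : ℤ) - p.2 : ℤ) : ℝ) * s =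
          2 * Real.pi * ((p.1 : ℝ) - p.2) * s := by
        push_cast
        ring
      rw [a1, a2, a3, Real.cos_sub, Real.cos_add]
      ring
    rw [Finset.sum_congr rfl e1, Finset.sum_comm]
    refine Finset.sum_congr rfl fun d _ => ?_
    unfold Kf
    rw [Finset.sum_mul, Finset.mul_sum]
  -- lower bound
  have hlow : (3 * η / 2) * Wt - 2 * (h : ℝ) ^ 2 * E ≤
      ∑ d ∈ D, w d * (Kf h (α d - t₀) * (Real.cos (2 * Real.pi * (α d - t₀)) - c)) := by
    rw [hexp]
    have hterm : ∀ p ∈ range h ×ˢ range h,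
        qs h p.1 * qs h p.2 * ((if (p.1 : ℤ) - p.2 - 1 = 0 then (1 : ℝ) else 0)) * (Wt / 2) +
        qs h p.1 * qs h p.2 * ((if (p.1 : ℤ) - p.2 + 1 = 0 then (1 : ℝ) else 0)) * (Wt / 2) -
        qs h p.1 * qs h p.2 * ((if (p.1 : ℤ) - p.2 = 0 then (1 : ℝ) else 0)) * (c * Wt) -
        2 * E ≤ qs h p.1 * qs h p.2 *
        ((C ((p.1 : ℤ) - p.2 - 1) + C ((p.1 : ℤ) - p.2 + 1)) / 2 - c * C ((p.1 : ℤ) - p.2)) := by
      intro p hp
      rw [Finset.mem_product, Finset.mem_range, Finset.mem_range] at hp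
      have a0 := qs_nonneg hp.1
      have b0 := qs_nonneg hp.2
      have ab : qs h p.1 * qs h p.2 ≤ 1 := by
        calc qs h p.1 * qs h p.2 ≤ 1 * 1 := mul_le_mul (qs_le_one _ _) (qs_le_one _ _) b0 zero_le_one
          _ = 1 := one_mul 1
      have b1 := hsplit ((p.1 : ℤ) - p.2 - 1) (by rw [abs_le]; omega)
      have b2 := hsplit ((p.1 : ℤ) - p.2 + 1) (by rw [abs_le]; omega)
      have b3 := hsplit ((p.1 : ℤ) - p.2) (by rw [abs_le]; omega)
      set x1 := C ((p.1 : ℤ) - p.2 - 1)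
      set x2 := C ((p.1 : ℤ) - p.2 + 1)
      set x3 := C ((p.1 : ℤ) - p.2)
      set d1 := (if (p.1 : ℤ) - p.2 - 1 = 0 then (1 : ℝ) else 0)
      set d2 := (if (p.1 : ℤ) - p.2 + 1 = 0 then (1 : ℝ) else 0)
      set d3 := (if (p.1 : ℤ) - p.2 = 0 then (1 : ℝ) else 0)
      set k := qs h p.1 * qs h p.2
      have k0 : 0 ≤ k := mul_nonneg a0 b0
      have b4 : |c * (x3 - d3 * Wt)| ≤ E := by
        rw [abs_mul]
        calc |c| * |x3 - d3 * Wt| ≤ 1 * E := mul_le_mul hc1 b3 (abs_nonneg _) zero_le_one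
          _ = E := one_mul E
      have b5 : -(2 * E) ≤ ((x1 - d1 * Wt) + (x2 - d2 * Wt)) / 2 - c * (x3 - d3 * Wt) := by
        have := (abs_le.1 b1).1
        have := (abs_le.1 b2).1
        have := (abs_le.1 b4).2
        linarith
      have b6 : k * (-(2 * E)) ≤
          k * (((x1 - d1 * Wt) + (x2 - d2 * Wt)) / 2 - c * (x3 - d3 * Wt)) :=
        mul_le_mul_of_nonneg_left b5 k0
      have b7 : -(2 * E) ≤ k * (-(2 * E)) := by
        nlinarith
      have b8 : k * (((x1 - d1 * Wt) + (x2 - d2 * Wt)) / 2 - c * (x3 - d3 * Wt)) =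
          k * ((x1 + x2) / 2 - c * x3) - (k * d1 * (Wt / 2) + k * d2 * (Wt / 2) - k * d3 * (c * Wt)) := by
        ring
      linarith
    have hsum := Finset.sum_le_sum hterm
    refine le_trans ?_ hsum
    rw [Finset.sum_sub_distrib, Finset.sum_sub_distrib, Finset.sum_add_distrib,
      ← Finset.sum_mul, ← Finset.sum_mul, ← Finset.sum_mul, pair_one hh, pair_neg hh, pair_zero,
      sum_shift hh, sum_sq hh, Finset.sum_const, Finset.card_product, Finset.card_range,
      nsmul_eq_mul]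
    have h1 := coef_ge hη hη1 hh hh2
    have h2 : (3 * η / 2) * Wt ≤ ((Real.cos (Real.pi / h) - c) * (h / 2)) * Wt :=
      mul_le_mul_of_nonneg_right h1 hW0
    push_cast
    nlinarith [h2]
  -- upper bound
  have hup : ∑ d ∈ D, w d * (Kf h (α d - t₀) * (Real.cos (2 * Real.pi * (α d - t₀)) - c)) ≤
      31 * ∑ d ∈ D.filter (fun d => ∃ z : ℤ, |α d - t₀ - z| ≤ η / 2), w d := by
    rw [Finset.sum_filter, Finset.mul_sum]
    refine Finset.sum_le_sum fun d hd => ?_
    have h1 := point_le (h := h) (t := α d - t₀) hη hη1 hh3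
    have h2 := mul_le_mul_of_nonneg_left h1 (hw d hd)
    refine h2.trans (le_of_eq ?_)
    split_ifs
    · ring
    · ring
  have hfin : (3 * η / 2) * Wt - 2 * (h : ℝ) ^ 2 * E ≤
      31 * ∑ d ∈ D.filter (fun d => ∃ z : ℤ, |α d - t₀ - z| ≤ η / 2), w d := hlow.trans hup
  have hh6 : 2 * (h : ℝ) ^ 2 * E ≤ 25 / 2 * (E / η ^ 2) := by
    have h1 : (h : ℝ) ^ 2 ≤ (5 / (2 * η)) ^ 2 := pow_le_pow_left₀ hh0.le hh3 2
    have h2 : (5 / (2 * η)) ^ 2 = 25 / 4 * (1 / η ^ 2) := by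
      field_simp
      ring
    rw [h2] at h1
    have h3 := mul_le_mul_of_nonneg_right h1 hE0
    have h4 : 25 / 4 * (1 / η ^ 2) * E = 25 / 4 * (E / η ^ 2) := by ring
    rw [h4] at h3
    linarith
  have hq : 0 ≤ E / η ^ 2 := by positivity
  have hp : 0 ≤ η * Wt := mul_nonneg hη.le hW0
  have e1 : η / 25 * Wt = (η * Wt) / 25 := by ring
  have e2 : (3 * η / 2) * Wt = 3 / 2 * (η * Wt) := by ring
  rw [e1]
  rw [e2] at hfin
  linarith

end Pool.Agent.H70.LC2
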