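import Pool.Agent.H70.LC2.VE
import Pool.Agent.H70.LC2.KL
import Pool.Agent.H36.IS.Pnt

/-!
# LC2 LB: primes `p ∈ (P, 2P]` with a multiple `p (b q + 1)` in `(N, N + K]`

`theta_low`: the prime number theorem (`Pool.Agent.H36.IS.DP_pnt`; `DP x = π(2x) - π(x)`, each prime has `log p ≥ log x`), or the private lemmas there.
`lb_main`.  `L = log n`.  `ker_low` with `D` the primes in `Ioc P (2P)`, `w p = log p`, `α p = N / (b p)`, `t₀ = 1/b - K/(4 b P)`, `η = K / (4 b P) ≤ 1/4`.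
(1) If `|α p - t₀ - z| ≤ η/2 = K/(8bP)`, then `z + 1/b - α p ∈ [K/(8bP), 3K/(8bP)]`; multiply by `b p`, `P < p ≤ 2P`: `0 < p (b z + 1) - N ≤ 3K/4`.  As `N > 0`, `b z + 1 > 0`, so `z ≥ 0`, `z = q ∈ ℕ`.  So the filtered set of `ker_low` is contained in the set of the
statement (all weights are `≥ 0`).
(2) `E = P L^(-6B-1)`: for `1 ≤ l ≤ 5/η = 20 b P / K ≤ 20 L^(2B)` the sum is `SP P (l N / b)`, and `F = l N / b` satisfies `F ≥ n L^(-B) ≥ n^(99/100)`, `F ≤ 20 L^(2B) 2 n ≤ n²`: `sp_main ε (6B+1)`.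
(3) `η/25 ∑ log p ≥ K/(100 b P) · P/2 = K/(200 b)`; `E/η² = 16 b² P³ L^(-6B-1) / K² ≤ K/(400 b)`, because `P/K ≤ L^B`, `b ≤ L^B`: `16 b³ (P/K)³ L^(-6B-1) ≤ 16/L ≤ 1/400`.
-/

set_option autoImplicit false

open Finset Filter
open Pool.Agent.H91.PK (ee)

namespace Pool.Agent.H70.LC2

private theorem LB_card (x : ℕ) : Pool.Agent.H36.IS.DP x = (((Ioc x (2 * x)).filter Nat.Prime).card : ℝ) := by
  have hsub : Nat.primesLE x ⊆ Nat.primesLE (2 * x) := by
    intro p hp
    rw [Nat.mem_primesLE] at hp ⊢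
    exact ⟨hp.1.trans (by omega), hp.2⟩
  have he : (Ioc x (2 * x)).filter Nat.Prime = Nat.primesLE (2 * x) \ Nat.primesLE x := by
    ext p
    rw [mem_filter, mem_Ioc, Finset.mem_sdiff, Nat.mem_primesLE, Nat.mem_primesLE]
    constructor
    · rintro ⟨⟨h1, h2⟩, h3⟩
      exact ⟨⟨h2, h3⟩, fun h => by omega⟩
    · rintro ⟨⟨h1, h2⟩, h3⟩
      refine ⟨⟨?_, h1⟩, h2⟩
      by_contra h
      exact h3 ⟨by omega, h2⟩
  unfold Pool.Agent.H36.IS.DP
  rw [he, card_sdiff_of_subset hsub, Nat.cast_sub (card_le_card hsub),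
    Nat.primesLE_card_eq_primeCounting, Nat.primesLE_card_eq_primeCounting]

theorem theta_low : ∀ᶠ P : ℕ in atTop, (P : ℝ) / 2 ≤ ∑ p ∈ (Ioc P (2 * P)).filter Nat.Prime, Real.log p := by
  filter_upwards [Pool.Agent.H36.IS.DP_pnt (1 / 2) (by norm_num), eventually_ge_atTop 2] with x h hx
  have hx2 : (2 : ℝ) ≤ x := by exact_mod_cast hx
  have hlx : 0 < Real.log x := Real.log_pos (by linarith)
  have h1 : (Pool.Agent.H36.IS.DP x) * Real.log x ≤
      ∑ p ∈ (Ioc x (2 * x)).filter Nat.Prime, Real.log p := by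
    rw [LB_card, ← nsmul_eq_mul]
    refine card_nsmul_le_sum _ _ _ fun p hp => ?_
    rw [mem_filter, mem_Ioc] at hp
    exact Real.log_le_log (by linarith) (by exact_mod_cast hp.1.1.le)
  refine le_trans ?_ h1
  have h2 := mul_le_mul_of_nonneg_right h.1 hlx.le
  refine le_trans (le_of_eq ?_) h2
  field_simp
  ring

open Classical in
theorem lb_main (ε B : ℝ) (hε : 0 < ε) (hB : 0 < B) : ∃ n₀ : ℝ, ∀ n : ℝ, n₀ ≤ n → ∀ (P b : ℕ) (N K : ℝ),
    Real.exp (Real.log n ^ (2 / 3 + ε)) ≤ P → (P : ℝ) ≤ n ^ (13 / 20 : ℝ) → 1 ≤ b → (b : ℝ) ≤ Real.log n ^ B → n ≤ N → N ≤ 2 * n →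
    P ≤ K * Real.log n ^ B → K ≤ P →
    K / (400 * b) ≤ ∑ p ∈ (Ioc P (2 * P)).filter (fun p : ℕ => p.Prime ∧ ∃ q : ℕ, N < (p : ℝ) * (b * q + 1) ∧ (p : ℝ) * (b * q + 1) ≤ N + K), Real.log p := by
  obtain ⟨n₁, h₁⟩ := sp_main ε (6 * B + 1) hε
  obtain ⟨P₀, hP₀⟩ := eventually_atTop.1 theta_low
  have e1 : ∀ᶠ n : ℝ in atTop, 6400 ≤ Real.log n := Real.tendsto_log_atTop.eventually_ge_atTop _
  have e2 : ∀ᶠ n : ℝ in atTop, Real.log n ^ B ≤ n ^ (1 / 100 : ℝ) := by
    have h := (isLittleO_log_rpow_rpow_atTop B (by norm_num : (0 : ℝ) < 1 / 100)).bound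
      (one_pos)
    filter_upwards [h, eventually_ge_atTop 1] with n hn h1
    have hx : 0 ≤ n ^ (1 / 100 : ℝ) := Real.rpow_nonneg (by linarith) _
    rw [one_mul, Real.norm_of_nonneg hx] at hn
    exact (Real.le_norm_self _).trans hn
  have e3 : ∀ᶠ n : ℝ in atTop, 40 ≤ n ^ (1 / 100 : ℝ) :=
    (tendsto_rpow_atTop (by norm_num : (0 : ℝ) < 1 / 100)).eventually_ge_atTop _
  have e4 : ∀ᶠ n : ℝ in atTop, (P₀ : ℝ) ≤ Real.exp (Real.log n ^ (2 / 3 + ε)) :=
    (Real.tendsto_exp_atTop.comp ((tendsto_rpow_atTop (by positivity : (0 : ℝ) < 2 / 3 + ε)).comp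
      Real.tendsto_log_atTop)).eventually_ge_atTop _
  obtain ⟨n₀, hn₀⟩ := eventually_atTop.1 (e1.and (e2.and (e3.and (e4.and
    ((eventually_ge_atTop n₁).and (eventually_ge_atTop 1))))))
  refine ⟨n₀, fun n hn P b N K hP hP' hb hbL hN hN' hPK hKP => ?_⟩
  obtain ⟨f1, f2, f3, f4, f5, f6⟩ := hn₀ n hn
  set L : ℝ := Real.log n with hL
  have hn0 : 0 < n := by linarith
  have hL0 : 0 < L := by linarith
  have hN0 : 0 < N := by linarith
  have hPpos : (0 : ℝ) < P := (Real.exp_pos _).trans_le hP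
  have hLB : 0 < L ^ B := Real.rpow_pos_of_pos hL0 _
  have hK0 : 0 < K := by
    by_contra h
    have := mul_nonpos_of_nonpos_of_nonneg (not_lt.1 h) hLB.le
    linarith
  have hb1 : (1 : ℝ) ≤ b := by exact_mod_cast hb
  have hb0 : (0 : ℝ) < b := by linarith
  have hθ : (P : ℝ) / 2 ≤ ∑ p ∈ (Ioc P (2 * P)).filter Nat.Prime, Real.log p :=
    hP₀ P (by exact_mod_cast f4.trans hP)
  set η : ℝ := K / (4 * b * P) with hη
  have hη0 : 0 < η := by positivity
  have hη1 : η ≤ 1 / 2 := by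
    rw [hη, div_le_iff₀ (by positivity)]
    nlinarith
  set E : ℝ := P * L ^ (-(6 * B + 1)) with hE
  have hE0 : 0 ≤ E := by positivity
  have hw : ∀ d ∈ (Ioc P (2 * P)).filter Nat.Prime, 0 ≤ Real.log (d : ℝ) := fun d hd => by
    rw [mem_filter] at hd
    exact Real.log_nonneg (by exact_mod_cast hd.2.one_lt.le)
  have key := ker_low ((Ioc P (2 * P)).filter Nat.Prime) (fun p => Real.log p)
    (fun p => N / (b * p)) hw (t₀ := 1 / b - η) (η := η) (E := E) hη0 hη1 hE0 (by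
      intro l hl hl2
      have hl1 : (1 : ℝ) ≤ l := by exact_mod_cast hl
      have hl3 : (l : ℝ) ≤ 20 * b * P / K := by
        refine hl2.trans (le_of_eq ?_)
        rw [hη]
        field_simp
        norm_num
      have hF1 : n ^ (99 / 100 : ℝ) ≤ l * N / b := by
        rw [le_div_iff₀ hb0]
        calc n ^ (99 / 100 : ℝ) * b ≤ n ^ (99 / 100 : ℝ) * n ^ (1 / 100 : ℝ) :=
              mul_le_mul_of_nonneg_left (hbL.trans f2) (by positivity)
          _ = n := by
              rw [← Real.rpow_add hn0]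
              norm_num
          _ ≤ 1 * N := by linarith
          _ ≤ l * N := mul_le_mul_of_nonneg_right hl1 hN0.le
      have hF2 : l * N / b ≤ n ^ (2 : ℝ) := by
        rw [div_le_iff₀ hb0]
        have g1 : l * N ≤ 20 * b * P / K * (2 * n) := mul_le_mul hl3 hN' hN0.le (by positivity)
        refine g1.trans ?_
        have g2 : (P : ℝ) / K ≤ L ^ B := by
          rw [div_le_iff₀ hK0]
          linarith
        have g3 : 40 * n * L ^ B ≤ n ^ (2 : ℝ) := by
          have g4 : 40 * L ^ B ≤ n ^ (1 / 100 : ℝ) * n ^ (1 / 100 : ℝ) :=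
            mul_le_mul f3 f2 hLB.le (by positivity)
          have g5 : n ^ (1 / 100 : ℝ) * n ^ (1 / 100 : ℝ) ≤ n := by
            rw [← Real.rpow_add hn0]
            calc n ^ (1 / 100 + 1 / 100 : ℝ) ≤ n ^ (1 : ℝ) :=
                  Real.rpow_le_rpow_of_exponent_le f6 (by norm_num)
              _ = n := Real.rpow_one n
          have g6 : n ^ (2 : ℝ) = n * n := by
            rw [Real.rpow_two, sq]
          rw [g6]
          nlinarith
        calc 20 * b * P / K * (2 * n) = 40 * n * (P / K) * b := by ring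
          _ ≤ 40 * n * L ^ B * b := by
              refine mul_le_mul_of_nonneg_right (mul_le_mul_of_nonneg_left g2 (by positivity)) hb0.le
          _ ≤ n ^ (2 : ℝ) * b := mul_le_mul_of_nonneg_right g3 hb0.le
      have hs := h₁ n f5 P hP hP' (l * N / b) hF1 hF2
      refine le_trans (le_of_eq ?_) hs
      unfold SP
      congr 1
      refine sum_congr rfl fun p _ => ?_
      congr 2
      rw [div_div, mul_div_assoc])
  have hsub : ((Ioc P (2 * P)).filter Nat.Prime).filter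
      (fun d : ℕ => ∃ z : ℤ, |N / (b * (d : ℝ)) - (1 / b - η) - z| ≤ η / 2) ⊆
      (Ioc P (2 * P)).filter (fun p : ℕ => p.Prime ∧ ∃ q : ℕ, N < (p : ℝ) * (b * q + 1) ∧
        (p : ℝ) * (b * q + 1) ≤ N + K) := by
    intro p hp
    rw [mem_filter, mem_filter, mem_Ioc] at hp
    obtain ⟨⟨⟨hp1, hp2⟩, hp3⟩, z, hz⟩ := hp
    rw [mem_filter, mem_Ioc]
    refine ⟨⟨hp1, hp2⟩, hp3, ?_⟩
    have hp1' : (P : ℝ) < p := by exact_mod_cast hp1
    have hp2' : (p : ℝ) ≤ 2 * P := by exact_mod_cast hp2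
    have hp0 : (0 : ℝ) < p := by linarith
    rw [abs_le] at hz
    have hNp : N = b * p * (N / (b * p)) := by
      field_simp
    have hηK : η * (b * P) = K / 4 := by
      rw [hη]
      field_simp
    have hbp : 0 < b * (p : ℝ) := by positivity
    have k1 : (p : ℝ) * (b * z + 1) - N = b * p * (z - N / (b * p) + 1 / b) := by
      have g1 : b * (p : ℝ) * (1 / b) = p := by
        field_simp
      linear_combination -hNp - g1
    have k2 : η / 2 ≤ z - N / (b * p) + 1 / b := by linarith [hz.2]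
    have k3 : z - N / (b * p) + 1 / b ≤ 3 * η / 2 := by linarith [hz.1]
    have k4 : 0 < (p : ℝ) * (b * z + 1) - N := by
      rw [k1]
      exact mul_pos hbp (by linarith)
    have k5 : (p : ℝ) * (b * z + 1) - N ≤ K := by
      rw [k1]
      have g1 : b * (p : ℝ) * (z - N / (b * p) + 1 / b) ≤ b * p * (3 * η / 2) :=
        mul_le_mul_of_nonneg_left k3 hbp.le
      have g2 : b * (p : ℝ) * (3 * η / 2) ≤ b * (2 * P) * (3 * η / 2) :=
        mul_le_mul_of_nonneg_right (mul_le_mul_of_nonneg_left hp2' hb0.le) (by positivity)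
      have g3 : b * (2 * (P : ℝ)) * (3 * η / 2) = 3 * (η * (b * P)) := by ring
      rw [g3, hηK] at g2
      linarith
    have k6 : 0 < (b : ℝ) * z + 1 := by
      have : 0 < (p : ℝ) * (b * z + 1) := by linarith
      exact (mul_pos_iff_of_pos_left hp0).1 this
    have k7 : 0 ≤ z := by
      by_contra h
      have h' : z ≤ -1 := by omega
      have h'' : (z : ℝ) ≤ -1 := by exact_mod_cast h'
      nlinarith
    obtain ⟨q, rfl⟩ := Int.eq_ofNat_of_zero_le k7
    refine ⟨q, ?_, ?_⟩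
    · have : (((q : ℤ)) : ℝ) = q := by norm_cast
      rw [this] at k4
      linarith
    · have : (((q : ℤ)) : ℝ) = q := by norm_cast
      rw [this] at k5
      linarith
  have hle : ∑ d ∈ ((Ioc P (2 * P)).filter Nat.Prime).filter
      (fun d : ℕ => ∃ z : ℤ, |N / (b * (d : ℝ)) - (1 / b - η) - z| ≤ η / 2), Real.log (d : ℝ) ≤
      ∑ p ∈ (Ioc P (2 * P)).filter (fun p : ℕ => p.Prime ∧ ∃ q : ℕ, N < (p : ℝ) * (b * q + 1) ∧
        (p : ℝ) * (b * q + 1) ≤ N + K), Real.log (p : ℝ) := by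
    refine sum_le_sum_of_subset_of_nonneg hsub fun p hp _ => ?_
    rw [mem_filter] at hp
    exact Real.log_nonneg (by exact_mod_cast hp.2.1.one_lt.le)
  refine le_trans ?_ (key.trans hle)
  have m1 : η / 25 * (P / 2) ≤ η / 25 * ∑ p ∈ (Ioc P (2 * P)).filter Nat.Prime, Real.log (p : ℝ) :=
    mul_le_mul_of_nonneg_left hθ (by positivity)
  have m2 : η / 25 * (P / 2) = K / (200 * b) := by
    rw [hη]
    field_simp
    norm_num
  have m3 : E / η ^ 2 ≤ K / (400 * b) := by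
    have g0 : E / η ^ 2 = 16 * b ^ 2 * P ^ 3 * L ^ (-(6 * B + 1)) / K ^ 2 := by
      rw [hE, hη]
      field_simp
      norm_num
    rw [g0, div_le_div_iff₀ (by positivity) (by positivity)]
    have g1 : L ^ (-(6 * B + 1)) * (L ^ B) ^ 6 * L = 1 := by
      rw [← Real.rpow_natCast (L ^ B) 6, ← Real.rpow_mul hL0.le, ← Real.rpow_add hL0]
      nth_rewrite 2 [← Real.rpow_one L]
      rw [← Real.rpow_add hL0]
      have : -(6 * B + 1) + B * ((6 : ℕ) : ℝ) + 1 = 0 := by
        push_cast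
        ring
      rw [this, Real.rpow_zero]
    have g2 : (b : ℝ) ^ 3 ≤ (L ^ B) ^ 3 := pow_le_pow_left₀ hb0.le hbL 3
    have g3 : (P : ℝ) ^ 3 ≤ (K * L ^ B) ^ 3 := pow_le_pow_left₀ hPpos.le hPK 3
    have hM : 0 ≤ L ^ (-(6 * B + 1)) := by positivity
    calc 16 * (b : ℝ) ^ 2 * P ^ 3 * L ^ (-(6 * B + 1)) * (400 * b)
        = 6400 * (b ^ 3 * P ^ 3) * L ^ (-(6 * B + 1)) := by ring
      _ ≤ 6400 * ((L ^ B) ^ 3 * (K * L ^ B) ^ 3) * L ^ (-(6 * B + 1)) := by
          refine mul_le_mul_of_nonneg_right (mul_le_mul_of_nonneg_left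
            (mul_le_mul g2 g3 (by positivity) (by positivity)) (by norm_num)) hM
      _ = 6400 * K ^ 3 * (L ^ (-(6 * B + 1)) * (L ^ B) ^ 6) := by ring
      _ ≤ L * K ^ 3 * (L ^ (-(6 * B + 1)) * (L ^ B) ^ 6) := by
          refine mul_le_mul_of_nonneg_right (mul_le_mul_of_nonneg_right f1 (by positivity))
            (by positivity)
      _ = K ^ 3 * (L ^ (-(6 * B + 1)) * (L ^ B) ^ 6 * L) := by ring
      _ = K * K ^ 2 := by
          rw [g1]
          ring
  have m4 : K / (200 * b) = K / (400 * b) + K / (400 * b) := by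
    field_simp
    norm_num
  linarith

end Pool.Agent.H70.LC2
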