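import Pool.Agent.H70.LC2.LB
import Pool.Agent.H70.LC2.UB

/-!
# LC2 SA: a resonance `b m ≈ a n`

`sa_main`.  `L = log n`.  By `ub_main` it is enough to exclude the second case.  `lb_main ε 3` with `P = 6 k H`, `b = 1`, `N = n`, `K = k` (`P ≤ k L^3`: `6 H ≤ 6 (L² + 1) ≤ L³`; `P ≤ n^(13/20)`): the primes `p ∈ (P, 2P]` with `n < p (q + 1) ≤ n + k` for some
`q` satisfy `∑ log p ≥ k/400`; `log p ≤ log (2P) ≤ L`, so there are at least `k / (400 L)` of them; they divide an `x ∈ (n, n+k]`, so by hypothesis also a `y ∈ (m, m+k]`, so they are in the set of `ub_main`: `k/(400 L) ≤ 200 k / L²`,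
contradiction for `L > 80000` (`k > 0`).
-/

set_option autoImplicit false

open Finset

namespace Pool.Agent.H70.LC2

theorem sa_main (ε C : ℝ) (hε : 0 < ε) : ∃ n₀ : ℕ, ∀ n m k H P : ℕ, n₀ ≤ n → H = ⌈Real.log n ^ 2⌉₊ → P = 6 * k * H →
    Real.exp (Real.log n ^ (2 / 3 + ε)) ≤ k → (k : ℝ) ≤ (n : ℝ) ^ (3 / 5 : ℝ) → n + k ≤ m → (m : ℝ) ≤ (n : ℝ) ^ C →
    (∀ p : ℕ, p.Prime → P < p → p ≤ 2 * P → (∃ x ∈ Ioc n (n + k), p ∣ x) → ∃ y ∈ Ioc m (m + k), p ∣ y) →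
    ∃ a b : ℕ, 1 ≤ b ∧ b ≤ a ∧ a < H ∧ Nat.Coprime a b ∧ |(b : ℝ) * m - a * n| < P * Real.log n ^ 6 := by
  classical
  obtain ⟨n₁, hn₁⟩ := lb_main ε 3 hε (by norm_num)
  obtain ⟨n₂, hn₂⟩ := ub_main ε C hε
  refine ⟨max n₂ (max ⌈n₁⌉₊ ⌈Real.exp 300000⌉₊), ?_⟩
  intro n m k H P hn hH hP hk hk' hm hm' hyp
  have hn2 : n₂ ≤ n := (le_max_left _ _).trans hn
  have hn1 : n₁ ≤ n := by
    have h1 : ⌈n₁⌉₊ ≤ n := (le_max_left _ _).trans ((le_max_right _ _).trans hn)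
    exact (Nat.le_ceil n₁).trans (by exact_mod_cast h1)
  have hne : Real.exp 300000 ≤ n := by
    have h1 : ⌈Real.exp 300000⌉₊ ≤ n := (le_max_right _ _).trans ((le_max_right _ _).trans hn)
    exact (Nat.le_ceil _).trans (by exact_mod_cast h1)
  have hn0 : (0 : ℝ) < n := (Real.exp_pos _).trans_le hne
  set L : ℝ := Real.log n with hL
  have hLbig : 300000 ≤ L := by
    rw [hL, Real.le_log_iff_exp_le hn0]
    exact hne
  have hL0 : 0 < L := by linarith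
  have hkpos : (0 : ℝ) < k := (Real.exp_pos _).trans_le hk
  have hH1 : (H : ℝ) < L ^ 2 + 1 := by
    rw [hH]
    exact Nat.ceil_lt_add_one (by positivity)
  have hH2 : L ^ 2 ≤ (H : ℝ) := by
    rw [hH]
    exact Nat.le_ceil _
  have hH3 : (1 : ℝ) ≤ H := by nlinarith
  have hPr : (P : ℝ) = 6 * k * H := by
    rw [hP]
    push_cast
    ring
  have hkP : (k : ℝ) ≤ P := by
    rw [hPr]
    nlinarith
  have hexp : 6 * (L ^ 2 + 1) ≤ Real.exp (L / 20) := by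
    have h1 : (L / 20) ^ 3 / (Nat.factorial 3 : ℝ) ≤ Real.exp (L / 20) :=
      Real.pow_div_factorial_le_exp (L / 20) (by positivity) 3
    have h2 : (Nat.factorial 3 : ℝ) = 6 := by
      norm_num [Nat.factorial]
    rw [h2] at h1
    have h3 : 6 * (L ^ 2 + 1) ≤ (L / 20) ^ 3 / 6 := by
      have h4 : (L / 20) ^ 3 / 6 = L ^ 2 * L / 48000 := by ring
      rw [h4]
      have h5 : L ^ 2 * 300000 ≤ L ^ 2 * L := mul_le_mul_of_nonneg_left hLbig (by positivity)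
      have h6 : (300000 : ℝ) ^ 2 ≤ L ^ 2 := by gcongr
      linarith
    exact h3.trans h1
  have hrpow : ∀ t : ℝ, (n : ℝ) ^ t = Real.exp (L * t) := fun t => by
    rw [Real.rpow_def_of_pos hn0]
  have hPn : (P : ℝ) ≤ (n : ℝ) ^ (13 / 20 : ℝ) := by
    have h1 : (P : ℝ) ≤ (n : ℝ) ^ (3 / 5 : ℝ) * Real.exp (L / 20) := by
      have h2 : (0 : ℝ) ≤ (n : ℝ) ^ (3 / 5 : ℝ) := Real.rpow_nonneg hn0.le _
      calc (P : ℝ) = k * (6 * H) := by rw [hPr]; ring
        _ ≤ (n : ℝ) ^ (3 / 5 : ℝ) * Real.exp (L / 20) :=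
            mul_le_mul hk' (by linarith) (by positivity) h2
    refine h1.trans (le_of_eq ?_)
    rw [hrpow, hrpow, ← Real.exp_add]
    congr 1
    ring
  have h2P : (2 : ℝ) * P ≤ n := by
    have h1 : (n : ℝ) = (n : ℝ) ^ (13 / 20 : ℝ) * (n : ℝ) ^ (7 / 20 : ℝ) := by
      rw [← Real.rpow_add hn0]
      norm_num
    have h2 : (2 : ℝ) ≤ (n : ℝ) ^ (7 / 20 : ℝ) := by
      rw [hrpow]
      have := Real.add_one_le_exp (L * (7 / 20))
      linarith
    calc (2 : ℝ) * P ≤ (n : ℝ) ^ (7 / 20 : ℝ) * (n : ℝ) ^ (13 / 20 : ℝ) :=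
          mul_le_mul h2 hPn (by positivity) (by positivity)
      _ = n := by rw [mul_comm]; exact h1.symm
  rcases hn₂ n m k H P hn2 hH hP hk hk' hm hm' with h | hub
  · exact h
  exfalso
  have hPK : (P : ℝ) ≤ k * Real.log (n : ℝ) ^ (3 : ℝ) := by
    have h3 : Real.log (n : ℝ) ^ (3 : ℝ) = L ^ 3 := by
      rw [← hL]
      exact_mod_cast Real.rpow_natCast L 3
    rw [h3, hPr]
    have h4 : 6 * (H : ℝ) ≤ L ^ 3 := by
      have h5 : 6 * (H : ℝ) ≤ 6 * L ^ 2 + 6 := by linarith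
      have h6 : L ^ 2 * 300000 ≤ L ^ 2 * L := mul_le_mul_of_nonneg_left hLbig (by positivity)
      have h7 : (300000 : ℝ) ^ 2 ≤ L ^ 2 := by gcongr
      have h8 : L ^ 3 = L ^ 2 * L := by ring
      rw [h8]
      linarith
    nlinarith
  have hlb := hn₁ n hn1 P 1 n k (hk.trans hkP) hPn le_rfl
    (by
      have h3 : Real.log (n : ℝ) ^ (3 : ℝ) = L ^ 3 := by
        rw [← hL]
        exact_mod_cast Real.rpow_natCast L 3
      rw [h3]
      have : (1 : ℝ) ≤ L ^ 3 := one_le_pow₀ (by linarith)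
      exact_mod_cast this) le_rfl (by linarith) hPK hkP
  set S := (Ioc P (2 * P)).filter (fun p : ℕ => p.Prime ∧ ∃ q : ℕ,
    (n : ℝ) < (p : ℝ) * (((1 : ℕ) : ℝ) * q + 1) ∧ (p : ℝ) * (((1 : ℕ) : ℝ) * q + 1) ≤ n + k) with hS
  have hlog : ∑ p ∈ S, Real.log p ≤ S.card * L := by
    have h1 : ∀ p ∈ S, Real.log (p : ℝ) ≤ L := by
      intro p hp
      rw [hS, Finset.mem_filter, Finset.mem_Ioc] at hp
      have h2 : (p : ℝ) ≤ n := by
        have h3 : (p : ℝ) ≤ 2 * P := by exact_mod_cast hp.1.2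
        linarith
      exact Real.log_le_log (by exact_mod_cast hp.2.1.pos) h2
    have h2 := Finset.sum_le_card_nsmul S (fun p : ℕ => Real.log (p : ℝ)) L h1
    rwa [nsmul_eq_mul] at h2
  have hsub : S ⊆ (Ioc P (2 * P)).filter
      (fun d => (∃ x ∈ Ioc n (n + k), d ∣ x) ∧ ∃ y ∈ Ioc m (m + k), d ∣ y) := by
    intro p hp
    rw [hS, Finset.mem_filter, Finset.mem_Ioc] at hp
    obtain ⟨⟨hp1, hp2⟩, hp3, q, hq1, hq2⟩ := hp
    have hx : ∃ x ∈ Ioc n (n + k), p ∣ x := by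
      refine ⟨p * (q + 1), ?_, dvd_mul_right _ _⟩
      rw [Finset.mem_Ioc]
      constructor
      · have : (n : ℝ) < ((p * (q + 1) : ℕ) : ℝ) := by
          push_cast
          simpa using hq1
        exact_mod_cast this
      · have : ((p * (q + 1) : ℕ) : ℝ) ≤ ((n + k : ℕ) : ℝ) := by
          push_cast
          simpa using hq2
        exact_mod_cast this
    rw [Finset.mem_filter, Finset.mem_Ioc]
    exact ⟨⟨hp1, hp2⟩, hx, hyp p hp3 hp1 hp2 hx⟩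
  have hcard : (S.card : ℝ) ≤ 200 * k / L ^ 2 := by
    have h1 : (S.card : ℝ) ≤ (((Ioc P (2 * P)).filter
      (fun d => (∃ x ∈ Ioc n (n + k), d ∣ x) ∧ ∃ y ∈ Ioc m (m + k), d ∣ y)).card : ℝ) := by
      exact_mod_cast Finset.card_le_card hsub
    exact h1.trans hub
  have h1 : (k : ℝ) / 400 ≤ S.card * L := by
    have h2 : (k : ℝ) / (400 * ((1 : ℕ) : ℝ)) = k / 400 := by
      norm_num
    rw [h2] at hlb
    exact hlb.trans hlog
  have h2 : (S.card : ℝ) * L ≤ 200 * k / L := by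
    have h3 : 200 * (k : ℝ) / L ^ 2 * L = 200 * k / L := by
      field_simp
    rw [← h3]
    exact mul_le_mul_of_nonneg_right hcard hL0.le
  have h3 : (k : ℝ) / 400 ≤ 200 * k / L := h1.trans h2
  rw [le_div_iff₀ hL0] at h3
  nlinarith

end Pool.Agent.H70.LC2
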