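import Pool.Agent.H70.LC2.Defs
import Pool.Agent.H91.PK.Vau
import Pool.Agent.H91.PK.LSa

/-!
# LC2 VA: sums of type I

For `a ≥ 1` the inner sum: `GP P F (a b) = ee ((F/a)/b)` for `P / a < b ≤ 2 P / a` (natural number division: `P < a b ↔ P / a < b`), so it is a sum over `b ∈ Ioc ⌊M⌋₊ ⌊2M⌋₊`, `M = P / a` (real;
`⌊(P:ℝ)/a⌋₊ = P / a`: `Nat.floor_div_eq_div` / `Nat.floor_div_natCast`).  All partial sums (over `Ioc ⌊M⌋₊ ⌊y⌋₊`, `M ≤ y ≤ 2M`) are at most `δ M`: `hE M (F/a)` (`M₀ ≤ M` because `M₀ a ≤ P` [if `M₀ ≥ 0` from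
`M₀ V ≤ P`, otherwise clear]; `M T = P T / a ≤ |F/a|`; `|F/a| ≤ |F| ≤ X`).
`tyIa`: partial summation with `log b` (nonnegative, nondecreasing, at most `log (2P)`): inner sum `≤ 2 log (2P) δ P / a` (see `ty1a` in `Pool/Agent/H76/SP/VinI.lean` for the same step); then
`∑_{a ≤ V} 1/a ≤ 1 + log V ≤ 1 + log (2P)`, `|μ a| ≤ 1`.
`tyIb`: inner sum `≤ δ P / a`, `|nuV U V a| ≤ log a ≤ log (2P)` (`abs_nuV_le` in Vau), `∑_{a ≤ UV} 1/a ≤ 1 + log (2P)`.
-/

set_option autoImplicit false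

open Finset
open Pool.Agent.H91.PK (ee nuV)

namespace Pool.Agent.H70.LC2

/-- Abel summation with the logarithm -/
private lemma VA_abel (f : ℕ → ℂ) (B : ℝ) (y : ℕ)
    (hE : ∀ z, z ≤ y → ‖∑ b ∈ Icc 1 z, f b‖ ≤ B) :
    ‖∑ b ∈ Icc 1 y, ((Real.log b : ℝ) : ℂ) * f b‖ ≤ 2 * Real.log y * B := by
  have key : ∀ z, z ≤ y → ‖((Real.log z : ℝ) : ℂ) * (∑ b ∈ Icc 1 z, f b)
      - ∑ b ∈ Icc 1 z, ((Real.log b : ℝ) : ℂ) * f b‖ ≤ Real.log z * B := by
    intro z
    induction z with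
    | zero => intro _; simp
    | succ z ih =>
      intro hz
      have h1 := ih (by omega)
      have e : ((Real.log ((z + 1 : ℕ) : ℝ) : ℝ) : ℂ) * (∑ b ∈ Icc 1 (z + 1), f b)
          - ∑ b ∈ Icc 1 (z + 1), ((Real.log b : ℝ) : ℂ) * f b
          = (((Real.log z : ℝ) : ℂ) * (∑ b ∈ Icc 1 z, f b)
            - ∑ b ∈ Icc 1 z, ((Real.log b : ℝ) : ℂ) * f b)
            + (((Real.log ((z + 1 : ℕ) : ℝ) - Real.log z : ℝ)) : ℂ) * (∑ b ∈ Icc 1 z, f b) := by
        rw [Finset.sum_Icc_succ_top (by omega), Finset.sum_Icc_succ_top (by omega)]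
        push_cast
        ring
      have hlog : 0 ≤ Real.log ((z + 1 : ℕ) : ℝ) - Real.log z := by
        rcases Nat.eq_zero_or_pos z with h0 | h0
        · subst h0; simp
        · have : Real.log z ≤ Real.log ((z + 1 : ℕ) : ℝ) :=
            Real.log_le_log (by exact_mod_cast h0) (by push_cast; linarith)
          linarith
      rw [e]
      refine (norm_add_le _ _).trans ?_
      rw [norm_mul, Complex.norm_real, Real.norm_eq_abs, abs_of_nonneg hlog]
      have h2 := mul_le_mul_of_nonneg_left (hE z (by omega)) hlog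
      linarith
  have h1 := key y le_rfl
  have h2 : 0 ≤ Real.log y := Real.log_natCast_nonneg y
  have h3 : ‖((Real.log y : ℝ) : ℂ) * (∑ b ∈ Icc 1 y, f b)‖ ≤ Real.log y * B := by
    rw [norm_mul, Complex.norm_real, Real.norm_eq_abs, abs_of_nonneg h2]
    exact mul_le_mul_of_nonneg_left (hE y le_rfl) h2
  have h4 : ‖∑ b ∈ Icc 1 y, ((Real.log b : ℝ) : ℂ) * f b‖ ≤
      ‖((Real.log y : ℝ) : ℂ) * (∑ b ∈ Icc 1 y, f b)‖
        + ‖((Real.log y : ℝ) : ℂ) * (∑ b ∈ Icc 1 y, f b)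
          - ∑ b ∈ Icc 1 y, ((Real.log b : ℝ) : ℂ) * f b‖ := by
    have := norm_sub_le (((Real.log y : ℝ) : ℂ) * (∑ b ∈ Icc 1 y, f b))
      (((Real.log y : ℝ) : ℂ) * (∑ b ∈ Icc 1 y, f b)
          - ∑ b ∈ Icc 1 y, ((Real.log b : ℝ) : ℂ) * f b)
    rwa [sub_sub_cancel] at this
  linarith

private lemma VA_GP {P a b : ℕ} (F : ℝ) (ha : 1 ≤ a) (hb : b ≤ 2 * P / a) :
    GP P F (a * b) = if P / a < b then ee (F / a / b) else 0 := by
  unfold GP
  have h1 : P < a * b ↔ P / a < b := by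
    rw [Nat.div_lt_iff_lt_mul ha, mul_comm]
  have h2 : a * b ≤ 2 * P := by
    rw [mul_comm]
    exact (Nat.le_div_iff_mul_le ha).1 hb
  by_cases h3 : P / a < b
  · rw [if_pos ⟨h1.2 h3, h2⟩, if_pos h3, div_div]
    push_cast
    rfl
  · rw [if_neg (fun h => h3 (h1.1 h.1)), if_neg h3]

/-- the partial sums -/
private lemma VA_part {P W : ℕ} {F X δ T M₀ : ℝ} (hE : HE X δ T M₀) (hδ : 0 ≤ δ) (hF : P * T ≤ |F|) (hX : |F| ≤ X)
    (hW : M₀ * W ≤ P) {a z : ℕ} (ha : 1 ≤ a) (haW : a ≤ W) (hz : z ≤ 2 * P / a) :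
    ‖∑ b ∈ Icc 1 z, GP P F (a * b)‖ ≤ δ * (P / a) := by
  have ha0 : (0 : ℝ) < a := by exact_mod_cast ha
  have hM : 0 ≤ (P : ℝ) / a := by positivity
  have hsum : ∑ b ∈ Icc 1 z, GP P F (a * b) = ∑ b ∈ Ioc (P / a) z, ee (F / a / b) := by
    rw [Finset.sum_congr rfl fun b hb => VA_GP F ha ((mem_Icc.1 hb).2.trans hz), ← Finset.sum_filter]
    refine Finset.sum_congr ?_ fun _ _ => rfl
    ext b
    simp only [mem_filter, mem_Icc, mem_Ioc]
    exact ⟨fun h => ⟨h.2, h.1.2⟩, fun h => ⟨⟨Nat.one_le_of_lt h.1, h.2⟩, h.1⟩⟩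
  rw [hsum]
  rcases Nat.lt_or_ge (P / a) z with h1 | h1
  · have h2 : M₀ ≤ (P : ℝ) / a := by
      rw [le_div_iff₀ ha0]
      rcases le_total 0 M₀ with h3 | h3
      · refine (mul_le_mul_of_nonneg_left ?_ h3).trans hW
        exact_mod_cast haW
      · exact (mul_nonpos_of_nonpos_of_nonneg h3 ha0.le).trans (Nat.cast_nonneg P)
    have h4 : |F / a| = |F| / a := by rw [abs_div, abs_of_pos ha0]
    have h5 : (P : ℝ) / a * T ≤ |F / a| := by
      rw [h4, div_mul_eq_mul_div]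
      exact div_le_div_of_nonneg_right hF ha0.le
    have h6 : |F / a| ≤ X := by
      rw [h4]
      refine le_trans ?_ hX
      exact div_le_self (abs_nonneg F) (by exact_mod_cast ha)
    have h7 : (P : ℝ) / a ≤ z := by
      have h8 : (P : ℝ) / a < ((P / a : ℕ) : ℝ) + 1 := by
        rw [← Nat.floor_div_eq_div (K := ℝ)]
        exact Nat.lt_floor_add_one _
      have h9 : (((P / a : ℕ) : ℝ) + 1) ≤ z := by exact_mod_cast h1
      linarith
    have h10 : (z : ℝ) ≤ 2 * ((P : ℝ) / a) := by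
      have h11 : (z : ℝ) ≤ ((2 * P / a : ℕ) : ℝ) := by exact_mod_cast hz
      have h12 : ((2 * P / a : ℕ) : ℝ) ≤ ((2 * P : ℕ) : ℝ) / a := Nat.cast_div_le
      have h13 : ((2 * P : ℕ) : ℝ) / a = 2 * ((P : ℝ) / a) := by
        push_cast
        ring
      linarith
    have h14 := hE ((P : ℝ) / a) (F / a) h2 h5 h6 ((P : ℝ) / a) z le_rfl h7 h10
    rwa [Nat.floor_div_eq_div, Nat.floor_natCast] at h14
  · rw [Finset.Ioc_eq_empty (by omega), Finset.sum_empty, norm_zero]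
    positivity

private lemma VA_harm {P W : ℕ} (hP : 1 ≤ P) (hW : W ≤ P) :
    ∑ a ∈ Icc 1 W, (1 / a : ℝ) ≤ 1 + Real.log (2 * P) := by
  have h1 := harmonic_le_one_add_log W
  rw [harmonic_eq_sum_Icc] at h1
  push_cast at h1
  have h2 : ∑ a ∈ Icc 1 W, (1 / a : ℝ) = ∑ a ∈ Icc 1 W, ((a : ℝ))⁻¹ := Finset.sum_congr rfl fun a _ => one_div _
  have h3 : Real.log W ≤ Real.log (2 * P) := by
    have h4 : (0 : ℝ) < P := by exact_mod_cast hP
    rcases Nat.eq_zero_or_pos W with h0 | h0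
    · subst h0
      simp only [Nat.cast_zero, Real.log_zero]
      exact Real.log_nonneg (by
        have h5 : (1 : ℝ) ≤ P := by exact_mod_cast hP
        linarith)
    · apply Real.log_le_log (by exact_mod_cast h0)
      have h5 : (W : ℝ) ≤ P := by exact_mod_cast hW
      linarith
  rw [h2]
  linarith

theorem tyIa {P V : ℕ} {F X δ T M₀ : ℝ} (hE : HE X δ T M₀) (hδ : 0 ≤ δ) (hP : 1 ≤ P) (hF : P * T ≤ |F|) (hX : |F| ≤ X)
    (hV : M₀ * V ≤ P) (hVP : V ≤ P) :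
    ‖∑ a ∈ Icc 1 V, ((ArithmeticFunction.moebius a : ℝ) : ℂ) * ∑ b ∈ Icc 1 (2 * P / a), ((Real.log b : ℝ) : ℂ) * GP P F (a * b)‖ ≤
      2 * δ * P * (1 + Real.log (2 * P)) ^ 2 := by
  have hP1 : (1 : ℝ) ≤ P := by exact_mod_cast hP
  have hL : 0 ≤ Real.log (2 * P) := Real.log_nonneg (by linarith)
  have h1 : ∀ a ∈ Icc 1 V, ‖((ArithmeticFunction.moebius a : ℝ) : ℂ) *
      ∑ b ∈ Icc 1 (2 * P / a), ((Real.log b : ℝ) : ℂ) * GP P F (a * b)‖ ≤ 2 * Real.log (2 * P) * δ * P * (1 / a) := by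
    intro a ha
    rw [mem_Icc] at ha
    have ha0 : (0 : ℝ) < a := by exact_mod_cast ha.1
    have hmu : ‖((ArithmeticFunction.moebius a : ℝ) : ℂ)‖ ≤ 1 := by
      rw [Complex.norm_real, Real.norm_eq_abs]
      exact_mod_cast ArithmeticFunction.abs_moebius_le_one
    have h2 := VA_abel (fun b => GP P F (a * b)) (δ * (P / a)) (2 * P / a)
      (fun z hz => VA_part hE hδ hF hX hV ha.1 ha.2 hz)
    have h3 : Real.log ((2 * P / a : ℕ) : ℝ) ≤ Real.log (2 * P) := by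
      rcases Nat.eq_zero_or_pos (2 * P / a) with h0 | h0
      · rw [h0]
        simpa using hL
      · refine Real.log_le_log (by exact_mod_cast h0) ?_
        have h4 : ((2 * P / a : ℕ) : ℝ) ≤ ((2 * P : ℕ) : ℝ) := by exact_mod_cast Nat.div_le_self (2 * P) a
        push_cast at h4 ⊢
        exact h4
    have h5 : 0 ≤ δ * (P / a) := by positivity
    rw [norm_mul]
    calc ‖((ArithmeticFunction.moebius a : ℝ) : ℂ)‖ *
          ‖∑ b ∈ Icc 1 (2 * P / a), ((Real.log b : ℝ) : ℂ) * GP P F (a * b)‖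
        ≤ 1 * (2 * Real.log ((2 * P / a : ℕ) : ℝ) * (δ * (P / a))) :=
          mul_le_mul hmu h2 (norm_nonneg _) zero_le_one
      _ ≤ 2 * Real.log (2 * P) * (δ * (P / a)) := by
          rw [one_mul]
          exact mul_le_mul_of_nonneg_right (by linarith) h5
      _ = 2 * Real.log (2 * P) * δ * P * (1 / a) := by ring
  refine (norm_sum_le _ _).trans ((sum_le_sum h1).trans ?_)
  rw [← mul_sum]
  have h6 := VA_harm hP hVP
  have h7 : 0 ≤ 2 * Real.log (2 * P) * δ * P := by positivity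
  calc 2 * Real.log (2 * P) * δ * P * ∑ a ∈ Icc 1 V, (1 / a : ℝ)
      ≤ 2 * Real.log (2 * P) * δ * P * (1 + Real.log (2 * P)) := mul_le_mul_of_nonneg_left h6 h7
    _ = (2 * δ * P * (1 + Real.log (2 * P))) * Real.log (2 * P) := by ring
    _ ≤ (2 * δ * P * (1 + Real.log (2 * P))) * (1 + Real.log (2 * P)) :=
        mul_le_mul_of_nonneg_left (by linarith) (by positivity)
    _ = 2 * δ * P * (1 + Real.log (2 * P)) ^ 2 := by ring

private lemma VA_nuV (U V a : ℕ) : |nuV U V a| ≤ Real.log a := by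
  unfold nuV
  calc |∑ d ∈ a.divisors.filter (fun d => d ≤ V ∧ a / d ≤ U),
        (ArithmeticFunction.moebius d : ℝ) * ArithmeticFunction.vonMangoldt (a / d)|
      ≤ ∑ d ∈ a.divisors.filter (fun d => d ≤ V ∧ a / d ≤ U),
        |(ArithmeticFunction.moebius d : ℝ) * ArithmeticFunction.vonMangoldt (a / d)| :=
        abs_sum_le_sum_abs _ _
    _ ≤ ∑ d ∈ a.divisors.filter (fun d => d ≤ V ∧ a / d ≤ U),
        ArithmeticFunction.vonMangoldt (a / d) := by
        refine sum_le_sum fun d _ => ?_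
        rw [abs_mul, abs_of_nonneg (ArithmeticFunction.vonMangoldt_nonneg (n := a / d))]
        have hmu : |(ArithmeticFunction.moebius d : ℝ)| ≤ 1 := by
          exact_mod_cast ArithmeticFunction.abs_moebius_le_one
        have := mul_le_mul_of_nonneg_right hmu (ArithmeticFunction.vonMangoldt_nonneg (n := a / d))
        linarith
    _ ≤ ∑ d ∈ a.divisors, ArithmeticFunction.vonMangoldt (a / d) :=
        sum_le_sum_of_subset_of_nonneg (filter_subset _ _)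
          (fun _ _ _ => ArithmeticFunction.vonMangoldt_nonneg)
    _ = ∑ d ∈ a.divisors, ArithmeticFunction.vonMangoldt d :=
        Nat.sum_div_divisors a ArithmeticFunction.vonMangoldt
    _ = Real.log a := ArithmeticFunction.vonMangoldt_sum

theorem tyIb {P U V : ℕ} {F X δ T M₀ : ℝ} (hE : HE X δ T M₀) (hδ : 0 ≤ δ) (hP : 1 ≤ P) (hF : P * T ≤ |F|) (hX : |F| ≤ X)
    (hV : M₀ * (U * V) ≤ P) (hVP : U * V ≤ P) :
    ‖∑ a ∈ Icc 1 (U * V), ((nuV U V a : ℝ) : ℂ) * ∑ b ∈ Icc 1 (2 * P / a), GP P F (a * b)‖ ≤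
      δ * P * (1 + Real.log (2 * P)) ^ 2 := by
  have hP1 : (1 : ℝ) ≤ P := by exact_mod_cast hP
  have hL : 0 ≤ Real.log (2 * P) := Real.log_nonneg (by linarith)
  have hV' : M₀ * ((U * V : ℕ) : ℝ) ≤ P := by
    push_cast
    exact hV
  have h1 : ∀ a ∈ Icc 1 (U * V), ‖((nuV U V a : ℝ) : ℂ) *
      ∑ b ∈ Icc 1 (2 * P / a), GP P F (a * b)‖ ≤ Real.log (2 * P) * δ * P * (1 / a) := by
    intro a ha
    rw [mem_Icc] at ha
    have ha0 : (0 : ℝ) < a := by exact_mod_cast ha.1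
    have hnu : ‖((nuV U V a : ℝ) : ℂ)‖ ≤ Real.log (2 * P) := by
      rw [Complex.norm_real, Real.norm_eq_abs]
      refine (VA_nuV U V a).trans ?_
      refine Real.log_le_log ha0 ?_
      have h2 : (a : ℝ) ≤ P := by exact_mod_cast ha.2.trans hVP
      linarith
    rw [norm_mul]
    calc ‖((nuV U V a : ℝ) : ℂ)‖ * ‖∑ b ∈ Icc 1 (2 * P / a), GP P F (a * b)‖
        ≤ Real.log (2 * P) * (δ * (P / a)) :=
          mul_le_mul hnu (VA_part hE hδ hF hX hV' ha.1 ha.2 le_rfl) (norm_nonneg _) hL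
      _ = Real.log (2 * P) * δ * P * (1 / a) := by ring
  refine (norm_sum_le _ _).trans ((sum_le_sum h1).trans ?_)
  rw [← mul_sum]
  have h6 := VA_harm hP hVP
  have h7 : 0 ≤ Real.log (2 * P) * δ * P := by positivity
  calc Real.log (2 * P) * δ * P * ∑ a ∈ Icc 1 (U * V), (1 / a : ℝ)
      ≤ Real.log (2 * P) * δ * P * (1 + Real.log (2 * P)) := mul_le_mul_of_nonneg_left h6 h7
    _ = (δ * P * (1 + Real.log (2 * P))) * Real.log (2 * P) := by ring
    _ ≤ (δ * P * (1 + Real.log (2 * P))) * (1 + Real.log (2 * P)) :=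
        mul_le_mul_of_nonneg_left (by linarith) (by positivity)
    _ = δ * P * (1 + Real.log (2 * P)) ^ 2 := by ring

end Pool.Agent.H70.LC2
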