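import Pool.Agent.H70.LC2.Defs
import Pool.Agent.H91.PK.LSa

/-!
# LC2 VB: the bilinear bound

`bilin`.  Cauchy-Schwarz: LHS `≤ (∑ ‖a m‖²) ∑_m ‖∑_n b n GP P F (m n)‖²`, and the second factor is (real part of) `∑_{n₁, n₂ ∈ S} b n₁ conj (b n₂) ∑_m GP P F (m n₁) conj (GP P F (m n₂))`.
For fixed `n₁, n₂ ≥ 1` the sum over `m ∈ Ioc ⌊M⌋₊ ⌊2M⌋₊` is over those `m` with `P < m n₁ ≤ 2P`, `P < m n₂ ≤ 2P`, that is `m ∈ Ioc ⌊x⌋₊ ⌊y⌋₊` with `x = max M (max (P/n₁) (P/n₂))`,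
`y = min (2M) (min (2P/n₁) (2P/n₂))` (real numbers; if `y < x` the sum is empty), and the term is `ee (F/(m n₁)) conj (ee (F/(m n₂))) = ee ((F (1/n₁ - 1/n₂)) / m)`.
`n₁ ≠ n₂`: at most `δ M` by `hE`; `n₁ = n₂`: at most the number of the `m`, `≤ ⌊2M⌋₊ - ⌊M⌋₊ ≤ M + 1 ≤ 2M`.  So the double sum is at most
`2M ∑ ‖b n‖² + δ M (∑ ‖b n‖)² ≤ (2M + δ M #S) ∑ ‖b n‖²`.
(See `Pool/Agent/H76/SP/VinII.lean` for a similar proof.)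
-/

set_option autoImplicit false

open Finset
open Pool.Agent.H91.PK (ee)

namespace Pool.Agent.H70.LC2

private theorem VB_norm_GP (P : ℕ) (F : ℝ) (n : ℕ) : ‖GP P F n‖ ≤ 1 := by
  unfold GP
  split_ifs
  · rw [Pool.Agent.H91.PK.LSa_norm_ee]
  · simp

private theorem VB_offdiag {M : ℝ} (hM : 1 ≤ M) {P : ℕ} {F δ : ℝ} (hδ : 0 ≤ δ) {n₁ n₂ : ℕ} (h₁ : 1 ≤ n₁) (h₂ : 1 ≤ n₂)
    (hE : EB M (F * (1 / n₁ - 1 / n₂)) δ) :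
    ‖∑ m ∈ Ioc ⌊M⌋₊ ⌊2 * M⌋₊, GP P F (m * n₁) * (starRingEnd ℂ) (GP P F (m * n₂))‖ ≤ δ * M := by
  have hM0 : 0 < M := by linarith
  have hn₁ : (0 : ℝ) < n₁ := by exact_mod_cast h₁
  have hn₂ : (0 : ℝ) < n₂ := by exact_mod_cast h₂
  set x : ℝ := max M (max ((P : ℝ) / n₁) ((P : ℝ) / n₂)) with hx
  set y : ℝ := min (2 * M) (min (2 * (P : ℝ) / n₁) (2 * (P : ℝ) / n₂)) with hy
  have hx0 : 0 ≤ x := hM0.le.trans (le_max_left _ _)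
  have hy0 : 0 ≤ y := by
    refine le_min (by linarith) (le_min (by positivity) (by positivity))
  have hmem : ∀ m : ℕ, (m ∈ Ioc ⌊M⌋₊ ⌊2 * M⌋₊ ∧ (P < m * n₁ ∧ m * n₁ ≤ 2 * P) ∧ (P < m * n₂ ∧ m * n₂ ≤ 2 * P)) ↔
      m ∈ Ioc ⌊x⌋₊ ⌊y⌋₊ := by
    intro m
    rw [mem_Ioc, mem_Ioc, Nat.floor_lt hM0.le, Nat.le_floor_iff (by linarith), Nat.floor_lt hx0, Nat.le_floor_iff hy0, hx, hy,
      max_lt_iff, max_lt_iff, le_min_iff, le_min_iff, div_lt_iff₀ hn₁, div_lt_iff₀ hn₂, le_div_iff₀ hn₁, le_div_iff₀ hn₂]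
    constructor
    · rintro ⟨⟨a1, a2⟩, ⟨a3, a4⟩, a5, a6⟩
      exact ⟨⟨a1, by exact_mod_cast a3, by exact_mod_cast a5⟩, a2, by exact_mod_cast a4, by exact_mod_cast a6⟩
    · rintro ⟨⟨a1, a3, a5⟩, a2, a4, a6⟩
      exact ⟨⟨a1, a2⟩, ⟨by exact_mod_cast a3, by exact_mod_cast a4⟩, by exact_mod_cast a5, by exact_mod_cast a6⟩
  have hterm : ∀ m ∈ Ioc ⌊M⌋₊ ⌊2 * M⌋₊, GP P F (m * n₁) * (starRingEnd ℂ) (GP P F (m * n₂)) =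
      if m ∈ Ioc ⌊x⌋₊ ⌊y⌋₊ then ee (F * (1 / n₁ - 1 / n₂) / m) else 0 := by
    intro m hm
    by_cases hc : (P < m * n₁ ∧ m * n₁ ≤ 2 * P) ∧ (P < m * n₂ ∧ m * n₂ ≤ 2 * P)
    · rw [if_pos ((hmem m).1 ⟨hm, hc⟩), GP, GP, if_pos hc.1, if_pos hc.2, Pool.Agent.H91.PK.LSa_conj_ee,
        ← Pool.Agent.H91.PK.LSa_ee_add]
      congr 1
      have hm0 : (m : ℝ) ≠ 0 := by
        have : 0 < m * n₁ := by omega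
        have h3 : 0 < m := Nat.pos_of_mul_pos_right this
        exact_mod_cast h3.ne'
      push_cast
      field_simp
      ring
    · rw [if_neg (fun h => hc ((hmem m).2 h).2), GP, GP]
      by_cases hc1 : P < m * n₁ ∧ m * n₁ ≤ 2 * P
      · rw [if_neg (fun h => hc ⟨hc1, h⟩)]
        simp
      · rw [if_neg hc1, zero_mul]
  rw [sum_congr rfl hterm, ← sum_filter]
  have hfil : (Ioc ⌊M⌋₊ ⌊2 * M⌋₊).filter (fun m => m ∈ Ioc ⌊x⌋₊ ⌊y⌋₊) = Ioc ⌊x⌋₊ ⌊y⌋₊ := by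
    ext m
    rw [mem_filter]
    exact ⟨fun h => h.2, fun h => ⟨((hmem m).2 h).1, h⟩⟩
  rw [hfil]
  by_cases hxy : x ≤ y
  · exact hE x y (le_max_left _ _) hxy (min_le_left _ _)
  · have : Ioc ⌊x⌋₊ ⌊y⌋₊ = ∅ := by
      rw [Ioc_eq_empty_iff, not_lt]
      exact Nat.floor_le_floor (not_le.1 hxy).le
    rw [this, sum_empty, norm_zero]
    positivity

private theorem VB_diag {M : ℝ} (hM : 1 ≤ M) {P : ℕ} {F : ℝ} {n₁ n₂ : ℕ} :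
    ‖∑ m ∈ Ioc ⌊M⌋₊ ⌊2 * M⌋₊, GP P F (m * n₁) * (starRingEnd ℂ) (GP P F (m * n₂))‖ ≤ 2 * M := by
  refine (norm_sum_le _ _).trans ?_
  have h1 : ∀ m ∈ Ioc ⌊M⌋₊ ⌊2 * M⌋₊, ‖GP P F (m * n₁) * (starRingEnd ℂ) (GP P F (m * n₂))‖ ≤ 1 := by
    intro m _
    rw [norm_mul, RCLike.norm_conj]
    exact mul_le_one₀ (VB_norm_GP _ _ _) (norm_nonneg _) (VB_norm_GP _ _ _)
  refine (sum_le_sum h1).trans ?_
  rw [sum_const, Nat.card_Ioc, nsmul_eq_mul, mul_one]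
  have h2 : (⌊2 * M⌋₊ : ℝ) ≤ 2 * M := Nat.floor_le (by linarith)
  have h3 : ((⌊2 * M⌋₊ - ⌊M⌋₊ : ℕ) : ℝ) ≤ (⌊2 * M⌋₊ : ℝ) := by exact_mod_cast Nat.sub_le _ _
  linarith

theorem bilin {M : ℝ} (hM : 1 ≤ M) {P : ℕ} {F δ : ℝ} (hδ : 0 ≤ δ) (S : Finset ℕ) (hS : ∀ n ∈ S, 1 ≤ n) (a b : ℕ → ℂ)
    (hE : ∀ n₁ ∈ S, ∀ n₂ ∈ S, n₁ ≠ n₂ → EB M (F * (1 / n₁ - 1 / n₂)) δ) :
    ‖∑ m ∈ Ioc ⌊M⌋₊ ⌊2 * M⌋₊, a m * ∑ n ∈ S, b n * GP P F (m * n)‖ ^ 2 ≤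
      (∑ m ∈ Ioc ⌊M⌋₊ ⌊2 * M⌋₊, ‖a m‖ ^ 2) * ((∑ n ∈ S, ‖b n‖ ^ 2) * (2 * M + δ * M * S.card)) := by
  have hM0 : 0 < M := by linarith
  set I := Ioc ⌊M⌋₊ ⌊2 * M⌋₊ with hI
  set T : ℕ → ℂ := fun m => ∑ n ∈ S, b n * GP P F (m * n) with hT
  -- Cauchy-Schwarz
  have h1 : ‖∑ m ∈ I, a m * T m‖ ^ 2 ≤ (∑ m ∈ I, ‖a m‖ ^ 2) * ∑ m ∈ I, ‖T m‖ ^ 2 := by
    have h2 : ‖∑ m ∈ I, a m * T m‖ ≤ ∑ m ∈ I, ‖a m‖ * ‖T m‖ := by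
      refine (norm_sum_le _ _).trans (le_of_eq ?_)
      exact sum_congr rfl fun m _ => norm_mul _ _
    refine (pow_le_pow_left₀ (norm_nonneg _) h2 2).trans ?_
    exact sum_mul_sq_le_sq_mul_sq I (fun m => ‖a m‖) (fun m => ‖T m‖)
  refine h1.trans (mul_le_mul_of_nonneg_left ?_ (sum_nonneg fun _ _ => by positivity))
  -- expansion of the square
  set K : ℕ → ℕ → ℂ := fun n₁ n₂ => ∑ m ∈ I, GP P F (m * n₁) * (starRingEnd ℂ) (GP P F (m * n₂)) with hK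
  have h2 : ((∑ m ∈ I, ‖T m‖ ^ 2 : ℝ) : ℂ) = ∑ n₁ ∈ S, ∑ n₂ ∈ S, b n₁ * (starRingEnd ℂ) (b n₂) * K n₁ n₂ := by
    push_cast
    have h3 : ∀ m ∈ I, ((‖T m‖ : ℝ) : ℂ) ^ 2 = ∑ n₁ ∈ S, ∑ n₂ ∈ S,
        b n₁ * (starRingEnd ℂ) (b n₂) * (GP P F (m * n₁) * (starRingEnd ℂ) (GP P F (m * n₂))) := by
      intro m _
      rw [← Complex.mul_conj']
      simp only [hT]
      rw [map_sum, sum_mul_sum]
      refine sum_congr rfl fun n₁ _ => sum_congr rfl fun n₂ _ => ?_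
      rw [map_mul]
      ring
    rw [sum_congr rfl h3, sum_comm]
    refine sum_congr rfl fun n₁ _ => ?_
    rw [sum_comm]
    refine sum_congr rfl fun n₂ _ => ?_
    rw [hK, mul_sum]
  have h3 : ∑ m ∈ I, ‖T m‖ ^ 2 ≤ ∑ n₁ ∈ S, ∑ n₂ ∈ S, ‖b n₁‖ * ‖b n₂‖ * ‖K n₁ n₂‖ := by
    have h4 : ∑ m ∈ I, ‖T m‖ ^ 2 = ‖((∑ m ∈ I, ‖T m‖ ^ 2 : ℝ) : ℂ)‖ := by
      rw [Complex.norm_real, Real.norm_of_nonneg (sum_nonneg fun _ _ => by positivity)]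
    rw [h4, h2]
    refine (norm_sum_le _ _).trans (sum_le_sum fun n₁ _ => (norm_sum_le _ _).trans (sum_le_sum fun n₂ _ => ?_))
    rw [norm_mul, norm_mul, RCLike.norm_conj]
  -- the bounds for `K`
  have h4 : ∀ n₁ ∈ S, ∀ n₂ ∈ S, ‖K n₁ n₂‖ ≤ δ * M + if n₁ = n₂ then 2 * M else 0 := by
    intro n₁ hn₁ n₂ hn₂
    by_cases heq : n₁ = n₂
    · rw [if_pos heq]
      have := VB_diag hM (P := P) (F := F) (n₁ := n₁) (n₂ := n₂)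
      have h5 : 0 ≤ δ * M := by positivity
      exact this.trans (by linarith)
    · rw [if_neg heq, add_zero]
      exact VB_offdiag hM hδ (hS n₁ hn₁) (hS n₂ hn₂) (hE n₁ hn₁ n₂ hn₂ heq)
  have h5 : ∑ n₁ ∈ S, ∑ n₂ ∈ S, ‖b n₁‖ * ‖b n₂‖ * ‖K n₁ n₂‖ ≤
      δ * M * (∑ n ∈ S, ‖b n‖) ^ 2 + 2 * M * ∑ n ∈ S, ‖b n‖ ^ 2 := by
    have h6 : ∑ n₁ ∈ S, ∑ n₂ ∈ S, ‖b n₁‖ * ‖b n₂‖ * ‖K n₁ n₂‖ ≤
        ∑ n₁ ∈ S, ∑ n₂ ∈ S, (δ * M * (‖b n₁‖ * ‖b n₂‖) + if n₁ = n₂ then 2 * M * (‖b n₁‖ * ‖b n₂‖) else 0) := by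
      refine sum_le_sum fun n₁ hn₁ => sum_le_sum fun n₂ hn₂ => ?_
      have h7 := mul_le_mul_of_nonneg_left (h4 n₁ hn₁ n₂ hn₂) (mul_nonneg (norm_nonneg (b n₁)) (norm_nonneg (b n₂)))
      refine h7.trans (le_of_eq ?_)
      split_ifs <;> ring
    refine h6.trans (le_of_eq ?_)
    have h8 : ∀ n₁ ∈ S, ∑ n₂ ∈ S, (δ * M * (‖b n₁‖ * ‖b n₂‖) + if n₁ = n₂ then 2 * M * (‖b n₁‖ * ‖b n₂‖) else 0) =
        δ * M * (‖b n₁‖ * ∑ n ∈ S, ‖b n‖) + 2 * M * ‖b n₁‖ ^ 2 := by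
      intro n₁ hn₁
      rw [sum_add_distrib, sum_ite_eq, if_pos hn₁, ← mul_sum, ← mul_sum]
      ring
    rw [sum_congr rfl h8, sum_add_distrib, ← mul_sum, ← mul_sum, ← sum_mul]
    ring
  have h6 : (∑ n ∈ S, ‖b n‖) ^ 2 ≤ S.card * ∑ n ∈ S, ‖b n‖ ^ 2 := by
    have := sq_sum_le_card_mul_sum_sq (s := S) (f := fun n => ‖b n‖)
    exact_mod_cast this
  refine h3.trans (h5.trans ?_)
  have h7 : δ * M * (∑ n ∈ S, ‖b n‖) ^ 2 ≤ δ * M * (S.card * ∑ n ∈ S, ‖b n‖ ^ 2) :=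
    mul_le_mul_of_nonneg_left h6 (by positivity)
  refine (add_le_add_left h7 _).trans (le_of_eq ?_)
  ring

end Pool.Agent.H70.LC2
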