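import Pool.Agent.H70.LC2.VB
import Pool.Agent.H91.PK.Vau
import Pool.Agent.H76.SP.Tau2

/-!
# LC2 VC: sums of type II

`tyII_block`.  Let `ℓ = 1 + log (2P)`, `S = Ioc V ⌊2P/M⌋₊`.  For `m > M` and `n > 2P/M` we have `m n > 2P`, `GP = 0`; and for `2P/m < n` (natural division) also `m n > 2P`, so the inner sum over `Ioc V (2P/m)` may be
replaced by the sum over `S` (both equal the sum over the union).  `bilin` with `a m = Λ m`, `b n = cV V n`: for `n₁ ≠ n₂ ∈ S`: `|F (1/n₁ - 1/n₂)| = |F| |n₂ - n₁| / (n₁ n₂) ≥ |F| M² / (4 P²) ≥ M T`, because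
`|F| M ≥ 4 P^(3/2) T P^(1/2) = 4 P² T`; and it is `≤ |F| ≤ X`; so `hE` applies.
`∑ ‖Λ m‖² ≤ 2M (log (4P))² ≤ 8 M ℓ²`; `|cV V n| ≤ τ n`, `∑_{n ≤ 2P/M} τ n² ≤ (2P/M) ℓ³` (`H76/SP/Tau2.lean`); `#S ≤ 2P/M`.  Product `≤ 8 M ℓ² (2P/M) ℓ³ (2M + 2 δ P) = 32 P (M + δ P) ℓ^5`.

`tyII`.  Let `M_i = U 2^i`; the sum over `m ∈ Ioc U (2P)` is the sum over the blocks `Ioc M_i (2 M_i)`, `0 ≤ i < I`, where `I` is minimal with `U 2^I ≥ 2P/V`: for `m > 2P/V ≥ ...` and `n > V`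
`m n > 2P`, so the terms with `m ≥ 2P/V` vanish (blocks reaching beyond `2P` only add terms `0`).  `I ≤ 2 ℓ` (`2^(I-1) ≤ 2P/(UV) ≤ 2P`), `M_i ≤ 2P/V`.  Each block is at most
`(100 P (2P/V + δ P) ℓ^5)^(1/2) ≤ 10 P (2/V + δ)^(1/2) ℓ^(5/2) ≤ 15 P (V^(-1/2) + δ^(1/2)) ℓ^3`.
-/

set_option autoImplicit false

open Finset
open Pool.Agent.H91.PK (ee cV)

namespace Pool.Agent.H70.LC2

private theorem VC_cV (V n : ℕ) : |cV V n| ≤ (n.divisors.card : ℝ) := by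
  rw [cV]
  refine (abs_sum_le_sum_abs _ _).trans ?_
  calc ∑ d ∈ n.divisors.filter (fun d => V < d), |((ArithmeticFunction.moebius d : ℤ) : ℝ)|
      ≤ ∑ d ∈ n.divisors.filter (fun d => V < d), (1 : ℝ) := by
        refine sum_le_sum fun d _ => ?_
        have h := ArithmeticFunction.abs_moebius_le_one (n := d)
        exact_mod_cast h
    _ = ((n.divisors.filter (fun d => V < d)).card : ℝ) := by simp
    _ ≤ (n.divisors.card : ℝ) := by exact_mod_cast card_le_card (filter_subset _ _)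

private theorem VC_ell {P : ℕ} (hP : 2 ≤ P) : 2 ≤ 1 + Real.log (2 * P) := by
  have h1 : (4 : ℝ) ≤ 2 * P := by
    have : (2 : ℝ) ≤ P := by exact_mod_cast hP
    linarith
  have h2 : Real.log 4 ≤ Real.log (2 * P) := Real.log_le_log (by norm_num) h1
  have h3 : Real.log 4 = 2 * Real.log 2 := by
    rw [show (4 : ℝ) = 2 ^ 2 by norm_num, Real.log_pow]
    norm_num
  have h4 := Real.log_two_gt_d9
  linarith

private theorem VC_zero {P V m : ℕ} (h : 2 * P < m * (V + 1)) : Ioc V (2 * P / m) = ∅ := by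
  rw [Ioc_eq_empty_iff, not_lt]
  exact Nat.lt_succ_iff.1 (Nat.div_lt_of_lt_mul h)

theorem tyII_block {P V : ℕ} {M F X δ T M₀ : ℝ} (hE : HE X δ T M₀) (hδ : 0 ≤ δ) (hT : 0 ≤ T) (hP : 2 ≤ P) (hM : 1 ≤ M) (hM0 : M₀ ≤ M)
    (hM2 : Real.sqrt P ≤ M) (hMP : M ≤ 2 * P) (hF : 4 * (P : ℝ) ^ (3 / 2 : ℝ) * T ≤ |F|) (hX : |F| ≤ X) :
    ‖∑ m ∈ Ioc ⌊M⌋₊ ⌊2 * M⌋₊, ((ArithmeticFunction.vonMangoldt m : ℝ) : ℂ) *
        ∑ n ∈ Ioc V (2 * P / m), ((cV V n : ℝ) : ℂ) * GP P F (m * n)‖ ^ 2 ≤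
      100 * P * (M + δ * P) * (1 + Real.log (2 * P)) ^ 5 := by
  have hP0 : (0 : ℝ) < P := by
    have : 0 < P := by omega
    exact_mod_cast this
  have hM0' : 0 < M := by linarith
  obtain ⟨ℓ, hℓ⟩ : ∃ ℓ, ℓ = 1 + Real.log (2 * P) := ⟨_, rfl⟩
  have hl2 : 2 ≤ ℓ := by rw [hℓ]; exact VC_ell hP
  obtain ⟨Z, hZ⟩ : ∃ Z : ℕ, Z = ⌊2 * (P : ℝ) / M⌋₊ := ⟨_, rfl⟩
  have hZle : (Z : ℝ) ≤ 2 * P / M := by
    rw [hZ]
    exact Nat.floor_le (by positivity)
  have hm : ∀ m ∈ Ioc ⌊M⌋₊ ⌊2 * M⌋₊, M < m ∧ (m : ℝ) ≤ 2 * M := by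
    intro m hm
    rw [mem_Ioc] at hm
    exact ⟨(Nat.floor_lt hM0'.le).1 hm.1, (Nat.le_floor_iff (by positivity)).1 hm.2⟩
  -- the inner sums
  have hin : ∀ m ∈ Ioc ⌊M⌋₊ ⌊2 * M⌋₊, ∑ n ∈ Ioc V (2 * P / m), ((cV V n : ℝ) : ℂ) * GP P F (m * n) =
      ∑ n ∈ Ioc V Z, ((cV V n : ℝ) : ℂ) * GP P F (m * n) := by
    intro m hmm
    obtain ⟨h1, h2⟩ := hm m hmm
    have hm0 : 0 < m := by
      have : (0 : ℝ) < m := by linarith
      exact_mod_cast this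
    refine sum_subset ?_ ?_
    · intro n hn
      rw [mem_Ioc] at hn ⊢
      refine ⟨hn.1, ?_⟩
      rw [hZ, Nat.le_floor_iff (by positivity), le_div_iff₀ hM0']
      have h3 : n * m ≤ 2 * P := (Nat.le_div_iff_mul_le hm0).1 hn.2
      have h4 : (n : ℝ) * m ≤ 2 * P := by exact_mod_cast h3
      have h5 : (n : ℝ) * M ≤ n * m := mul_le_mul_of_nonneg_left h1.le (Nat.cast_nonneg n)
      linarith
    · intro n hn hn2
      rw [mem_Ioc] at hn hn2
      have h3 : ¬ n ≤ 2 * P / m := fun h => hn2 ⟨hn.1, h⟩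
      rw [Nat.le_div_iff_mul_le hm0] at h3
      have h4 : GP P F (m * n) = 0 := by
        rw [GP, if_neg]
        rintro ⟨-, h⟩
        exact h3 (by rwa [mul_comm])
      rw [h4, mul_zero]
  rw [sum_congr rfl fun m hmm => by rw [hin m hmm]]
  have hb := bilin (P := P) (F := F) hM hδ (Ioc V Z) (fun n hn => by
    rw [mem_Ioc] at hn
    omega) (fun m => ((ArithmeticFunction.vonMangoldt m : ℝ) : ℂ)) (fun n => ((cV V n : ℝ) : ℂ)) (by
    intro n₁ h1 n₂ h2 hne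
    rw [mem_Ioc] at h1 h2
    have p1 : (1 : ℝ) ≤ n₁ := by
      have : 1 ≤ n₁ := by omega
      exact_mod_cast this
    have p2 : (1 : ℝ) ≤ n₂ := by
      have : 1 ≤ n₂ := by omega
      exact_mod_cast this
    have q1 : (n₁ : ℝ) * M ≤ 2 * P := by
      have h3 : (n₁ : ℝ) ≤ 2 * P / M := le_trans (by exact_mod_cast h1.2) hZle
      rwa [le_div_iff₀ hM0'] at h3
    have q2 : (n₂ : ℝ) * M ≤ 2 * P := by
      have h3 : (n₂ : ℝ) ≤ 2 * P / M := le_trans (by exact_mod_cast h2.2) hZle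
      rwa [le_div_iff₀ hM0'] at h3
    have hab : |F * (1 / n₁ - 1 / n₂)| = |F| * (|(n₂ : ℝ) - n₁| / (n₁ * n₂)) := by
      rw [abs_mul, div_sub_div _ _ (by linarith) (by linarith), one_mul, mul_one, abs_div,
        abs_of_pos (show (0 : ℝ) < n₁ * n₂ by positivity)]
    have hd : (1 : ℝ) ≤ |(n₂ : ℝ) - n₁| := by
      have h3 : (1 : ℤ) ≤ |(n₂ : ℤ) - n₁| := Int.one_le_abs (by omega)
      exact_mod_cast h3
    refine hE M _ hM0 ?_ ?_
    · rw [hab]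
      have h3 : 4 * (P : ℝ) ^ 2 * T ≤ |F| * M := by
        have h4 : (P : ℝ) ^ (3 / 2 : ℝ) * Real.sqrt P = (P : ℝ) ^ 2 := by
          rw [Real.sqrt_eq_rpow, ← Real.rpow_add hP0, ← Real.rpow_natCast]
          norm_num
        calc 4 * (P : ℝ) ^ 2 * T = (4 * (P : ℝ) ^ (3 / 2 : ℝ) * T) * Real.sqrt P := by rw [← h4]; ring
          _ ≤ |F| * M := mul_le_mul hF hM2 (Real.sqrt_nonneg _) (abs_nonneg _)
      have h5 : (n₁ : ℝ) * n₂ * M ^ 2 ≤ 4 * (P : ℝ) ^ 2 := by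
        have := mul_le_mul q1 q2 (by positivity) (by positivity)
        nlinarith
      have h6 : M * T * (n₁ * n₂) ≤ |F| := by
        have h7 : (M * T * (n₁ * n₂)) * M ≤ |F| * M := by
          calc (M * T * (n₁ * n₂)) * M = (n₁ * n₂ * M ^ 2) * T := by ring
            _ ≤ 4 * (P : ℝ) ^ 2 * T := mul_le_mul_of_nonneg_right h5 hT
            _ ≤ |F| * M := h3
        exact le_of_mul_le_mul_right h7 hM0'
      rw [mul_div_assoc', le_div_iff₀ (by positivity)]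
      calc M * T * (n₁ * n₂) ≤ |F| * 1 := by linarith
        _ ≤ |F| * |(n₂ : ℝ) - n₁| := mul_le_mul_of_nonneg_left hd (abs_nonneg _)
    · refine le_trans ?_ hX
      rw [abs_mul]
      refine mul_le_of_le_one_right (abs_nonneg _) ?_
      have r1 : 1 / (n₁ : ℝ) ≤ 1 := by rw [div_le_one (by linarith)]; exact p1
      have r2 : 1 / (n₂ : ℝ) ≤ 1 := by rw [div_le_one (by linarith)]; exact p2
      have r3 : 0 < 1 / (n₁ : ℝ) := by positivity
      have r4 : 0 < 1 / (n₂ : ℝ) := by positivity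
      rw [abs_le]
      constructor <;> linarith)
  refine hb.trans ?_
  -- the sum over the block
  have s1 : ∑ m ∈ Ioc ⌊M⌋₊ ⌊2 * M⌋₊, ‖((ArithmeticFunction.vonMangoldt m : ℝ) : ℂ)‖ ^ 2 ≤ 2 * M * ℓ ^ 2 := by
    have h1 : ∀ m ∈ Ioc ⌊M⌋₊ ⌊2 * M⌋₊, ‖((ArithmeticFunction.vonMangoldt m : ℝ) : ℂ)‖ ^ 2 ≤ ℓ ^ 2 := by
      intro m hmm
      obtain ⟨h1, h2⟩ := hm m hmm
      rw [Complex.norm_real, Real.norm_of_nonneg ArithmeticFunction.vonMangoldt_nonneg]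
      refine pow_le_pow_left₀ ArithmeticFunction.vonMangoldt_nonneg ?_ 2
      refine ArithmeticFunction.vonMangoldt_le_log.trans ?_
      have h3 : Real.log m ≤ Real.log (2 * (2 * P)) := Real.log_le_log (by linarith) (by linarith)
      rw [Real.log_mul (by norm_num) (by positivity)] at h3
      have := Real.log_two_lt_d9
      rw [hℓ]
      linarith
    refine (sum_le_sum h1).trans ?_
    rw [sum_const, nsmul_eq_mul, Nat.card_Ioc]
    refine mul_le_mul_of_nonneg_right ?_ (by positivity)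
    have h2 : ((⌊2 * M⌋₊ - ⌊M⌋₊ : ℕ) : ℝ) ≤ (⌊2 * M⌋₊ : ℝ) - ⌊M⌋₊ := by
      rw [Nat.cast_sub (Nat.floor_mono (by linarith))]
    have h3 := Nat.floor_le (show 0 ≤ 2 * M by linarith)
    have h4 := Nat.lt_floor_add_one M
    linarith
  have s2 : ∑ n ∈ Ioc V Z, ‖((cV V n : ℝ) : ℂ)‖ ^ 2 ≤ 2 * P / M * ℓ ^ 3 := by
    have h1 : ∑ n ∈ Ioc V Z, ‖((cV V n : ℝ) : ℂ)‖ ^ 2 ≤ ∑ n ∈ Icc 1 Z, ((n.divisors.card : ℕ) : ℝ) ^ 2 := by
      refine (sum_le_sum fun n _ => ?_).trans (sum_le_sum_of_subset_of_nonneg ?_ fun _ _ _ => by positivity)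
      · rw [Complex.norm_real, Real.norm_eq_abs]
        exact pow_le_pow_left₀ (abs_nonneg _) (VC_cV V n) 2
      · intro n hn
        rw [mem_Ioc] at hn
        rw [mem_Icc]
        omega
    refine h1.trans ((Pool.Agent.H76.SP.tau_sq Z).trans ?_)
    refine mul_le_mul hZle ?_ (by positivity) (by positivity)
    have h2 : Real.log Z ≤ Real.log (2 * P) := by
      rcases Nat.eq_zero_or_pos Z with h | h
      · rw [h, Nat.cast_zero, Real.log_zero]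
        exact Real.log_nonneg (by
          have : (2 : ℝ) ≤ P := by exact_mod_cast hP
          linarith)
      · refine Real.log_le_log (by exact_mod_cast h) (hZle.trans ?_)
        exact div_le_self (by positivity) hM
    have h3 : 0 ≤ Real.log Z := Real.log_natCast_nonneg Z
    refine pow_le_pow_left₀ (by linarith) ?_ 3
    rw [hℓ]
    linarith
  have s3 : ((Ioc V Z).card : ℝ) ≤ 2 * P / M := by
    refine le_trans ?_ hZle
    rw [Nat.card_Ioc]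
    exact_mod_cast Nat.sub_le Z V
  have s4 : 2 * M + δ * M * ((Ioc V Z).card : ℝ) ≤ 2 * M + 2 * δ * P := by
    have h1 : δ * M * ((Ioc V Z).card : ℝ) ≤ δ * M * (2 * P / M) :=
      mul_le_mul_of_nonneg_left s3 (by positivity)
    have h2 : δ * M * (2 * P / M) = 2 * δ * P := by
      field_simp
    linarith
  calc (∑ m ∈ Ioc ⌊M⌋₊ ⌊2 * M⌋₊, ‖((ArithmeticFunction.vonMangoldt m : ℝ) : ℂ)‖ ^ 2) *
        ((∑ n ∈ Ioc V Z, ‖((cV V n : ℝ) : ℂ)‖ ^ 2) * (2 * M + δ * M * ((Ioc V Z).card : ℝ)))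
      ≤ (2 * M * ℓ ^ 2) * ((2 * P / M * ℓ ^ 3) * (2 * M + 2 * δ * P)) := by
        refine mul_le_mul s1 (mul_le_mul s2 s4 (by positivity) (by positivity)) (by positivity) (by positivity)
    _ = 8 * P * (M + δ * P) * ℓ ^ 5 := by
        field_simp
        ring
    _ ≤ 100 * P * (M + δ * P) * (1 + Real.log (2 * P)) ^ 5 := by
        rw [← hℓ]
        have h1 : 0 ≤ (P : ℝ) * (M + δ * P) * ℓ ^ 5 := by positivity
        nlinarith

private theorem VC_dyadic (U J : ℕ) (f : ℕ → ℂ) :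
    ∑ m ∈ Ioc U (U * 2 ^ J), f m = ∑ i ∈ range J, ∑ m ∈ Ioc (U * 2 ^ i) (U * 2 ^ (i + 1)), f m := by
  induction J with
  | zero => simp
  | succ J ih =>
    rw [sum_range_succ, ← ih, sum_Ioc_consecutive]
    · exact Nat.le_mul_of_pos_right U (by positivity)
    · exact Nat.mul_le_mul_left U (Nat.pow_le_pow_right (by norm_num) (by omega))

theorem tyII {P U V : ℕ} {F X δ T M₀ : ℝ} (hE : HE X δ T M₀) (hδ : 0 ≤ δ) (hT : 0 ≤ T) (hP : 2 ≤ P) (hU : Real.sqrt P ≤ U) (hM0 : M₀ ≤ U)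
    (hV : 1 ≤ V) (hF : 4 * (P : ℝ) ^ (3 / 2 : ℝ) * T ≤ |F|) (hX : |F| ≤ X) :
    ‖∑ m ∈ Ioc U (2 * P), ((ArithmeticFunction.vonMangoldt m : ℝ) : ℂ) *
        ∑ n ∈ Ioc V (2 * P / m), ((cV V n : ℝ) : ℂ) * GP P F (m * n)‖ ≤
      100 * P * (Real.sqrt δ + 1 / Real.sqrt V) * (1 + Real.log (2 * P)) ^ 4 := by
  have hP0 : (0 : ℝ) < P := by
    have : 0 < P := by omega
    exact_mod_cast this
  have hV0 : (0 : ℝ) < V := by
    have : 0 < V := by omega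
    exact_mod_cast this
  have hU1 : (1 : ℝ) ≤ U := by
    refine le_trans ?_ hU
    rw [Real.one_le_sqrt]
    have : (2 : ℝ) ≤ P := by exact_mod_cast hP
    linarith
  have hU0 : 1 ≤ U := by exact_mod_cast hU1
  obtain ⟨ℓ, hℓ⟩ : ∃ ℓ, ℓ = 1 + Real.log (2 * P) := ⟨_, rfl⟩
  have hl2 : 2 ≤ ℓ := by rw [hℓ]; exact VC_ell hP
  obtain ⟨f, hf⟩ : ∃ f : ℕ → ℂ, f = fun m => ((ArithmeticFunction.vonMangoldt m : ℝ) : ℂ) *
      ∑ n ∈ Ioc V (2 * P / m), ((cV V n : ℝ) : ℂ) * GP P F (m * n) := ⟨_, rfl⟩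
  have hf0 : ∀ m, 2 * P ≤ m * V → 1 ≤ m → f m = 0 := by
    intro m h h1
    rw [hf]
    have h2 : Ioc V (2 * P / m) = ∅ := VC_zero (by
      rw [mul_add, mul_one]
      omega)
    simp only [h2, sum_empty, mul_zero]
  obtain ⟨J, hJ⟩ : ∃ J, J = Nat.log 2 (2 * P) + 1 := ⟨_, rfl⟩
  have hJ2 : 2 * P < 2 ^ J := by
    rw [hJ]
    exact Nat.lt_pow_succ_log_self (by norm_num) _
  have e1 : ∑ m ∈ Ioc U (2 * P), f m = ∑ m ∈ Ioc U (U * 2 ^ J), f m := by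
    refine sum_subset ?_ ?_
    · refine Ioc_subset_Ioc_right ?_
      calc 2 * P ≤ 1 * 2 ^ J := by omega
        _ ≤ U * 2 ^ J := Nat.mul_le_mul_right _ hU0
    · intro m h1 h2
      rw [mem_Ioc] at h1 h2
      refine hf0 m ?_ (by omega)
      have h3 : 2 * P < m := by
        by_contra h
        exact h2 ⟨h1.1, by omega⟩
      calc 2 * P ≤ m * 1 := by omega
        _ ≤ m * V := Nat.mul_le_mul_left _ hV
  have hblock : ∀ i, ‖∑ m ∈ Ioc (U * 2 ^ i) (U * 2 ^ (i + 1)), f m‖ ≤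
      20 * P * ℓ ^ 3 * (Real.sqrt δ + 1 / Real.sqrt V) := by
    intro i
    have hsV : 0 < Real.sqrt V := Real.sqrt_pos.2 hV0
    have hR : 0 ≤ 20 * (P : ℝ) * ℓ ^ 3 * (Real.sqrt δ + 1 / Real.sqrt V) := by
      have := Real.sqrt_nonneg δ
      positivity
    by_cases h : 2 * P ≤ U * 2 ^ i * V
    · rw [sum_eq_zero, norm_zero]
      · exact hR
      · intro m hm
        rw [mem_Ioc] at hm
        refine hf0 m (h.trans (Nat.mul_le_mul_right _ hm.1.le)) (by omega)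
    · have h' : U * 2 ^ i * V < 2 * P := not_le.1 h
      obtain ⟨M, hMd⟩ : ∃ M : ℝ, M = ((U * 2 ^ i : ℕ) : ℝ) := ⟨_, rfl⟩
      have hUM : (U : ℝ) ≤ M := by
        rw [hMd]
        exact_mod_cast Nat.le_mul_of_pos_right U (by positivity)
      have hMV : M * V ≤ 2 * P := by
        rw [hMd]
        exact_mod_cast h'.le
      have hV1 : (1 : ℝ) ≤ V := by exact_mod_cast hV
      have hMP : M ≤ 2 * P := by
        have : M * 1 ≤ M * V := mul_le_mul_of_nonneg_left hV1 (by linarith)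
        linarith
      have hb := tyII_block (V := V) hE hδ hT hP (by linarith) (by linarith) (by linarith) hMP hF hX
      have fl1 : ⌊M⌋₊ = U * 2 ^ i := by rw [hMd, Nat.floor_natCast]
      have fl2 : ⌊2 * M⌋₊ = U * 2 ^ (i + 1) := by
        rw [show 2 * M = ((U * 2 ^ (i + 1) : ℕ) : ℝ) by rw [hMd]; push_cast; ring, Nat.floor_natCast]
      rw [fl1, fl2] at hb
      have hb' : ‖∑ m ∈ Ioc (U * 2 ^ i) (U * 2 ^ (i + 1)), f m‖ ^ 2 ≤ 100 * P * (M + δ * P) * ℓ ^ 5 := by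
        rw [hf, hℓ]
        exact hb
      refine le_of_sq_le_sq (hb'.trans ?_) hR
      have h1 : M ≤ 2 * P / V := by
        rw [le_div_iff₀ hV0]
        exact hMV
      have h2 : ℓ ^ 5 ≤ ℓ ^ 6 := pow_le_pow_right₀ (by linarith) (by norm_num)
      have h3 : δ + 1 / V ≤ (Real.sqrt δ + 1 / Real.sqrt V) ^ 2 := by
        have h4 : (Real.sqrt δ + 1 / Real.sqrt V) ^ 2 = Real.sqrt δ ^ 2 + 1 / Real.sqrt V ^ 2 +
            2 * Real.sqrt δ * (1 / Real.sqrt V) := by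
          rw [add_sq, div_pow, one_pow]
          ring
        rw [h4, Real.sq_sqrt hδ, Real.sq_sqrt hV0.le]
        have h5 : 0 ≤ 2 * Real.sqrt δ * (1 / Real.sqrt V) := by positivity
        linarith
      calc 100 * P * (M + δ * P) * ℓ ^ 5 ≤ 100 * P * (2 * P / V + δ * P) * ℓ ^ 6 := by
            have h4 : M + δ * P ≤ 2 * P / V + δ * P := by linarith
            have h5 : 0 ≤ M + δ * P := by
              have := mul_nonneg hδ hP0.le
              linarith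
            gcongr
        _ ≤ 400 * P ^ 2 * ℓ ^ 6 * (δ + 1 / V) := by
            have h4 : 400 * (P : ℝ) ^ 2 * ℓ ^ 6 * (δ + 1 / V) - 100 * P * (2 * P / V + δ * P) * ℓ ^ 6 =
                100 * P ^ 2 * ℓ ^ 6 * (3 * δ + 2 / V) := by
              ring
            have h5 : 0 ≤ 100 * (P : ℝ) ^ 2 * ℓ ^ 6 * (3 * δ + 2 / V) := by positivity
            linarith
        _ ≤ 400 * P ^ 2 * ℓ ^ 6 * (Real.sqrt δ + 1 / Real.sqrt V) ^ 2 :=
            mul_le_mul_of_nonneg_left h3 (by positivity)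
        _ = (20 * P * ℓ ^ 3 * (Real.sqrt δ + 1 / Real.sqrt V)) ^ 2 := by ring
  have hJl : (J : ℝ) ≤ 2 * ℓ := by
    have h1 : (2 : ℝ) ^ Nat.log 2 (2 * P) ≤ 2 * P := by
      have := Nat.pow_log_le_self 2 (show 2 * P ≠ 0 by omega)
      exact_mod_cast this
    have h2 : (Nat.log 2 (2 * P) : ℝ) * Real.log 2 ≤ Real.log (2 * P) := by
      rw [← Real.log_pow]
      exact Real.log_le_log (by positivity) h1
    have h3 := Real.log_two_gt_d9
    have h4 : (0 : ℝ) ≤ Nat.log 2 (2 * P) := Nat.cast_nonneg _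
    rw [hJ]
    push_cast
    nlinarith
  have hR : 0 ≤ 20 * (P : ℝ) * ℓ ^ 3 * (Real.sqrt δ + 1 / Real.sqrt V) := by
    have := Real.sqrt_nonneg δ
    positivity
  have e2 : ‖∑ m ∈ Ioc U (2 * P), f m‖ ≤ J * (20 * P * ℓ ^ 3 * (Real.sqrt δ + 1 / Real.sqrt V)) := by
    rw [e1, VC_dyadic]
    refine (norm_sum_le _ _).trans ((sum_le_sum fun i _ => hblock i).trans (le_of_eq ?_))
    rw [sum_const, card_range, nsmul_eq_mul]
  rw [hf] at e2
  refine e2.trans ?_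
  rw [← hℓ]
  calc (J : ℝ) * (20 * P * ℓ ^ 3 * (Real.sqrt δ + 1 / Real.sqrt V))
      ≤ (2 * ℓ) * (20 * P * ℓ ^ 3 * (Real.sqrt δ + 1 / Real.sqrt V)) := mul_le_mul_of_nonneg_right hJl hR
    _ = 40 * (P * (Real.sqrt δ + 1 / Real.sqrt V) * ℓ ^ 4) := by ring
    _ ≤ 100 * P * (Real.sqrt δ + 1 / Real.sqrt V) * ℓ ^ 4 := by
        have h1 : 0 ≤ (P : ℝ) * (Real.sqrt δ + 1 / Real.sqrt V) * ℓ ^ 4 := by
          have := Real.sqrt_nonneg δ
          positivity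
        linarith

end Pool.Agent.H70.LC2
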