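import Pool.Agent.H70.LC2.VA
import Pool.Agent.H70.LC2.VC

/-!
# LC2 VD: the sum over prime powers (Vaughan)

`vau`.  `vaughan (2P) U V (GP P F)` (`H91/PK/Vau.lean`) with `U = ⌈√P⌉₊`, `V = ⌊P^(1/6)⌋₊`.  The left hand side is `∑ n ∈ Icc 1 (2P), Λ n GP P F n = ∑ n ∈ Ioc P (2P), Λ n ee (F/n)`.
The first term on the right is `0`: `n ≤ min U (2P) ≤ P`.  `V ≤ P`, `U V ≤ P` (`P < 64`: `V = 1`, `U ≤ P`; `P ≥ 64`: `U V ≤ (√P + 1) P^(1/6) ≤ 2 P^(2/3) ≤ P`); `U V ≤ 2 P^(2/3)` always, so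
`M₀ U V ≤ P` if `M₀ ≥ 0` (`2 M₀ ≤ P^(1/3)`), clear if `M₀ < 0`; same for `M₀ V ≤ P` and `M₀ ≤ P^(1/3) ≤ U`.  `P T ≤ 4 P^(3/2) T ≤ |F|`.  `tyIa`, `tyIb`, `tyII`, and
`1/√V ≤ 2 P^(-1/12)` (`V ≥ P^(1/6)/2`), `δ ≤ √δ` if `δ ≤ 1`; if `δ > 1` the trivial bound `∑_{P < n ≤ 2P} Λ n ≤ 2P log (2P)` is enough.
-/

set_option autoImplicit false

open Finset
open Pool.Agent.H91.PK (ee)

namespace Pool.Agent.H70.LC2

/-- the left hand side of `vaughan` -/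
private theorem vd_lhs (P : ℕ) (F : ℝ) :
    ∑ n ∈ Icc 1 (2 * P), ((ArithmeticFunction.vonMangoldt n : ℝ) : ℂ) * GP P F n =
      ∑ n ∈ Ioc P (2 * P), ((ArithmeticFunction.vonMangoldt n : ℝ) : ℂ) * ee (F / n) := by
  have hsub : Ioc P (2 * P) ⊆ Icc 1 (2 * P) := by
    intro n hn
    rw [mem_Ioc] at hn
    rw [mem_Icc]
    omega
  rw [← Finset.sum_subset hsub]
  · refine Finset.sum_congr rfl fun n hn => ?_
    rw [mem_Ioc] at hn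
    unfold GP
    rw [if_pos hn]
  · intro n hn hn2
    rw [mem_Icc] at hn
    rw [mem_Ioc] at hn2
    unfold GP
    rw [if_neg hn2, mul_zero]

/-- the first term on the right -/
private theorem vd_zero {P U : ℕ} (hU : U ≤ P) (F : ℝ) :
    ∑ n ∈ Icc 1 (min U (2 * P)), ((ArithmeticFunction.vonMangoldt n : ℝ) : ℂ) * GP P F n = 0 := by
  refine Finset.sum_eq_zero fun n hn => ?_
  rw [mem_Icc] at hn
  have : ¬ (P < n ∧ n ≤ 2 * P) := by omega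
  unfold GP
  rw [if_neg this, mul_zero]

/-- the trivial bound -/
private theorem vd_triv {P : ℕ} (hP : 2 ≤ P) (F : ℝ) :
    ‖∑ n ∈ Ioc P (2 * P), ((ArithmeticFunction.vonMangoldt n : ℝ) : ℂ) * ee (F / n)‖ ≤
      P * Real.log (2 * P) := by
  refine (norm_sum_le _ _).trans ?_
  have h1 : ∀ n ∈ Ioc P (2 * P), ‖((ArithmeticFunction.vonMangoldt n : ℝ) : ℂ) * ee (F / n)‖ ≤
      Real.log (2 * P) := by
    intro n hn
    rw [mem_Ioc] at hn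
    rw [norm_mul, Pool.Agent.H91.PK.LSa_norm_ee, mul_one, Complex.norm_real, Real.norm_eq_abs,
      abs_of_nonneg ArithmeticFunction.vonMangoldt_nonneg]
    refine ArithmeticFunction.vonMangoldt_le_log.trans ?_
    refine Real.log_le_log (by exact_mod_cast (by omega : 0 < n)) ?_
    exact_mod_cast hn.2
  refine (Finset.sum_le_sum h1).trans (le_of_eq ?_)
  rw [Finset.sum_const, Nat.card_Ioc, nsmul_eq_mul]
  congr 2
  omega

/-- the parameters -/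
private theorem vd_par {P : ℕ} (hP : 2 ≤ P) {M₀ : ℝ} (hM : 2 * M₀ ≤ (P : ℝ) ^ (1 / 3 : ℝ)) :
    ∃ U V : ℕ, U ≤ P ∧ 1 ≤ V ∧ V ≤ P ∧ U * V ≤ P ∧ Real.sqrt P ≤ U ∧ M₀ ≤ U ∧ M₀ * V ≤ P ∧
      M₀ * (U * V) ≤ P ∧ 1 / Real.sqrt V ≤ 2 * (P : ℝ) ^ (-(1 / 12 : ℝ)) := by
  have hP2 : (2 : ℝ) ≤ P := by exact_mod_cast hP
  have hP0 : (0 : ℝ) < P := by linarith
  have hP1 : (1 : ℝ) ≤ P := by linarith
  obtain ⟨x, hx⟩ : ∃ x : ℝ, x = (P : ℝ) ^ (1 / 6 : ℝ) := ⟨_, rfl⟩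
  have hx1 : 1 ≤ x := by
    rw [hx]
    exact Real.one_le_rpow hP1 (by norm_num)
  have hx0 : 0 < x := by linarith
  have hx3 : Real.sqrt P = x ^ 3 := by
    rw [hx, Real.sqrt_eq_rpow, ← Real.rpow_natCast, ← Real.rpow_mul hP0.le]
    norm_num
  have hx2 : (P : ℝ) ^ (1 / 3 : ℝ) = x ^ 2 := by
    rw [hx, ← Real.rpow_natCast, ← Real.rpow_mul hP0.le]
    norm_num
  have hx6 : (P : ℝ) = x ^ 6 := by
    rw [hx, ← Real.rpow_natCast, ← Real.rpow_mul hP0.le]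
    norm_num
  rw [hx2] at hM
  have hU1 : x ^ 3 ≤ (⌈x ^ 3⌉₊ : ℝ) := Nat.le_ceil _
  have hU2 : (⌈x ^ 3⌉₊ : ℝ) < x ^ 3 + 1 := Nat.ceil_lt_add_one (by positivity)
  have hV1 : (⌊x⌋₊ : ℝ) ≤ x := Nat.floor_le hx0.le
  have hV2 : x < (⌊x⌋₊ : ℝ) + 1 := Nat.lt_floor_add_one x
  have hV3 : 1 ≤ ⌊x⌋₊ := by
    rw [Nat.one_le_floor_iff]
    exact hx1
  have hV3' : (1 : ℝ) ≤ (⌊x⌋₊ : ℝ) := by exact_mod_cast hV3
  have h13 : 1 ≤ x ^ 3 := one_le_pow₀ hx1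
  have h12 : 1 ≤ x ^ 2 := one_le_pow₀ hx1
  have hU3 : ⌈x ^ 3⌉₊ ≤ P := by
    rw [Nat.ceil_le, hx6]
    exact pow_le_pow_right₀ hx1 (by norm_num)
  have hUV : (⌈x ^ 3⌉₊ : ℝ) * (⌊x⌋₊ : ℝ) ≤ 2 * x ^ 4 := by
    calc (⌈x ^ 3⌉₊ : ℝ) * (⌊x⌋₊ : ℝ) ≤ (2 * x ^ 3) * x :=
          mul_le_mul (by linarith) hV1 (by positivity) (by positivity)
      _ = 2 * x ^ 4 := by ring
  have hUV' : ⌈x ^ 3⌉₊ * ⌊x⌋₊ ≤ P := by
    rcases lt_or_ge x 2 with h | h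
    · have h1 : ⌊x⌋₊ = 1 := by
        rw [Nat.floor_eq_iff hx0.le]
        constructor
        · exact_mod_cast hx1
        · norm_num
          exact h
      rw [h1, mul_one]
      exact hU3
    · have h2 : 2 * x ^ 4 ≤ P := by
        rw [hx6]
        have h3 : 2 ≤ x ^ 2 := by nlinarith
        calc 2 * x ^ 4 ≤ x ^ 2 * x ^ 4 := mul_le_mul_of_nonneg_right h3 (by positivity)
          _ = x ^ 6 := by ring
      have h3 := hUV.trans h2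
      exact_mod_cast h3
  have hMU : ∀ y : ℝ, 0 ≤ y → y ≤ 2 * x ^ 4 → M₀ * y ≤ P := by
    intro y hy hy2
    rcases le_or_gt M₀ 0 with h | h
    · exact (mul_nonpos_of_nonpos_of_nonneg h hy).trans hP0.le
    · calc M₀ * y ≤ M₀ * (2 * x ^ 4) := mul_le_mul_of_nonneg_left hy2 h.le
        _ = (2 * M₀) * x ^ 4 := by ring
        _ ≤ x ^ 2 * x ^ 4 := mul_le_mul_of_nonneg_right hM (by positivity)
        _ = P := by rw [hx6]; ring
  refine ⟨⌈x ^ 3⌉₊, ⌊x⌋₊, hU3, hV3, ?_, hUV', by rw [hx3]; exact hU1, ?_, ?_, ?_, ?_⟩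
  · refine le_trans ?_ hUV'
    refine Nat.le_mul_of_pos_left _ ?_
    rw [Nat.ceil_pos]
    positivity
  · have h23 : x ^ 2 ≤ x ^ 3 := pow_le_pow_right₀ hx1 (by norm_num)
    linarith
  · refine hMU _ (by positivity) (hV1.trans ?_)
    have h14 : x ≤ x ^ 4 := le_self_pow₀ hx1 (by norm_num)
    have h15 : 0 ≤ x ^ 4 := by positivity
    linarith
  · exact hMU _ (by positivity) hUV
  · have h1 : x / 2 ≤ (⌊x⌋₊ : ℝ) := by
      rcases le_or_gt x 2 with h | h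
      · linarith
      · linarith
    have h2 : (P : ℝ) ^ (-(1 / 12 : ℝ)) = 1 / Real.sqrt x := by
      rw [Real.sqrt_eq_rpow, hx, ← Real.rpow_mul hP0.le, Real.rpow_neg hP0.le, one_div]
      norm_num
    have h3 : Real.sqrt x ≤ 2 * Real.sqrt (⌊x⌋₊ : ℝ) := by
      have h4 : Real.sqrt x ≤ Real.sqrt (4 * (⌊x⌋₊ : ℝ)) := Real.sqrt_le_sqrt (by linarith)
      refine h4.trans (le_of_eq ?_)
      rw [Real.sqrt_mul (by norm_num)]
      congr 1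
      rw [show (4 : ℝ) = 2 ^ 2 by norm_num, Real.sqrt_sq (by norm_num)]
    rw [h2]
    have h5 : 0 < Real.sqrt x := Real.sqrt_pos.mpr hx0
    have h6 : 0 < Real.sqrt (⌊x⌋₊ : ℝ) := Real.sqrt_pos.mpr (by linarith)
    rw [← mul_div_assoc, mul_one, div_le_div_iff₀ h6 h5]
    linarith

theorem vau : ∃ C : ℝ, 0 < C ∧ ∀ (P : ℕ) (F X δ T M₀ : ℝ), HE X δ T M₀ → 0 ≤ δ → 0 ≤ T → 2 ≤ P → 2 * M₀ ≤ (P : ℝ) ^ (1 / 3 : ℝ) →
    4 * (P : ℝ) ^ (3 / 2 : ℝ) * T ≤ |F| → |F| ≤ X →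
    ‖∑ n ∈ Ioc P (2 * P), ((ArithmeticFunction.vonMangoldt n : ℝ) : ℂ) * ee (F / n)‖ ≤
      C * P * (Real.sqrt δ + (P : ℝ) ^ (-(1 / 12 : ℝ))) * (1 + Real.log (2 * P)) ^ 4 := by
  refine ⟨300, by norm_num, fun P F X δ T M₀ hE hδ hT hP hM hF hX => ?_⟩
  have hP2 : (2 : ℝ) ≤ P := by exact_mod_cast hP
  have hP0 : (0 : ℝ) < P := by linarith
  obtain ⟨L, hL⟩ : ∃ L : ℝ, L = 1 + Real.log (2 * P) := ⟨_, rfl⟩
  have hL0 : 0 ≤ Real.log (2 * P) := Real.log_nonneg (by linarith)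
  have hL1 : 1 ≤ L := by rw [hL]; linarith
  rw [← hL]
  obtain ⟨z, hz⟩ : ∃ z : ℝ, z = (P : ℝ) ^ (-(1 / 12 : ℝ)) := ⟨_, rfl⟩
  have hz0 : 0 ≤ z := by
    rw [hz]
    positivity
  have hL4 : 1 ≤ L ^ 4 := one_le_pow₀ hL1
  have hsq := Real.sqrt_nonneg δ
  rcases le_or_gt δ 1 with hδ1 | hδ1
  · obtain ⟨U, V, h1, h2, h3, h4, h5, h6, h7, h8, h9⟩ := vd_par hP hM
    have hFT : (P : ℝ) * T ≤ |F| := by
      refine le_trans (mul_le_mul_of_nonneg_right ?_ hT) hF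
      have h10 : (P : ℝ) ≤ (P : ℝ) ^ (3 / 2 : ℝ) := by
        calc (P : ℝ) = (P : ℝ) ^ (1 : ℝ) := (Real.rpow_one _).symm
          _ ≤ _ := Real.rpow_le_rpow_of_exponent_le (by linarith) (by norm_num)
      linarith
    have hP1 : 1 ≤ P := by omega
    have a1 := tyIa hE hδ hP1 hFT hX h7 h3
    have a2 := tyIb hE hδ hP1 hFT hX h8 h4
    have a3 := tyII hE hδ hT hP h5 h6 h2 hF hX
    have hv := Pool.Agent.H91.PK.vaughan (2 * P) U V (GP P F)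
    rw [vd_lhs, vd_zero h1, zero_add] at hv
    rw [hv]
    rw [← hL] at a1 a2 a3
    rw [← hz] at h9 ⊢
    refine (norm_add_le _ _).trans ?_
    refine (add_le_add_left (norm_sub_le _ _) _).trans ?_
    have hδs : δ ≤ Real.sqrt δ := by
      rw [Real.le_sqrt hδ hδ]
      nlinarith
    have hL2 : L ^ 2 ≤ L ^ 4 := pow_le_pow_right₀ hL1 (by norm_num)
    have b1 : 3 * δ * P * L ^ 2 ≤ 3 * (Real.sqrt δ + z) * P * L ^ 4 := by
      refine mul_le_mul ?_ hL2 (by positivity) (by positivity)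
      refine mul_le_mul_of_nonneg_right ?_ hP0.le
      linarith
    have b2 : 100 * P * (Real.sqrt δ + 1 / Real.sqrt V) * L ^ 4 ≤
        200 * (Real.sqrt δ + z) * P * L ^ 4 := by
      refine mul_le_mul_of_nonneg_right ?_ (by positivity)
      calc 100 * (P : ℝ) * (Real.sqrt δ + 1 / Real.sqrt V) ≤ 100 * P * (2 * (Real.sqrt δ + z)) :=
            mul_le_mul_of_nonneg_left (by linarith) (by positivity)
        _ = 200 * (Real.sqrt δ + z) * P := by ring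
    have b3 : 0 ≤ 97 * (Real.sqrt δ + z) * P * L ^ 4 := by positivity
    calc _ ≤ 2 * δ * P * L ^ 2 + δ * P * L ^ 2 + 100 * P * (Real.sqrt δ + 1 / Real.sqrt V) * L ^ 4 :=
          add_le_add (add_le_add a1 a2) a3
      _ ≤ 300 * P * (Real.sqrt δ + z) * L ^ 4 := by
          linarith
  · refine (vd_triv hP F).trans ?_
    have h1 : 1 ≤ Real.sqrt δ := Real.one_le_sqrt.mpr hδ1.le
    rw [← hz]
    have h2 : Real.log (2 * P) ≤ L ^ 4 := by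
      have : L ≤ L ^ 4 := le_self_pow₀ hL1 (by norm_num)
      linarith
    have h3 : (P : ℝ) ≤ 300 * P * (Real.sqrt δ + z) := by
      nlinarith
    exact mul_le_mul h3 h2 hL0 (by positivity)

end Pool.Agent.H70.LC2
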