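import Pool.Agent.H70.LC2.VD
import Pool.Agent.H70.LC2.EE

/-!
# LC2 VE: the sum over primes

`sp_main`.  We may assume `A ≥ 0` (for larger `A` the statement is stronger when `log n ≥ 1`).  `L = log n`; `he_main (ε/2) (2A + 12) 2`: `HE (n²) (L^(-2A-12)) (L^(2A+13)) M₀`, `M₀ = exp (L^(2/3+ε/2))`.
`2 M₀ ≤ P^(1/3)`: `P^(1/3) ≥ exp (L^(2/3+ε) / 3)`.  `4 P^(3/2) L^(2A+13) ≤ 4 n^(39/40) L^(2A+13) ≤ n^(99/100) ≤ F`.  `vau`: the sum of `Λ n e(F/n)` over `(P, 2P]` is at most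
`C P (L^(-A-6) + P^(-1/12)) (1 + log (2P))^4 ≤ P L^(-A) / 2` for large `n` (`1 + log (2P) ≤ L`, `P^(-1/12) ≤ exp (-L^(2/3)/12)`).  The prime powers which are not primes contribute at most
`∑ Λ n ≤ ψ(2P) - θ(2P) ≤ 2 √(2P) log (2P) ≤ P L^(-A) / 2` (`Chebyshev.psi_sub_theta_le`, `Chebyshev.psi_sub_theta_eq_sum_not_prime`; `Λ p = log p` for primes).
-/

set_option autoImplicit false

open Finset
open Pool.Agent.H91.PK (ee)

namespace Pool.Agent.H70.LC2

private theorem ve_growth (s c r K : ℝ) (hc : 0 < c) (hr : 0 < r) :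
    ∀ᶠ L : ℝ in Filter.atTop, K * L ^ s ≤ Real.exp (c * L ^ r) := by
  have h1 := (tendsto_exp_mul_div_rpow_atTop (s / r) c hc).comp (tendsto_rpow_atTop hr)
  filter_upwards [h1.eventually_ge_atTop K, Filter.eventually_gt_atTop 0] with L hL h0
  have h2 : (L ^ r) ^ (s / r) = L ^ s := by
    rw [← Real.rpow_mul h0.le]
    congr 1
    field_simp
  have h3 : K ≤ Real.exp (c * L ^ r) / (L ^ r) ^ (s / r) := hL
  rw [h2] at h3
  exact (le_div_iff₀ (Real.rpow_pos_of_pos h0 s)).1 h3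

private theorem ve_pp (P : ℕ) (hP : 2 ≤ P) (F : ℝ) :
    ‖(∑ n ∈ Ioc P (2 * P), ((ArithmeticFunction.vonMangoldt n : ℝ) : ℂ) * ee (F / n)) - SP P F‖ ≤
      2 * Real.sqrt (2 * P) * Real.log (2 * P) := by
  have h1 : (∑ n ∈ Ioc P (2 * P), ((ArithmeticFunction.vonMangoldt n : ℝ) : ℂ) * ee (F / n)) - SP P F =
      ∑ n ∈ (Ioc P (2 * P)).filter (fun n => ¬ n.Prime),
        ((ArithmeticFunction.vonMangoldt n : ℝ) : ℂ) * ee (F / n) := by
    rw [← sum_filter_add_sum_filter_not (Ioc P (2 * P)) Nat.Prime]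
    have h2 : SP P F = ∑ n ∈ (Ioc P (2 * P)).filter Nat.Prime,
        ((ArithmeticFunction.vonMangoldt n : ℝ) : ℂ) * ee (F / n) := by
      refine sum_congr rfl fun p hp => ?_
      rw [ArithmeticFunction.vonMangoldt_apply_prime (mem_filter.1 hp).2]
    rw [h2, add_sub_cancel_left]
  rw [h1]
  have h2 : ‖∑ n ∈ (Ioc P (2 * P)).filter (fun n => ¬ n.Prime),
      ((ArithmeticFunction.vonMangoldt n : ℝ) : ℂ) * ee (F / n)‖ ≤
      ∑ n ∈ (Ioc P (2 * P)).filter (fun n => ¬ n.Prime), ArithmeticFunction.vonMangoldt n := by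
    refine (norm_sum_le _ _).trans (sum_le_sum fun n _ => ?_)
    rw [norm_mul, Pool.Agent.H91.PK.LSa_norm_ee, mul_one, Complex.norm_real,
      Real.norm_of_nonneg ArithmeticFunction.vonMangoldt_nonneg]
  have h3 : ∑ n ∈ (Ioc P (2 * P)).filter (fun n => ¬ n.Prime), ArithmeticFunction.vonMangoldt n ≤
      ∑ n ∈ (Ioc 0 ⌊((2 * P : ℕ) : ℝ)⌋₊).filter (fun n => ¬ n.Prime), ArithmeticFunction.vonMangoldt n := by
    rw [Nat.floor_natCast]
    refine sum_le_sum_of_subset_of_nonneg (filter_subset_filter _ ?_)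
      fun _ _ _ => ArithmeticFunction.vonMangoldt_nonneg
    exact Ioc_subset_Ioc_left (Nat.zero_le P)
  rw [← Chebyshev.psi_sub_theta_eq_sum_not_prime] at h3
  have h4 : (1 : ℝ) ≤ ((2 * P : ℕ) : ℝ) := by exact_mod_cast (by omega : 1 ≤ 2 * P)
  have h5 := Chebyshev.psi_sub_theta_le h4
  push_cast at h3 h5
  exact h2.trans (h3.trans h5)

theorem sp_main (ε A : ℝ) (hε : 0 < ε) : ∃ n₀ : ℝ, ∀ n : ℝ, n₀ ≤ n → ∀ P : ℕ, Real.exp (Real.log n ^ (2 / 3 + ε)) ≤ P →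
    (P : ℝ) ≤ n ^ (13 / 20 : ℝ) → ∀ F : ℝ, n ^ (99 / 100 : ℝ) ≤ F → F ≤ n ^ (2 : ℝ) → ‖SP P F‖ ≤ P * Real.log n ^ (-A) := by
  obtain ⟨C, hC, hvau⟩ := vau
  have hA0 : (0 : ℝ) ≤ max A 0 := le_max_right _ _
  obtain ⟨n₁, hn₁⟩ := he_main (ε / 2) (2 * max A 0 + 12) 2 (by linarith) (by linarith)
  have ev : ∀ᶠ L : ℝ in Filter.atTop, 5 ≤ L ∧ 4 * C ≤ L ^ (2 : ℝ) ∧
      (4 * C) * L ^ (4 + max A 0) ≤ Real.exp (1 / 12 * L ^ (2 / 3 : ℝ)) ∧
      8 * L ^ (1 + max A 0) ≤ Real.exp (1 / 2 * L ^ (2 / 3 : ℝ)) ∧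
      6 ≤ L ^ (ε / 2) ∧
      4 * L ^ (2 * max A 0 + 13) ≤ Real.exp (3 / 200 * L ^ (1 : ℝ)) := by
    refine (Filter.eventually_ge_atTop 5).and (((tendsto_rpow_atTop (by norm_num)).eventually_ge_atTop _).and
      ((ve_growth _ _ _ _ (by norm_num) (by norm_num)).and ((ve_growth _ _ _ _ (by norm_num) (by norm_num)).and
      (((tendsto_rpow_atTop (by linarith)).eventually_ge_atTop _).and
      (ve_growth _ _ _ _ (by norm_num) (by norm_num))))))
  obtain ⟨L₀, hL₀⟩ := Filter.eventually_atTop.1 ev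
  refine ⟨max n₁ (Real.exp L₀), fun n hn P hP1 hP2 F hF1 hF2 => ?_⟩
  have hnpos : 0 < n := (Real.exp_pos L₀).trans_le ((le_max_right _ _).trans hn)
  have hLn : L₀ ≤ Real.log n := by
    rw [Real.le_log_iff_exp_le hnpos]
    exact (le_max_right _ _).trans hn
  obtain ⟨e1, e2, e3, e4, e5, e6⟩ := hL₀ _ hLn
  have hHE := hn₁ n ((le_max_left _ _).trans hn)
  set L := Real.log n with hL
  have hLpos : 0 < L := by linarith
  have hL1 : 1 ≤ L := by linarith
  have hexp : ∀ a : ℝ, n ^ a = Real.exp (L * a) := fun a => Real.rpow_def_of_pos hnpos a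
  have hpow : L ^ (2 / 3 + ε) = L ^ (2 / 3 + ε / 2) * L ^ (ε / 2) := by
    rw [← Real.rpow_add hLpos]
    congr 1
    ring
  have hM1 : 1 ≤ L ^ (2 / 3 + ε / 2) := Real.one_le_rpow hL1 (by linarith)
  have hmono : L ^ (2 / 3 : ℝ) ≤ L ^ (2 / 3 + ε) :=
    Real.rpow_le_rpow_of_exponent_le hL1 (by linarith)
  have hP0 : (0 : ℝ) < P := (Real.exp_pos _).trans_le hP1
  have hP2' : 2 ≤ P := by
    have h1 : Real.exp 1 ≤ P := by
      refine (Real.exp_le_exp.2 ?_).trans hP1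
      rw [hpow]
      nlinarith
    have h2 : (1 : ℝ) < P := by
      have := Real.add_one_le_exp 1
      linarith
    exact_mod_cast h2
  have hlogP : L ^ (2 / 3 + ε) ≤ Real.log P := by
    rwa [Real.le_log_iff_exp_le hP0]
  have hrp : ∀ a : ℝ, (P : ℝ) ^ a = Real.exp (Real.log P * a) := fun a => Real.rpow_def_of_pos hP0 a
  have hlogP2 : Real.log P ≤ 13 / 20 * L := by
    rw [← Real.log_rpow hnpos]
    exact Real.log_le_log hP0 hP2
  have hT : 0 < L ^ (2 * max A 0 + 13) := Real.rpow_pos_of_pos hLpos _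
  -- the hypotheses of Vaughan
  have k1 : 2 * Real.exp (L ^ (2 / 3 + ε / 2)) ≤ (P : ℝ) ^ (1 / 3 : ℝ) := by
    rw [hrp]
    have h2 : (2 : ℝ) ≤ Real.exp 1 := by
      have := Real.add_one_le_exp 1
      linarith
    calc 2 * Real.exp (L ^ (2 / 3 + ε / 2)) ≤ Real.exp 1 * Real.exp (L ^ (2 / 3 + ε / 2)) :=
          mul_le_mul_of_nonneg_right h2 (Real.exp_pos _).le
      _ = Real.exp (1 + L ^ (2 / 3 + ε / 2)) := (Real.exp_add _ _).symm
      _ ≤ Real.exp (Real.log P * (1 / 3)) := by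
          refine Real.exp_le_exp.2 ?_
          rw [hpow] at hlogP
          nlinarith
  have hnF : 0 < F := (Real.rpow_pos_of_pos hnpos _).trans_le hF1
  have hFabs : |F| = F := abs_of_pos hnF
  have k2 : 4 * (P : ℝ) ^ (3 / 2 : ℝ) * L ^ (2 * max A 0 + 12 + 1) ≤ |F| := by
    rw [hFabs]
    refine le_trans ?_ hF1
    rw [hrp, hexp]
    have h1 : (2 * max A 0 + 12 + 1) = 2 * max A 0 + 13 := by ring
    rw [h1]
    rw [Real.rpow_one] at e6
    calc 4 * Real.exp (Real.log P * (3 / 2)) * L ^ (2 * max A 0 + 13)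
        = Real.exp (Real.log P * (3 / 2)) * (4 * L ^ (2 * max A 0 + 13)) := by ring
      _ ≤ Real.exp (Real.log P * (3 / 2)) * Real.exp (3 / 200 * L) :=
          mul_le_mul_of_nonneg_left e6 (Real.exp_pos _).le
      _ = Real.exp (Real.log P * (3 / 2) + 3 / 200 * L) := (Real.exp_add _ _).symm
      _ ≤ Real.exp (L * (99 / 100)) := by
          refine Real.exp_le_exp.2 ?_
          linarith
  have k3 : |F| ≤ n ^ (2 : ℝ) := by rwa [hFabs]
  have hv := hvau P F (n ^ (2 : ℝ)) (L ^ (-(2 * max A 0 + 12))) (L ^ (2 * max A 0 + 12 + 1))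
    (Real.exp (L ^ (2 / 3 + ε / 2))) hHE (Real.rpow_nonneg hLpos.le _) (Real.rpow_nonneg hLpos.le _)
    hP2' k1 k2 k3
  have hlog2P : Real.log (2 * P) = Real.log 2 + Real.log P := Real.log_mul (by norm_num) hP0.ne'
  have hlog2 : Real.log 2 ≤ 0.7 := by
    have := Real.log_two_lt_d9
    norm_num at this ⊢
    linarith
  have hlogbd : 1 + Real.log (2 * P) ≤ L := by
    rw [hlog2P]
    norm_num at hlog2
    linarith
  have hlog0 : 0 ≤ 1 + Real.log (2 * P) := by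
    have h1 : (1 : ℝ) ≤ 2 * P := by
      have : (2 : ℝ) ≤ P := by exact_mod_cast hP2'
      linarith
    have := Real.log_nonneg h1
    linarith
  have hsq : Real.sqrt (L ^ (-(2 * max A 0 + 12))) = L ^ (-(max A 0) - 6) := by
    rw [Real.sqrt_eq_rpow, ← Real.rpow_mul hLpos.le]
    congr 1
    ring
  have hB : L ^ (-(max A 0)) ≤ L ^ (-A) :=
    Real.rpow_le_rpow_of_exponent_le hL1 (neg_le_neg (le_max_left _ _))
  have hBpos : 0 < L ^ (-(max A 0)) := Real.rpow_pos_of_pos hLpos _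
  -- first half
  have q1 : C * P * (Real.sqrt (L ^ (-(2 * max A 0 + 12))) + (P : ℝ) ^ (-(1 / 12 : ℝ))) *
      (1 + Real.log (2 * P)) ^ 4 ≤ P * L ^ (-(max A 0)) / 2 := by
    rw [hsq]
    have h4 : (1 + Real.log (2 * P)) ^ 4 ≤ L ^ (4 : ℝ) := by
      have : L ^ (4 : ℝ) = L ^ 4 := by
        rw [← Real.rpow_natCast L 4]
        norm_num
      rw [this]
      exact pow_le_pow_left₀ hlog0 hlogbd 4
    have h5 : C * (L ^ (-(max A 0) - 6) * L ^ (4 : ℝ)) ≤ L ^ (-(max A 0)) / 4 := by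
      have : L ^ (-(max A 0) - 6) * L ^ (4 : ℝ) * L ^ (2 : ℝ) = L ^ (-(max A 0)) := by
        rw [← Real.rpow_add hLpos, ← Real.rpow_add hLpos]
        congr 1
        ring
      have hpos : 0 < L ^ (-(max A 0) - 6) * L ^ (4 : ℝ) :=
        mul_pos (Real.rpow_pos_of_pos hLpos _) (Real.rpow_pos_of_pos hLpos _)
      nlinarith
    have h6 : C * ((P : ℝ) ^ (-(1 / 12 : ℝ)) * L ^ (4 : ℝ)) ≤ L ^ (-(max A 0)) / 4 := by
      have h7 : (P : ℝ) ^ (-(1 / 12 : ℝ)) ≤ Real.exp (-(1 / 12 * L ^ (2 / 3 : ℝ))) := by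
        rw [hrp]
        refine Real.exp_le_exp.2 ?_
        linarith
      have h8 : L ^ (4 + max A 0) * L ^ (-(max A 0)) = L ^ (4 : ℝ) := by
        rw [← Real.rpow_add hLpos]
        congr 1
        ring
      have h9 : Real.exp (-(1 / 12 * L ^ (2 / 3 : ℝ))) * Real.exp (1 / 12 * L ^ (2 / 3 : ℝ)) = 1 := by
        rw [← Real.exp_add]
        simp
      calc C * ((P : ℝ) ^ (-(1 / 12 : ℝ)) * L ^ (4 : ℝ))
          ≤ C * (Real.exp (-(1 / 12 * L ^ (2 / 3 : ℝ))) * L ^ (4 : ℝ)) := by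
            refine mul_le_mul_of_nonneg_left ?_ hC.le
            exact mul_le_mul_of_nonneg_right h7 (Real.rpow_nonneg hLpos.le _)
        _ = (Real.exp (-(1 / 12 * L ^ (2 / 3 : ℝ))) * ((4 * C) * L ^ (4 + max A 0))) *
              L ^ (-(max A 0)) / 4 := by
            rw [← h8]
            ring
        _ ≤ (Real.exp (-(1 / 12 * L ^ (2 / 3 : ℝ))) * Real.exp (1 / 12 * L ^ (2 / 3 : ℝ))) *
              L ^ (-(max A 0)) / 4 := by
            have := mul_le_mul_of_nonneg_left e3 (Real.exp_pos (-(1 / 12 * L ^ (2 / 3 : ℝ)))).le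
            have := mul_le_mul_of_nonneg_right this hBpos.le
            linarith
        _ = L ^ (-(max A 0)) / 4 := by rw [h9, one_mul]
    have hs : 0 ≤ L ^ (-(max A 0) - 6) + (P : ℝ) ^ (-(1 / 12 : ℝ)) :=
      add_nonneg (Real.rpow_nonneg hLpos.le _) (Real.rpow_nonneg hP0.le _)
    calc C * P * (L ^ (-(max A 0) - 6) + (P : ℝ) ^ (-(1 / 12 : ℝ))) * (1 + Real.log (2 * P)) ^ 4
        ≤ C * P * (L ^ (-(max A 0) - 6) + (P : ℝ) ^ (-(1 / 12 : ℝ))) * L ^ (4 : ℝ) :=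
          mul_le_mul_of_nonneg_left h4 (mul_nonneg (mul_nonneg hC.le hP0.le) hs)
      _ = P * (C * (L ^ (-(max A 0) - 6) * L ^ (4 : ℝ)) +
            C * ((P : ℝ) ^ (-(1 / 12 : ℝ)) * L ^ (4 : ℝ))) := by ring
      _ ≤ P * (L ^ (-(max A 0)) / 4 + L ^ (-(max A 0)) / 4) :=
          mul_le_mul_of_nonneg_left (add_le_add h5 h6) hP0.le
      _ = P * L ^ (-(max A 0)) / 2 := by ring
  -- second half
  have q2 : 2 * Real.sqrt (2 * P) * Real.log (2 * P) ≤ P * L ^ (-(max A 0)) / 2 := by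
    have h1 : Real.log (2 * P) ≤ L := by linarith
    have h2 : Real.sqrt (2 * P) ≤ 2 * Real.sqrt P := by
      rw [Real.sqrt_mul (by norm_num)]
      refine mul_le_mul_of_nonneg_right ?_ (Real.sqrt_nonneg _)
      rw [Real.sqrt_le_left (by norm_num)]
      norm_num
    have h3 : 8 * L ^ (1 + max A 0) ≤ Real.sqrt P := by
      refine e4.trans ?_
      rw [Real.sqrt_eq_rpow, hrp]
      refine Real.exp_le_exp.2 ?_
      linarith
    have h4 : L ^ (1 + max A 0) * L ^ (-(max A 0)) = L := by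
      rw [← Real.rpow_add hLpos]
      have : 1 + max A 0 + -(max A 0) = 1 := by ring
      rw [this, Real.rpow_one]
    have h5 : 8 * L ≤ Real.sqrt P * L ^ (-(max A 0)) := by
      have := mul_le_mul_of_nonneg_right h3 hBpos.le
      rw [mul_assoc, h4] at this
      exact this
    have h6 : Real.sqrt P * Real.sqrt P = P := Real.mul_self_sqrt hP0.le
    calc 2 * Real.sqrt (2 * P) * Real.log (2 * P) ≤ 2 * Real.sqrt (2 * P) * L :=
          mul_le_mul_of_nonneg_left h1 (by positivity)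
      _ ≤ 2 * (2 * Real.sqrt P) * L := by
          refine mul_le_mul_of_nonneg_right ?_ hLpos.le
          linarith
      _ = Real.sqrt P * (8 * L) / 2 := by ring
      _ ≤ Real.sqrt P * (Real.sqrt P * L ^ (-(max A 0))) / 2 := by
          have := mul_le_mul_of_nonneg_left h5 (Real.sqrt_nonneg (P : ℝ))
          linarith
      _ = P * L ^ (-(max A 0)) / 2 := by
          rw [← mul_assoc, h6]
  have hpp := ve_pp P hP2' F
  have htri : ‖SP P F‖ ≤ ‖∑ n ∈ Ioc P (2 * P), ((ArithmeticFunction.vonMangoldt n : ℝ) : ℂ) * ee (F / n)‖ +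
      ‖(∑ n ∈ Ioc P (2 * P), ((ArithmeticFunction.vonMangoldt n : ℝ) : ℂ) * ee (F / n)) - SP P F‖ := by
    have h1 : SP P F = (∑ n ∈ Ioc P (2 * P), ((ArithmeticFunction.vonMangoldt n : ℝ) : ℂ) * ee (F / n)) -
        ((∑ n ∈ Ioc P (2 * P), ((ArithmeticFunction.vonMangoldt n : ℝ) : ℂ) * ee (F / n)) - SP P F) := by
      ring
    conv_lhs => rw [h1]
    exact norm_sub_le _ _
  have hfin : P * L ^ (-(max A 0)) ≤ P * L ^ (-A) := mul_le_mul_of_nonneg_left hB hP0.le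
  have hv' := hv.trans q1
  have hpp' := hpp.trans q2
  linarith

end Pool.Agent.H70.LC2
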